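import Pool.Agent.Marg.Assemble

/-!
# Almost everywhere convergence along the subsequence `N = M ^ d`
-/

open Finset Real MeasureTheory Filter Topology
open scoped InnerProductSpace

namespace Marg

variable {z : ℕ → ℝ}

theorem ae_RM (hz : ∀ n, |z n| ≤ 1) {b : ℕ} (hb : 1 ≤ b) :
    ∀ᵐ u : ℝ, Tendsto (fun M : ℕ => RM z b M u) atTop (𝓝 0) := by
  obtain ⟨K, hK0, hK⟩ := l2_bound b hb
  obtain ⟨M0, hM0⟩ := eventually_atTop.1 hK
  set M1 := M0 + 1 with hM1
  have h1 : ∀ M, Integrable (fun u => RM z b (M + M1) u ^ 2) ∧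
      ∫ u, RM z b (M + M1) u ^ 2 ≤ K / ((M + M1 : ℕ) : ℝ) ^ 2 := by
    intro M
    exact hM0 (M + M1) (by omega) z hz
  set G : ℕ → ℝ → ENNReal := fun M u => ENNReal.ofReal (RM z b (M + M1) u ^ 2) with hG
  have hGm : ∀ M, AEMeasurable (G M) volume := fun M => (h1 M).1.aemeasurable.ennreal_ofReal
  have hGi : ∀ M, ∫⁻ u, G M u ≤ ENNReal.ofReal (K / ((M + M1 : ℕ) : ℝ) ^ 2) := by
    intro M
    rw [hG]
    simp only
    rw [← ofReal_integral_eq_lintegral_ofReal (h1 M).1 (Eventually.of_forall fun u => sq_nonneg _)]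
    exact ENNReal.ofReal_le_ofReal (h1 M).2
  have hsum : Summable (fun M : ℕ => K / ((M + M1 : ℕ) : ℝ) ^ 2) := by
    have h2 : Summable (fun M : ℕ => K / (M : ℝ) ^ 2) := by
      have := (Real.summable_one_div_nat_pow (p := 2)).2 (by norm_num)
      simpa [div_eq_mul_inv] using this.mul_left K
    exact (summable_nat_add_iff (f := fun M : ℕ => K / (M : ℝ) ^ 2) M1).2 h2
  have hfin : ∫⁻ u, ∑' M, G M u ≠ ⊤ := by
    rw [lintegral_tsum hGm]
    refine ne_top_of_le_ne_top ?_ (ENNReal.tsum_le_tsum hGi)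
    rw [← ENNReal.ofReal_tsum_of_nonneg (fun M => by positivity) hsum]
    exact ENNReal.ofReal_ne_top
  have hae : ∀ᵐ u : ℝ, ∑' M, G M u < ⊤ :=
    ae_lt_top' (AEMeasurable.ennreal_tsum hGm) hfin
  filter_upwards [hae] with u hu
  have h3 := ENNReal.tendsto_atTop_zero_of_tsum_ne_top hu.ne
  have h4 : Tendsto (fun M => RM z b (M + M1) u ^ 2) atTop (𝓝 0) := by
    have h5 := (ENNReal.tendsto_toReal ENNReal.zero_ne_top).comp h3
    simp only [ENNReal.toReal_zero] at h5
    refine h5.congr fun M => ?_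
    simp only [Function.comp, hG]
    rw [ENNReal.toReal_ofReal (sq_nonneg _)]
  have h6 : Tendsto (fun M => |RM z b (M + M1) u|) atTop (𝓝 0) := by
    have h7 := (Real.continuous_sqrt.tendsto 0).comp h4
    rw [Real.sqrt_zero] at h7
    refine h7.congr fun M => ?_
    simp only [Function.comp]
    rw [Real.sqrt_sq_eq_abs]
  have h8 : Tendsto (fun M => RM z b (M + M1) u) atTop (𝓝 0) :=
    (tendsto_zero_iff_abs_tendsto_zero _).2 h6
  exact (tendsto_add_atTop_iff_nat M1).1 h8

/-- block average at `N = M ^ De (b + 1)` -/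
noncomputable def TM (z : ℕ → ℝ) (b M : ℕ) (u : ℝ) : ℝ :=
  (∑ i ∈ range (M ^ De (b + 1)), ZZ z (u + ll ((M ^ De (b + 1) + i : ℕ) : ℝ)))
    / ((M ^ De (b + 1) : ℕ) : ℝ)

lemma ll_exp {u x : ℝ} (hx : 3 ≤ x) : exp (exp (u + ll x)) = x ^ exp u := by
  have h1 := log_ge_one hx
  unfold ll
  rw [Real.exp_add, Real.exp_log (by linarith), Real.rpow_def_of_pos (by linarith)]
  congr 1; ring

lemma ft_hasDerivAt (hz : ∀ n, |z n| ≤ 1) (v0 v1 : ℝ) :
    ∃ s : Set ℝ, s.Countable ∧ ∀ v, v ∉ s → ContinuousAt (ft z v0 v1) v := by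
  refine ⟨(fun v => exp (exp v)) ⁻¹' (Set.range (fun n : ℕ => (n : ℝ))) ∪ {v0, v1}, ?_, ?_⟩
  · refine Set.Countable.union ?_ (by simp)
    apply Set.Countable.preimage_of_injOn (Set.countable_range _)
    intro x _ y _ hxy
    exact Real.exp_injective (Real.exp_injective hxy)
  · intro v hv
    rw [Set.mem_union, not_or] at hv
    obtain ⟨h1, h2⟩ := hv
    simp only [Set.mem_insert_iff, Set.mem_singleton_iff, not_or] at h2
    have hZ : ContinuousAt (ZZ z) v := by
      unfold ZZ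
      have hc : ContinuousAt (zf z) (exp (exp v)) := zf_continuousAt h1 (exp_pos _).le
      exact ContinuousAt.comp (f := fun v => exp (exp v)) hc
        (Real.continuous_exp.comp Real.continuous_exp).continuousAt
    rcases lt_trichotomy v v0 with h | h | h
    · have : ∀ᶠ y in 𝓝 v, ft z v0 v1 y = 0 := by
        filter_upwards [Iio_mem_nhds h] with y hy
        exact ft_supp v0 v1 y (fun hh => absurd hh.1 (not_le.2 hy))
      exact ContinuousAt.congr continuousAt_const (this.mono fun y hy => hy.symm)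
    · exact absurd h h2.1
    · rcases lt_trichotomy v v1 with h' | h' | h'
      · have : ∀ᶠ y in 𝓝 v, ft z v0 v1 y = ZZ z y := by
          filter_upwards [Ioo_mem_nhds h h'] with y hy
          exact ft_eq ⟨hy.1.le, hy.2.le⟩
        exact hZ.congr (this.mono fun y hy => hy.symm)
      · exact absurd h' h2.2
      · have : ∀ᶠ y in 𝓝 v, ft z v0 v1 y = 0 := by
          filter_upwards [Ioi_mem_nhds h'] with y hy
          exact ft_supp v0 v1 y (fun hh => absurd hh.2 (not_le.2 hy))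
        exact ContinuousAt.congr continuousAt_const (this.mono fun y hy => hy.symm)

/-- The low frequency part. -/
theorem pointwise (hz : ∀ n, |z n| ≤ 1) {b : ℕ} (hb : 1 ≤ b) {u : ℝ} (hu0 : 0 ≤ u)
    (hu1 : u ≤ log b) :
    ∀ᶠ M : ℕ in atTop, |TM z b M u - RM z b M u
      - (∫ x in ((M ^ De (b + 1) : ℕ) : ℝ)..(2 * ((M ^ De (b + 1) : ℕ) : ℝ)), zf z (x ^ exp u))
        / ((M ^ De (b + 1) : ℕ) : ℝ)| ≤ 6 / (M : ℝ) := by
  set Q := b + 1 with hQ
  filter_upwards [eventually_log (De Q), eventually_ge_atTop 3] with M hlog hM3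
  have hM1 : 1 ≤ M := by omega
  have hμ3 : (3 : ℝ) ≤ M := by exact_mod_cast hM3
  have hμ : (1 : ℝ) ≤ M := by linarith
  set N : ℕ := M ^ De Q with hN
  have hNr : ((N : ℕ) : ℝ) = (M : ℝ) ^ De Q := by rw [hN]; push_cast; rfl
  have hMN : (M : ℝ) ≤ (N : ℝ) := by
    rw [hNr]
    exact le_self_pow₀ hμ (by unfold De; omega)
  have hN3 : (3 : ℝ) ≤ N := hμ3.trans hMN
  have hN0 : (0 : ℝ) < N := by linarith
  set v0 : ℝ := ll (N : ℝ) - 1 with hv0
  set v1 : ℝ := log b + ll (2 * (N : ℝ)) with hv1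
  have hf : fM z b M = ft z v0 v1 := rfl
  have hBf : Bdd (ft z v0 v1) := ft_bdd hz v0 v1
  set s0 : ℝ := sc Q M 0 with hs0
  have hs0pos : 0 < s0 := sc_pos hM1 0
  have hs0e : s0 = (M : ℝ) ^ rh Q / N := by
    rw [hs0]; unfold sc th; rw [hNr]; simp
  have hmem : ∀ x : ℝ, (N : ℝ) ≤ x → x ≤ 2 * N → u + ll x ∈ Set.Icc v0 v1 := by
    intro x h1 h2
    constructor
    · have := ll_mono hN3 h1
      linarith
    · have := ll_mono (by linarith : (3 : ℝ) ≤ x) h2
      linarith
  have hll : Good DD 3 0 1 0 ll DD := good_zero famB_ll.toFam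
  -- step 1: TM - RM
  have hstep1 : TM z b M u - RM z b M u
      = (∑ i ∈ range N, sm (ft z v0 v1) s0 (u + ll ((N + i : ℕ) : ℝ))) / N := by
    unfold TM RM
    rw [← sub_div, ← Finset.sum_sub_distrib]
    congr 1
    refine Finset.sum_congr rfl fun i hi => ?_
    rw [hf]
    have hi' : (i : ℝ) ≤ N := by exact_mod_cast (mem_range.1 hi).le
    rw [ft_eq (hmem ((N + i : ℕ) : ℝ) (by push_cast; linarith [Nat.cast_nonneg (α := ℝ) i])
      (by push_cast; linarith))]
    ring
  -- step 2: sum versus integral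
  have hDDN : DD 0 (N : ℝ) ≤ 1 / N := by
    have h1 := log_ge_one hN3
    have e : DD 0 (N : ℝ) = 1 / ((N : ℝ) * log N) := by
      simp [DD, pp]; field_simp
    rw [e]
    apply one_div_le_one_div_of_le hN0
    nlinarith
  have hgc : ContinuousOn ll (Set.Ici (N : ℝ)) := fun x hx =>
    (hll.1 x (hN3.trans hx)).continuousAt.continuousWithinAt
  have hstep2 : |∑ i ∈ range N, sm (ft z v0 v1) s0 (u + ll ((N + i : ℕ) : ℝ))
      - ∫ x in (N : ℝ)..((N + N : ℕ) : ℝ), sm (ft z v0 v1) s0 (u + ll x)|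
      ≤ N * (2 / s0 * (1 / N)) := by
    apply abs_sum_sub_integral_le (F := fun x => sm (ft z v0 v1) s0 (u + ll x))
    · intro a c hAa hAc
      apply ContinuousOn.intervalIntegrable
      have hFc : ContinuousOn (fun x => sm (ft z v0 v1) s0 (u + ll x)) (Set.Ici (N : ℝ)) :=
        (hBf.sm_cont s0).comp_continuousOn (continuousOn_const.add hgc)
      apply hFc.mono
      intro x hx
      rcases le_total a c with hab | hab
      · rw [Set.uIcc_of_le hab] at hx; exact hAa.trans hx.1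
      · rw [Set.uIcc_of_ge hab] at hx; exact hAc.trans hx.1
    · intro i _ x hx
      have hi : (N : ℝ) ≤ ((N + i : ℕ) : ℝ) := by
        push_cast; linarith [Nat.cast_nonneg (α := ℝ) i]
      refine (hBf.sm_lip hs0pos _ _).trans ?_
      have e : u + ll ((N + i : ℕ) : ℝ) - (u + ll x) = ll ((N + i : ℕ) : ℝ) - ll x := by ring
      rw [e]
      have h4 := good_lip famB_ll.toFam one_pos le_rfl hll hN3 (hi.trans hx.1) hi
      have h5 : |((N + i : ℕ) : ℝ) - x| ≤ 1 := by
        rw [abs_le]; constructor <;> linarith [hx.1, hx.2]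
      have hDn : 0 ≤ DD 0 (N : ℝ) := (famB_ll.pos 0 _ hN3).le
      have h6 : 1 * DD 0 (N : ℝ) * |((N + i : ℕ) : ℝ) - x| ≤ 1 / N := by
        calc 1 * DD 0 (N : ℝ) * |((N + i : ℕ) : ℝ) - x| ≤ 1 * DD 0 (N : ℝ) * 1 := by gcongr
          _ = DD 0 (N : ℝ) := by ring
          _ ≤ 1 / N := hDDN
      have h7 := h4.trans h6
      gcongr
  -- step 3: smoothing of the integral
  obtain ⟨S, hSc, hS⟩ := ft_hasDerivAt hz v0 v1
  have hNN : ((N + N : ℕ) : ℝ) = 2 * N := by push_cast; ring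
  rw [hNN] at hstep2
  have hle2 : (N : ℝ) ≤ 2 * N := by linarith
  have hfm : AEStronglyMeasurable (fun x => ft z v0 v1 (u + ll x))
      (volume.restrict (Set.Icc (N : ℝ) (2 * N))) := by
    have h1 : AEMeasurable (fun x => u + ll x) (volume.restrict (Set.Icc (N : ℝ) (2 * N))) :=
      (continuousOn_const.add (hgc.mono Set.Icc_subset_Ici_self)).aemeasurable measurableSet_Icc
    exact (hBf.meas.comp_aemeasurable h1).aestronglyMeasurable
  have hint1 : IntervalIntegrable (fun x => ft z v0 v1 (u + ll x)) volume (N : ℝ) (2 * N) := by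
    rw [intervalIntegrable_iff_integrableOn_Icc_of_le hle2]
    exact IntegrableOn.of_bound (by simp) hfm 1 (Eventually.of_forall fun x => hBf.bound _)
  have hint2 : IntervalIntegrable (fun x => sm (ft z v0 v1) s0 (u + ll x)) volume (N : ℝ) (2 * N) := by
    apply ContinuousOn.intervalIntegrable
    rw [Set.uIcc_of_le hle2]
    exact (hBf.sm_cont s0).comp_continuousOn
      (continuousOn_const.add (hgc.mono Set.Icc_subset_Ici_self))
  have hstep3 : |∫ x in (N : ℝ)..(2 * N), (sm (ft z v0 v1) s0 (u + ll x) - ft z v0 v1 (u + ll x))|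
      ≤ 2 * s0 / DD 0 (2 * N) := by
    apply abs_integral_comp_le (Ψ := fun v => psm (ft z v0 v1) s0 v - prim (ft z v0 v1) v)
      (ψ := fun v => sm (ft z v0 v1) s0 v - ft z v0 v1 v) (g := fun x => u + ll x)
      (E0 := DD 0) (E1 := DD 1) (ε := 1) (s := S) (C := 2) hle2 hSc
    · exact (hBf.psm_cont s0).sub hBf.prim_cont
    · intro v hv
      exact (hBf.hasDerivAt_psm s0 v).sub (hBf.hasDerivAt_prim (hS v hv))
    · intro v
      exact hBf.psm_sub hs0pos v
    · exact (hBf.sm_cont s0).measurable.sub hBf.meas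
    · intro v
      refine (abs_sub _ _).trans ?_
      linarith [hBf.sm_bound hs0pos v, hBf.bound v]
    · intro x hx
      have := (famB_ll.deriv0 x (hN3.trans hx.1)).const_add u
      simpa using this
    · left; rfl
    · intro x hx; exact famB_ll.deriv 0 x (hN3.trans hx.1)
    · intro x hx
      exact (famB_ll.deriv 1 x (hN3.trans hx.1)).continuousAt.continuousWithinAt
    · intro x hx; exact famB_ll.pos 0 x (hN3.trans hx.1)
    · intro x hx; exact (famB_ll.pos 1 x (hN3.trans hx.1)).le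
  rw [intervalIntegral.integral_sub hint2 hint1] at hstep3
  -- step 4: identification of the integral
  have hstep4 : ∫ x in (N : ℝ)..(2 * N), ft z v0 v1 (u + ll x)
      = ∫ x in (N : ℝ)..(2 * N), zf z (x ^ exp u) := by
    apply intervalIntegral.integral_congr
    intro x hx
    rw [Set.uIcc_of_le hle2] at hx
    simp only
    rw [ft_eq (hmem x hx.1 hx.2)]
    unfold ZZ
    rw [ll_exp (hN3.trans hx.1)]
  rw [hstep4] at hstep3
  -- numerical bounds
  have hnum1 : (2 : ℝ) / s0 * (1 / N) ≤ 2 / M := by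
    rw [hs0e]
    have : (M : ℝ) ≤ (M : ℝ) ^ rh Q := le_self_pow₀ hμ (rh_pos Q).ne'
    calc (2 : ℝ) / ((M : ℝ) ^ rh Q / N) * (1 / N) = 2 / (M : ℝ) ^ rh Q := by field_simp
      _ ≤ 2 / M := by gcongr
  have hnum2 : 2 * s0 / DD 0 (2 * (N : ℝ)) ≤ N * (4 / M) := by
    have hl : 0 < log (2 * (N : ℝ)) := Real.log_pos (by linarith)
    have e : DD 0 (2 * (N : ℝ)) = 1 / (2 * (N : ℝ) * log (2 * N)) := by
      simp [DD, pp]
      field_simp
    have hlog2 : log (2 * (N : ℝ)) ≤ M := by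
      refine le_trans (Real.log_le_log (by linarith) ?_) hlog
      rw [hNr]
      nlinarith [pow_pos (by linarith : (0 : ℝ) < M) (De Q)]
    have hpow : (M : ℝ) ^ rh Q * M * M ≤ N := by
      rw [hNr, ← pow_succ, ← pow_succ]
      apply pow_le_pow_right₀ hμ
      unfold De
      omega
    rw [e, hs0e]
    calc 2 * ((M : ℝ) ^ rh Q / N) / (1 / (2 * (N : ℝ) * log (2 * N)))
        = 4 * ((M : ℝ) ^ rh Q * log (2 * N)) := by field_simp; ring
      _ ≤ 4 * ((M : ℝ) ^ rh Q * M) := by gcongr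
      _ ≤ 4 * (N / M) := by
          gcongr
          rw [le_div_iff₀ (by linarith)]
          exact hpow
      _ = N * (4 / M) := by ring
  rw [hstep1, ← sub_div, abs_div, abs_of_pos hN0, div_le_iff₀ hN0]
  set Sm := ∑ i ∈ range N, sm (ft z v0 v1) s0 (u + ll ((N + i : ℕ) : ℝ))
  set I1 := ∫ x in (N : ℝ)..(2 * N), sm (ft z v0 v1) s0 (u + ll x)
  set I2 := ∫ x in (N : ℝ)..(2 * N), zf z (x ^ exp u)
  calc |Sm - I2| = |(Sm - I1) + (I1 - I2)| := by ring_nf
    _ ≤ |Sm - I1| + |I1 - I2| := abs_add_le _ _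
    _ ≤ N * (2 / s0 * (1 / N)) + 2 * s0 / DD 0 (2 * N) := add_le_add hstep2 hstep3
    _ ≤ N * (2 / M) + N * (4 / M) := by gcongr
    _ = 6 / M * N := by ring

end Marg
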