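import Pool.Agent.Marg.Step

/-!
# Assembly of the `L²` bound
-/

open Finset Real MeasureTheory Filter Topology
open scoped InnerProductSpace

namespace Marg

variable {z : ℕ → ℝ}

lemma Cpt.integrable_sq_sum {ψ : ℝ → ℝ} {c d C : ℝ} (h : Cpt ψ c d C) {ι : Type*} (S : Finset ι)
    (t : ι → ℝ) : Integrable (fun u => (∑ i ∈ S, ψ (u + t i)) ^ 2) := by
  have e : (fun u => (∑ i ∈ S, ψ (u + t i)) ^ 2)
      = fun u => ∑ i ∈ S, ∑ j ∈ S, ψ (u + t i) * ψ (u + t j) := by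
    ext u
    rw [sq, Finset.sum_mul_sum]
  rw [e]
  exact integrable_finsetSum _ fun i _ => integrable_finsetSum _ fun j _ => h.integrable_mul _ _

/-- the truncated function at stage `M` -/
noncomputable def fM (z : ℕ → ℝ) (b M : ℕ) : ℝ → ℝ :=
  ft z (ll ((M ^ De (b + 1) : ℕ) : ℝ) - 1) (log b + ll (2 * ((M ^ De (b + 1) : ℕ) : ℝ)))

/-- high frequency part of the average -/
noncomputable def RM (z : ℕ → ℝ) (b M : ℕ) (u : ℝ) : ℝ :=
  (∑ i ∈ range (M ^ De (b + 1)),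
    (fM z b M (u + ll ((M ^ De (b + 1) + i : ℕ) : ℝ))
      - sm (fM z b M) (sc (b + 1) M 0) (u + ll ((M ^ De (b + 1) + i : ℕ) : ℝ))))
    / ((M ^ De (b + 1) : ℕ) : ℝ)

lemma ll_two_mul {N : ℝ} (hN : 3 ≤ N) : ll (2 * N) - ll N ≤ 1 := by
  have h1 := log_ge_one hN
  have h2 : 0 < log N := by linarith
  unfold ll
  have h3 : log (2 * N) ≤ 2 * log N := by
    rw [Real.log_mul (by norm_num) (by linarith)]
    have : log 2 ≤ log N := Real.log_le_log (by norm_num) (by linarith)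
    linarith
  have h4 : log (log (2 * N)) ≤ log (2 * log N) :=
    Real.log_le_log (by
      have : log N ≤ log (2 * N) := Real.log_le_log (by linarith) (by linarith)
      linarith) h3
  rw [Real.log_mul (by norm_num) h2.ne'] at h4
  have h5 : log 2 ≤ 1 := by linarith [Real.log_two_lt_d9]
  linarith

lemma ll_mono {x y : ℝ} (hx : 3 ≤ x) (hxy : x ≤ y) : ll x ≤ ll y := by
  have h1 := log_ge_one hx
  unfold ll
  exact Real.log_le_log (by linarith) (Real.log_le_log (by linarith) hxy)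

theorem l2_bound (b : ℕ) (hb : 1 ≤ b) :
    ∃ K : ℝ, 0 ≤ K ∧ ∀ᶠ M : ℕ in atTop, ∀ z : ℕ → ℝ, (∀ n, |z n| ≤ 1) →
      Integrable (fun u => RM z b M u ^ 2) ∧ ∫ u, RM z b M u ^ 2 ≤ K / (M : ℝ) ^ 2 := by
  set Q := b + 1 with hQ
  set LL : ℝ := log b + 2 with hLL
  obtain ⟨K, hK0, hK⟩ := band_bound famB_ll Q LL
  refine ⟨(Q + 1) * (4 * (4 * 2 ^ b) + Q * K ^ 2), by positivity, ?_⟩
  filter_upwards [hK, eventually_ge_atTop 3] with M hKM hM3 z hz
  have hM1 : 1 ≤ M := by omega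
  have hμ3 : (3 : ℝ) ≤ M := by exact_mod_cast hM3
  have hμ : (1 : ℝ) ≤ M := by linarith
  set N : ℕ := M ^ De Q with hN
  have hNr : ((N : ℕ) : ℝ) = (M : ℝ) ^ De Q := by rw [hN]; push_cast; rfl
  have hMN : (M : ℝ) ≤ (N : ℝ) := by
    rw [hNr]
    exact le_self_pow₀ hμ (by unfold De; omega)
  have hN3 : (3 : ℝ) ≤ N := hμ3.trans hMN
  set v0 : ℝ := ll (N : ℝ) - 1 with hv0
  set v1 : ℝ := log b + ll (2 * (N : ℝ)) with hv1
  have hf : fM z b M = ft z v0 v1 := rfl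
  have hlogb : 0 ≤ log (b : ℝ) := Real.log_nonneg (by exact_mod_cast hb)
  have hll1 : ll (N : ℝ) ≤ ll (2 * (N : ℝ)) := ll_mono hN3 (by linarith)
  have hv01 : v0 ≤ v1 := by linarith
  have hvLL : v1 - v0 ≤ LL := by
    have := ll_two_mul hN3
    linarith
  have hBf : Bdd (ft z v0 v1) := ft_bdd hz v0 v1
  set t : ℕ → ℝ := fun i => ll ((N + i : ℕ) : ℝ) with ht
  have hcptB : ∀ q, Cpt (band (ft z v0 v1) (sc Q M (q + 1)) (sc Q M q)) v0 (v1 + sc Q M q) 2 :=
    fun q => hBf.band_cpt (sc_pos hM1 _) (sc_succ_le hM1 q) (ft_supp v0 v1)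
  have hcptR := rem0_cpt hz (v0 := v0) (v1 := v1) (sc_pos hM1 Q (Q := Q))
  -- sums
  set A : ℝ → ℝ := fun u => ∑ i ∈ range N, rem0 z v0 v1 (sc Q M Q) (u + t i) with hA
  set B : ℕ → ℝ → ℝ := fun q u => ∑ i ∈ range N,
    band (ft z v0 v1) (sc Q M (q + 1)) (sc Q M q) (u + t i) with hB
  have hdecomp : ∀ u, RM z b M u = (A u + ∑ q ∈ range Q, B q u) / N := by
    intro u
    unfold RM
    rw [hf]
    congr 1
    simp only [hA, hB]
    rw [Finset.sum_comm, ← Finset.sum_add_distrib]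
    refine Finset.sum_congr rfl fun i _ => ?_
    unfold rem0 band
    rw [Finset.sum_range_sub (fun q => sm (ft z v0 v1) (sc Q M q) (u + t i))]
    ring
  have hN0 : (0 : ℝ) < N := by linarith
  -- L2 bounds
  have hAint : Integrable (fun u => A u ^ 2) := hcptR.integrable_sq_sum (range N) t
  have hBint : ∀ q, Integrable (fun u => B q u ^ 2) := fun q =>
    (hcptB q).integrable_sq_sum (range N) t
  have hA2 : ∫ u, A u ^ 2 ≤ (N : ℝ) ^ 2 * (4 * (4 * 2 ^ b) / (M : ℝ) ^ 2) := by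
    have h1 := hcptR.norm_sum_sq (range N) t
    have hφ : ∀ i ∈ range N, ‖hcptR.φ (t i)‖ ≤ ‖hcptR.φ 0‖ := by
      intro i _
      have h2 : ‖hcptR.φ (t i)‖ ^ 2 = ‖hcptR.φ 0‖ ^ 2 := by
        rw [← real_inner_self_eq_norm_sq, ← real_inner_self_eq_norm_sq, hcptR.inner_shift (t i) (t i),
          sub_self]
      exact (abs_le_of_sq_le_sq' h2.le (norm_nonneg _)).2
    have h3 := norm_sum_le_card (range N) (fun i => hcptR.φ (t i)) hφ
    rw [card_range] at h3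
    have hKexp : exp (exp v1) ≤ (((2 * N) ^ b : ℕ) : ℝ) := by
      have hl : 0 < log (2 * (N : ℝ)) := Real.log_pos (by linarith)
      have : exp v1 = b * log (2 * (N : ℝ)) := by
        rw [hv1, Real.exp_add, Real.exp_log (by exact_mod_cast hb)]
        unfold ll
        rw [Real.exp_log hl]
      rw [this, Real.exp_nat_mul, Real.exp_log (by linarith)]
      push_cast
      exact le_rfl
    have h4 := rem0_norm hz (v0 := v0) (v1 := v1) (sc_pos hM1 Q (Q := Q)) hKexp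
    have h5 : ((((2 * N) ^ b : ℕ) : ℝ) + 3) * sc Q M Q ≤ (4 * 2 ^ b) / (M : ℝ) ^ 2 := by
      have h6 : ((((2 * N) ^ b : ℕ) : ℝ) + 3) ≤ 4 * 2 ^ b * (N : ℝ) ^ b := by
        push_cast
        rw [mul_pow]
        have : (1 : ℝ) ≤ 2 ^ b * (N : ℝ) ^ b := by
          rw [← mul_pow]; exact one_le_pow₀ (by linarith)
        nlinarith
      have h7 : sc Q M Q = (M : ℝ) ^ th Q Q / (N : ℝ) ^ (b + 2) := by
        unfold sc; rw [hNr]
      rw [h7]
      calc ((((2 * N) ^ b : ℕ) : ℝ) + 3) * ((M : ℝ) ^ th Q Q / (N : ℝ) ^ (b + 2))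
          ≤ 4 * 2 ^ b * (N : ℝ) ^ b * ((M : ℝ) ^ th Q Q / (N : ℝ) ^ (b + 2)) := by gcongr
        _ = 4 * 2 ^ b * ((M : ℝ) ^ th Q Q / (N : ℝ) ^ 2) := by
            rw [pow_add]; field_simp
        _ ≤ 4 * 2 ^ b * (1 / (M : ℝ) ^ 2) := by
            gcongr 4 * 2 ^ b * ?_
            rw [div_le_div_iff₀ (by positivity) (by positivity), one_mul, hNr, ← pow_add, ← pow_mul]
            apply pow_le_pow_right₀ hμ
            unfold De
            omega
        _ = 4 * 2 ^ b / (M : ℝ) ^ 2 := by ring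
    calc ∫ u, A u ^ 2 = ‖∑ i ∈ range N, hcptR.φ (t i)‖ ^ 2 := h1.symm
      _ ≤ ((N : ℝ) * ‖hcptR.φ 0‖) ^ 2 := by gcongr
      _ = (N : ℝ) ^ 2 * ‖hcptR.φ 0‖ ^ 2 := by ring
      _ ≤ (N : ℝ) ^ 2 * (4 * (((((2 * N) ^ b : ℕ) : ℝ) + 3) * sc Q M Q)) := by gcongr
      _ ≤ (N : ℝ) ^ 2 * (4 * ((4 * 2 ^ b) / (M : ℝ) ^ 2)) := by gcongr
      _ = (N : ℝ) ^ 2 * (4 * (4 * 2 ^ b) / (M : ℝ) ^ 2) := by ring
  have hB2 : ∀ q ∈ range Q, ∫ u, B q u ^ 2 ≤ (N : ℝ) ^ 2 * (K ^ 2 / (M : ℝ) ^ 2) := by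
    intro q hq
    have h1 := (hcptB q).norm_sum_sq (range N) t
    have h2 := hKM (ft z v0 v1) hBf v0 v1 hv01 hvLL (ft_supp v0 v1) q
      (by have := mem_range.1 hq; omega) (hcptB q)
    calc ∫ u, B q u ^ 2 = ‖∑ i ∈ range N, (hcptB q).φ (t i)‖ ^ 2 := h1.symm
      _ ≤ (K * (N : ℝ) / M) ^ 2 := by gcongr
      _ = (N : ℝ) ^ 2 * (K ^ 2 / (M : ℝ) ^ 2) := by ring
  -- pointwise inequality
  have hpt : ∀ u, RM z b M u ^ 2 ≤ ((Q + 1) / (N : ℝ) ^ 2) * (A u ^ 2 + ∑ q ∈ range Q, B q u ^ 2) := by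
    intro u
    rw [hdecomp u, div_pow, div_mul_eq_mul_div]
    gcongr
    have h1 := sq_sum_le_card_mul_sum_sq (s := range (Q + 1))
      (f := fun q => if q = Q then A u else B q u)
    rw [Finset.sum_range_succ (fun q => if q = Q then A u else B q u) Q,
      Finset.sum_range_succ (fun q => (if q = Q then A u else B q u) ^ 2) Q, card_range] at h1
    simp only [if_true] at h1
    have e1 : ∑ q ∈ range Q, (if q = Q then A u else B q u) = ∑ q ∈ range Q, B q u := by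
      refine Finset.sum_congr rfl fun q hq => ?_
      rw [if_neg (by have := mem_range.1 hq; omega)]
    have e2 : ∑ q ∈ range Q, (if q = Q then A u else B q u) ^ 2 = ∑ q ∈ range Q, B q u ^ 2 := by
      refine Finset.sum_congr rfl fun q hq => ?_
      rw [if_neg (by have := mem_range.1 hq; omega)]
    rw [e1, e2] at h1
    push_cast at h1
    calc (A u + ∑ q ∈ range Q, B q u) ^ 2 = (∑ q ∈ range Q, B q u + A u) ^ 2 := by ring
      _ ≤ (Q + 1) * (∑ q ∈ range Q, B q u ^ 2 + A u ^ 2) := h1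
      _ = (Q + 1) * (A u ^ 2 + ∑ q ∈ range Q, B q u ^ 2) := by ring
  have hRint : Integrable (fun u => ((Q + 1) / (N : ℝ) ^ 2) * (A u ^ 2 + ∑ q ∈ range Q, B q u ^ 2)) := by
    apply Integrable.const_mul
    exact hAint.add (integrable_finsetSum _ fun q _ => hBint q)
  have hRmeas : Measurable (RM z b M) := by
    have e : RM z b M = fun u => (A u + ∑ q ∈ range Q, B q u) / N := funext hdecomp
    rw [e]
    apply Measurable.div_const
    apply Measurable.add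
    · exact Finset.measurable_sum _ fun i _ => hcptR.meas.comp (measurable_id.add_const _)
    · exact Finset.measurable_sum _ fun q _ => Finset.measurable_sum _ fun i _ =>
        (hcptB q).meas.comp (measurable_id.add_const _)
  refine ⟨?_, ?_⟩
  · apply hRint.mono' (hRmeas.pow_const 2).aestronglyMeasurable
    refine Eventually.of_forall fun u => ?_
    rw [Real.norm_eq_abs, abs_of_nonneg (sq_nonneg _)]
    exact hpt u
  · calc ∫ u, RM z b M u ^ 2
        ≤ ∫ u, ((Q + 1) / (N : ℝ) ^ 2) * (A u ^ 2 + ∑ q ∈ range Q, B q u ^ 2) := by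
          apply integral_mono_of_nonneg (Eventually.of_forall fun u => sq_nonneg _) hRint
          exact Eventually.of_forall hpt
      _ = ((Q + 1) / (N : ℝ) ^ 2) * ((∫ u, A u ^ 2) + ∑ q ∈ range Q, ∫ u, B q u ^ 2) := by
          rw [integral_const_mul, integral_add hAint (integrable_finsetSum _ fun q _ => hBint q),
            integral_finsetSum _ fun q _ => hBint q]
      _ ≤ ((Q + 1) / (N : ℝ) ^ 2) * ((N : ℝ) ^ 2 * (4 * (4 * 2 ^ b) / (M : ℝ) ^ 2)
            + ∑ _q ∈ range Q, (N : ℝ) ^ 2 * (K ^ 2 / (M : ℝ) ^ 2)) := by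
          have := Finset.sum_le_sum hB2
          gcongr
      _ = (Q + 1) * (4 * (4 * 2 ^ b) + Q * K ^ 2) / (M : ℝ) ^ 2 := by
          rw [Finset.sum_const, card_range, nsmul_eq_mul]
          field_simp

end Marg
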