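import Pool.Agent.Marg.L2

/-!
# The final estimate for a frequency band
-/

open Finset Real MeasureTheory
open scoped InnerProductSpace

namespace Marg

variable {f : ℝ → ℝ}

/-- frequency band between the scales `s' ≤ s` -/
noncomputable def band (f : ℝ → ℝ) (s' s v : ℝ) : ℝ := sm f s' v - sm f s v

lemma Bdd.band_cont (hf : Bdd f) (s' s : ℝ) : Continuous (band f s' s) :=
  (hf.sm_cont s').sub (hf.sm_cont s)

lemma Bdd.band_lip (hf : Bdd f) {s' s : ℝ} (hs' : 0 < s') (hs : s' ≤ s) (x y : ℝ) :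
    |band f s' s x - band f s' s y| ≤ 4 / s' * |x - y| := by
  unfold band
  have e : sm f s' x - sm f s x - (sm f s' y - sm f s y)
      = (sm f s' x - sm f s' y) - (sm f s x - sm f s y) := by ring
  rw [e]
  refine (abs_sub _ _).trans ?_
  have h1 := hf.sm_lip hs' x y
  have h2 := hf.sm_lip (hs'.trans_le hs) x y
  have h3 : 2 / s * |x - y| ≤ 2 / s' * |x - y| := by gcongr
  calc _ ≤ 2 / s' * |x - y| + 2 / s * |x - y| := add_le_add h1 h2
    _ ≤ 2 / s' * |x - y| + 2 / s' * |x - y| := by linarith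
    _ = 4 / s' * |x - y| := by ring

lemma Bdd.band_cpt (hf : Bdd f) {s' s v0 v1 : ℝ} (hs' : 0 < s') (hs : s' ≤ s)
    (hsupp : ∀ v, v ∉ Set.Icc v0 v1 → f v = 0) : Cpt (band f s' s) v0 (v1 + s) 2 := by
  refine ⟨(hf.band_cont s' s).measurable, ?_, ?_⟩
  · intro v
    unfold band
    refine (abs_sub _ _).trans ?_
    linarith [hf.sm_bound hs' v, hf.sm_bound (hs'.trans_le hs) v]
  · intro v hv
    have hv' : v < v0 ∨ v1 + s < v := by
      by_contra hcon
      push Not at hcon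
      exact hv ⟨hcon.1, hcon.2⟩
    have hz : ∀ r, 0 < r → r ≤ s → ∀ t ∈ Set.Icc (v - r) v, f t = 0 := by
      intro r hr hrs t ht
      apply hsupp
      intro hmem
      rcases hv' with h | h
      · linarith [ht.2, hmem.1]
      · linarith [ht.1, hmem.2]
    unfold band
    rw [hf.sm_zero hs' (hz s' hs' hs), hf.sm_zero (hs'.trans_le hs) (hz s (hs'.trans_le hs) le_rfl)]
    ring

/-- derivative bound gives Lipschitz bound on `[A, ∞)` -/
lemma good_lip {ℓ : ℝ → ℝ} {D : ℕ → ℝ → ℝ} {x0 : ℝ} (F : Fam ℓ D x0) {q : ℕ} {P σ : ℝ}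
    {g : ℝ → ℝ} {E : ℕ → ℝ → ℝ} (hP : 0 < P) (hσ : 0 ≤ σ) (hg : Good D x0 q P σ g E) {A : ℝ}
    (hA : x0 ≤ A) {x y : ℝ} (hx : A ≤ x) (hy : A ≤ y) :
    |g y - g x| ≤ P * D q A * |y - x| := by
  have hE0 : ∀ z, x0 ≤ z → 0 ≤ E 0 z := by
    intro z hz
    refine le_trans ?_ (hg.2.2 0 z hz).1
    have := (F.pos q (z + σ) (by linarith)).le
    simpa using mul_nonneg hP.le this
  have := Convex.norm_image_sub_le_of_norm_hasDerivWithin_le (f := g)
    (f' := fun z => (-1) ^ q * E 0 z) (s := Set.Ici A) (C := P * D q A) (x := x) (y := y)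
    (fun z hz => (hg.1 z (hA.trans hz)).hasDerivWithinAt) ?_ (convex_Ici A) hx hy
  · simpa using this
  · intro z hz
    have hz0 : x0 ≤ z := hA.trans hz
    rw [norm_mul, norm_pow, norm_neg, norm_one, one_pow, one_mul, Real.norm_eq_abs,
      abs_of_nonneg (hE0 z hz0)]
    refine (hg.2.2 0 z hz0).2.trans ?_
    have h1 : D (q + 0) z ≤ D (q + 0) A :=
      F.anti _ (Set.mem_Ici.2 hA) (Set.mem_Ici.2 hz0) hz
    have : P * D (q + 0) z ≤ P * D (q + 0) A := by gcongr
    simpa using this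

lemma band_final {ℓ : ℝ → ℝ} {D : ℕ → ℝ → ℝ} {x0 : ℝ} (F : Fam ℓ D x0) (hf : Bdd f)
    {s' s : ℝ} (hs' : 0 < s') (hs : s' ≤ s) {q : ℕ} {P σ : ℝ} {g : ℝ → ℝ} {E : ℕ → ℝ → ℝ}
    (hP : 0 < P) (hσ : 0 ≤ σ) (hg : Good D x0 q P σ g E) {A L : ℕ} (hA : x0 ≤ A) (u : ℝ) :
    |∑ i ∈ range L, band f s' s (u + g ((A + i : ℕ) : ℝ))|
      ≤ L * (4 / s' * (P * D q A)) + 4 * s / (P * D q (A + L + σ)) := by
  obtain ⟨h1, h2, h3⟩ := hg
  have hG := fun {x y : ℝ} (hx : (A : ℝ) ≤ x) (hy : (A : ℝ) ≤ y) =>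
    good_lip F hP hσ ⟨h1, h2, h3⟩ hA hx hy
  have hgc : ContinuousOn g (Set.Ici (A : ℝ)) :=
    fun x hx => (h1 x (hA.trans hx)).continuousAt.continuousWithinAt
  have hDA := (F.pos q A hA).le
  have hs0 : 0 < s := hs'.trans_le hs
  -- sum minus integral
  have hFc : ContinuousOn (fun x => band f s' s (u + g x)) (Set.Ici (A : ℝ)) :=
    (hf.band_cont s' s).comp_continuousOn (continuousOn_const.add hgc)
  have ha := abs_sum_sub_integral_le (F := fun x => band f s' s (u + g x)) (A := A) (L := L)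
    (c := 4 / s' * (P * D q A)) ?_ ?_
  rotate_left
  · intro a b hAa hAb
    apply ContinuousOn.intervalIntegrable
    apply hFc.mono
    intro x hx
    rcases le_total a b with hab | hab
    · rw [Set.uIcc_of_le hab] at hx; exact hAa.trans hx.1
    · rw [Set.uIcc_of_ge hab] at hx; exact hAb.trans hx.1
  · intro i _ x hx
    have hi : (A : ℝ) ≤ ((A + i : ℕ) : ℝ) := by
      push_cast; linarith [Nat.cast_nonneg (α := ℝ) i]
    refine (hf.band_lip hs' hs _ _).trans ?_
    have e : u + g ((A + i : ℕ) : ℝ) - (u + g x) = g ((A + i : ℕ) : ℝ) - g x := by ring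
    rw [e]
    have h4 := hG (hi.trans hx.1) hi
    have h5 : |((A + i : ℕ) : ℝ) - x| ≤ 1 := by
      rw [abs_le]; constructor <;> linarith [hx.1, hx.2]
    have h6 : P * D q A * |((A + i : ℕ) : ℝ) - x| ≤ P * D q A * 1 := by gcongr
    have h7 : |g ((A + i : ℕ) : ℝ) - g x| ≤ P * D q A := by linarith
    gcongr
  -- integral
  have hE0pos : ∀ x, x0 ≤ x → 0 < E 0 x := by
    intro x hx
    refine lt_of_lt_of_le ?_ (h3 0 x hx).1
    have := F.pos q (x + σ) (by linarith)
    simpa using mul_pos hP this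
  have hE1nn : ∀ x, x0 ≤ x → 0 ≤ E 1 x := by
    intro x hx
    refine le_trans ?_ (h3 1 x hx).1
    have := F.pos (q + 1) (x + σ) (by linarith)
    positivity
  have hb : |∫ x in (A : ℝ)..((A + L : ℕ) : ℝ), band f s' s (u + g x)|
      ≤ 2 * (2 * s) / E 0 ((A + L : ℕ) : ℝ) := by
    have hAL : (A : ℝ) ≤ ((A + L : ℕ) : ℝ) := by push_cast; linarith [Nat.cast_nonneg (α := ℝ) L]
    apply abs_integral_comp_le (Ψ := fun v => psm f s' v - psm f s v) (g := fun x => u + g x)
      (E0 := E 0) (E1 := E 1) (ε := (-1) ^ q) (s := ∅) (C := 2) hAL Set.countable_empty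
    · exact (hf.psm_cont s').sub (hf.psm_cont s)
    · intro v _
      exact (hf.hasDerivAt_psm s' v).sub (hf.hasDerivAt_psm s v)
    · intro v
      have e : psm f s' v - psm f s v = (psm f s' v - prim f v) - (psm f s v - prim f v) := by ring
      rw [e]
      refine (abs_sub _ _).trans ?_
      linarith [hf.psm_sub hs' v, hf.psm_sub hs0 v]
    · exact (hf.band_cont s' s).measurable
    · intro v
      unfold band
      refine (abs_sub _ _).trans ?_
      linarith [hf.sm_bound hs' v, hf.sm_bound hs0 v]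
    · intro x hx
      have := (h1 x (hA.trans hx.1)).const_add u
      exact this
    · rcases Nat.even_or_odd q with h | h
      · left; exact h.neg_one_pow
      · right; exact h.neg_one_pow
    · intro x hx; exact h2 0 x (hA.trans hx.1)
    · intro x hx; exact (h2 1 x (hA.trans hx.1)).continuousAt.continuousWithinAt
    · intro x hx; exact hE0pos x (hA.trans hx.1)
    · intro x hx; exact hE1nn x (hA.trans hx.1)
  have hc : 2 * (2 * s) / E 0 ((A + L : ℕ) : ℝ) ≤ 4 * s / (P * D q (A + L + σ)) := by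
    have hAL : x0 ≤ ((A + L : ℕ) : ℝ) := by push_cast; linarith [Nat.cast_nonneg (α := ℝ) L]
    have h8 := (h3 0 _ hAL).1
    have h9 := F.pos q ((A + L : ℕ) + σ) (by linarith)
    have e : ((A + L : ℕ) : ℝ) + σ = A + L + σ := by push_cast; ring
    simp only [add_zero] at h8
    rw [e] at h8 h9
    have : 2 * (2 * s) = 4 * s := by ring
    rw [this]
    gcongr
  have e := abs_sub_abs_le_abs_sub (∑ i ∈ range L, band f s' s (u + g ((A + i : ℕ) : ℝ)))
    (∫ x in (A : ℝ)..((A + L : ℕ) : ℝ), band f s' s (u + g x))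
  linarith

end Marg
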