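import Pool.Agent.Marg.Family

/-!
# Sum versus integral, and integration by parts with a bounded primitive
-/

open Finset Real MeasureTheory

namespace Marg

lemma abs_sum_sub_integral_le {F : ℝ → ℝ} {A L : ℕ} {c : ℝ}
    (hint : ∀ a b : ℝ, (A : ℝ) ≤ a → (A : ℝ) ≤ b → IntervalIntegrable F volume a b)
    (hF : ∀ i < L, ∀ x ∈ Set.Icc ((A + i : ℕ) : ℝ) ((A + i : ℕ) + 1 : ℝ),
      |F ((A + i : ℕ) : ℝ) - F x| ≤ c) :
    |∑ i ∈ range L, F ((A + i : ℕ) : ℝ) - ∫ x in (A : ℝ)..((A + L : ℕ) : ℝ), F x| ≤ L * c := by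
  have h1 : ∫ x in (A : ℝ)..((A + L : ℕ) : ℝ), F x
      = ∑ i ∈ range L, ∫ x in ((A + i : ℕ) : ℝ)..((A + (i + 1) : ℕ) : ℝ), F x := by
    rw [intervalIntegral.sum_integral_adjacent_intervals (a := fun i => ((A + i : ℕ) : ℝ))]
    · simp
    · intro k _
      exact hint _ _ (by push_cast; linarith [Nat.cast_nonneg (α := ℝ) k])
        (by push_cast; linarith [Nat.cast_nonneg (α := ℝ) k])
  rw [h1, ← Finset.sum_sub_distrib]
  refine (Finset.abs_sum_le_sum_abs _ _).trans ?_
  have h2 : ∀ i ∈ range L, |F ((A + i : ℕ) : ℝ)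
      - ∫ x in ((A + i : ℕ) : ℝ)..((A + (i + 1) : ℕ) : ℝ), F x| ≤ c := by
    intro i hi
    have e : ((A + (i + 1) : ℕ) : ℝ) = ((A + i : ℕ) : ℝ) + 1 := by push_cast; ring
    have hi1 : (A : ℝ) ≤ ((A + i : ℕ) : ℝ) := by push_cast; linarith [Nat.cast_nonneg (α := ℝ) i]
    rw [e]
    have h3 : F ((A + i : ℕ) : ℝ) = ∫ _x in ((A + i : ℕ) : ℝ)..((A + i : ℕ) : ℝ) + 1,
        F ((A + i : ℕ) : ℝ) := by
      simp
    have h4 : F ((A + i : ℕ) : ℝ) - ∫ x in ((A + i : ℕ) : ℝ)..((A + i : ℕ) : ℝ) + 1, F x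
        = ∫ x in ((A + i : ℕ) : ℝ)..((A + i : ℕ) : ℝ) + 1, (F ((A + i : ℕ) : ℝ) - F x) := by
      rw [intervalIntegral.integral_sub (intervalIntegrable_const)
        (hint _ _ hi1 (by linarith)), ← h3]
    rw [h4, ← Real.norm_eq_abs]
    refine (intervalIntegral.norm_integral_le_of_norm_le_const (C := c) ?_).trans ?_
    · intro x hx
      rw [Set.uIoc_of_le (by linarith)] at hx
      rw [Real.norm_eq_abs]
      exact hF i (mem_range.1 hi) x ⟨hx.1.le, hx.2⟩
    · simp
  refine (Finset.sum_le_sum h2).trans ?_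
  simp

/-- Integral of `ψ ∘ g` with a bounded primitive `Ψ` of `ψ` and `|g'|` positive and decreasing. -/
lemma abs_integral_comp_le {Ψ ψ g E0 E1 : ℝ → ℝ} {a b B ε : ℝ} (hab : a ≤ b) {s : Set ℝ}
    (hs : s.Countable) (hΨc : Continuous Ψ) (hΨ : ∀ v, v ∉ s → HasDerivAt Ψ (ψ v) v)
    (hΨB : ∀ v, |Ψ v| ≤ B) (hψm : Measurable ψ) {C : ℝ} (hψC : ∀ v, |ψ v| ≤ C)
    (hg : ∀ x ∈ Set.Icc a b, HasDerivAt g (ε * E0 x) x) (hε : ε = 1 ∨ ε = -1)
    (hE : ∀ x ∈ Set.Icc a b, HasDerivAt E0 (-(E1 x)) x) (hE1c : ContinuousOn E1 (Set.Icc a b))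
    (hE0 : ∀ x ∈ Set.Icc a b, 0 < E0 x) (hE1 : ∀ x ∈ Set.Icc a b, 0 ≤ E1 x) :
    |∫ x in a..b, ψ (g x)| ≤ 2 * B / E0 b := by
  have hB : 0 ≤ B := (abs_nonneg _).trans (hΨB 0)
  have hε2 : ε * ε = 1 := by rcases hε with h | h <;> rw [h] <;> norm_num
  have hεabs : |ε| = 1 := by rcases hε with h | h <;> rw [h] <;> norm_num
  have hgc : ContinuousOn g (Set.Icc a b) := fun x hx => (hg x hx).continuousAt.continuousWithinAt
  have hE0c : ContinuousOn E0 (Set.Icc a b) :=
    fun x hx => (hE x hx).continuousAt.continuousWithinAt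
  -- injectivity of g
  have hinj : Set.InjOn g (Set.Icc a b) := by
    have hmono : StrictMonoOn (fun x => ε * g x) (Set.Icc a b) := by
      apply strictMonoOn_of_deriv_pos (convex_Icc a b)
      · exact (continuousOn_const.mul hgc)
      · intro x hx
        have hx' := interior_subset hx
        have : HasDerivAt (fun x => ε * g x) (ε * (ε * E0 x)) x := (hg x hx').const_mul ε
        rw [this.deriv, ← mul_assoc, hε2, one_mul]
        exact hE0 x hx'
    intro x hx y hy hxy
    exact hmono.injOn hx hy (by simp [hxy])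
  have hcount : (g ⁻¹' s ∩ Set.Icc a b).Countable := by
    have := Set.MapsTo.countable_of_injOn (s := g ⁻¹' s ∩ Set.Icc a b) (t := s) (f := g)
      (fun x hx => hx.1) (hinj.mono Set.inter_subset_right) hs
    exact this
  set w : ℝ → ℝ := fun x => ε / E0 x with hw
  set w' : ℝ → ℝ := fun x => ε * E1 x / E0 x ^ 2 with hw'
  have hwd : ∀ x ∈ Set.Icc a b, HasDerivAt w (w' x) x := by
    intro x hx
    have h1 := (hasDerivAt_const x ε).div (hE x hx) (hE0 x hx).ne'
    refine h1.congr_deriv ?_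
    simp [hw']
  have hww : ContinuousOn w (Set.Icc a b) :=
    fun x hx => (hwd x hx).continuousAt.continuousWithinAt
  have hw'c : ContinuousOn w' (Set.Icc a b) := by
    apply ContinuousOn.div (continuousOn_const.mul hE1c) (hE0c.pow 2)
    intro x hx
    exact pow_ne_zero 2 (hE0 x hx).ne'
  have hgm : AEStronglyMeasurable (fun x => ψ (g x)) (volume.restrict (Set.Icc a b)) := by
    have h1 : AEMeasurable g (volume.restrict (Set.Icc a b)) :=
      hgc.aemeasurable measurableSet_Icc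
    exact (hψm.comp_aemeasurable h1).aestronglyMeasurable
  have hint1 : IntervalIntegrable (fun x => ψ (g x)) volume a b := by
    rw [intervalIntegrable_iff_integrableOn_Icc_of_le hab]
    refine IntegrableOn.of_bound (by simp) hgm C ?_
    exact Filter.Eventually.of_forall fun x => hψC _
  have hint2 : IntervalIntegrable (fun x => Ψ (g x) * w' x) volume a b := by
    apply ContinuousOn.intervalIntegrable
    rw [Set.uIcc_of_le hab]
    exact (hΨc.comp_continuousOn hgc).mul hw'c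
  have hkey : ∫ x in a..b, (ψ (g x) + Ψ (g x) * w' x) = Ψ (g b) * w b - Ψ (g a) * w a := by
    apply integral_eq_of_hasDerivAt_off_countable_of_le (fun x => Ψ (g x) * w x) _ hab hcount
    · exact (hΨc.comp_continuousOn hgc).mul hww
    · intro x hx
      have hxI : x ∈ Set.Icc a b := ⟨hx.1.1.le, hx.1.2.le⟩
      have hxs : g x ∉ s := fun h => hx.2 ⟨h, hxI⟩
      have h1 : HasDerivAt (fun x => Ψ (g x)) (ψ (g x) * (ε * E0 x)) x :=
        (hΨ (g x) hxs).comp x (hg x hxI)
      have h2 := h1.mul (hwd x hxI)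
      refine h2.congr_deriv ?_
      have h0 : E0 x ≠ 0 := (hE0 x hxI).ne'
      simp only [hw]
      field_simp
      rw [show ε ^ 2 = 1 by rw [sq, hε2]]
      ring
    · exact hint1.add hint2
  have hkey2 : ∫ x in a..b, ψ (g x)
      = Ψ (g b) * w b - Ψ (g a) * w a - ∫ x in a..b, Ψ (g x) * w' x := by
    rw [intervalIntegral.integral_add hint1 hint2] at hkey
    linarith
  -- bound of the last integral
  have hlast : |∫ x in a..b, Ψ (g x) * w' x| ≤ B * (1 / E0 b - 1 / E0 a) := by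
    have hder : ∀ x ∈ Set.uIcc a b, HasDerivAt (fun x => B * (1 / E0 x)) (B * (E1 x / E0 x ^ 2)) x := by
      intro x hx
      rw [Set.uIcc_of_le hab] at hx
      have h1 := (hasDerivAt_const x (1 : ℝ)).div (hE x hx) (hE0 x hx).ne'
      have h2 := h1.const_mul B
      refine h2.congr_deriv ?_
      simp
    have hintB : IntervalIntegrable (fun x => B * (E1 x / E0 x ^ 2)) volume a b := by
      apply ContinuousOn.intervalIntegrable
      rw [Set.uIcc_of_le hab]
      apply continuousOn_const.mul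
      apply hE1c.div (hE0c.pow 2)
      intro x hx
      exact pow_ne_zero 2 (hE0 x hx).ne'
    have h3 : ∫ x in a..b, B * (E1 x / E0 x ^ 2) = B * (1 / E0 b) - B * (1 / E0 a) :=
      intervalIntegral.integral_eq_sub_of_hasDerivAt hder hintB
    have h4 : ‖∫ x in a..b, Ψ (g x) * w' x‖ ≤ ∫ x in a..b, B * (E1 x / E0 x ^ 2) := by
      apply intervalIntegral.norm_integral_le_of_norm_le hab
      · refine Filter.Eventually.of_forall fun x hx => ?_
        have hxI : x ∈ Set.Icc a b := ⟨hx.1.le, hx.2⟩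
        rw [norm_mul, Real.norm_eq_abs, Real.norm_eq_abs]
        have e : |w' x| = E1 x / E0 x ^ 2 := by
          simp only [hw', abs_div, abs_mul, hεabs, one_mul, abs_pow, abs_of_nonneg (hE1 x hxI),
            abs_of_pos (hE0 x hxI)]
        rw [e]
        have : 0 ≤ E1 x / E0 x ^ 2 := div_nonneg (hE1 x hxI) (by positivity)
        gcongr
        exact hΨB _
      · exact hintB
    rw [Real.norm_eq_abs] at h4
    rw [h3] at h4
    linarith
  have ha := hE0 a (Set.left_mem_Icc.2 hab)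
  have hb := hE0 b (Set.right_mem_Icc.2 hab)
  have hwb : |Ψ (g b) * w b| ≤ B * (1 / E0 b) := by
    rw [abs_mul]
    have : |w b| = 1 / E0 b := by simp only [hw, abs_div, hεabs, abs_of_pos hb]
    rw [this]
    gcongr
    exact hΨB _
  have hwa : |Ψ (g a) * w a| ≤ B * (1 / E0 a) := by
    rw [abs_mul]
    have : |w a| = 1 / E0 a := by simp only [hw, abs_div, hεabs, abs_of_pos ha]
    rw [this]
    gcongr
    exact hΨB _
  rw [hkey2]
  calc |Ψ (g b) * w b - Ψ (g a) * w a - ∫ x in a..b, Ψ (g x) * w' x|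
      ≤ |Ψ (g b) * w b| + |Ψ (g a) * w a| + |∫ x in a..b, Ψ (g x) * w' x| := by
        refine (abs_sub _ _).trans ?_
        gcongr
        exact abs_sub _ _
    _ ≤ B * (1 / E0 b) + B * (1 / E0 a) + B * (1 / E0 b - 1 / E0 a) := by gcongr
    _ = 2 * B / E0 b := by ring

end Marg
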