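import Pool.Agent.Marg.Smooth

/-!
# Averages of `z ⌊x ^ β⌋` over the real variable `x`
-/

open Finset Real MeasureTheory Filter Topology

namespace Marg

/-- step function of a sequence -/
noncomputable def zf (z : ℕ → ℝ) (t : ℝ) : ℝ := z ⌊t⌋₊

variable {z : ℕ → ℝ}

lemma zf_bdd (hz : ∀ n, |z n| ≤ 1) : Bdd (zf z) :=
  ⟨(measurable_from_nat).comp Nat.measurable_floor, fun v => hz _⟩

lemma integral_zf_unit (k : ℕ) : ∫ t in (k : ℝ)..((k + 1 : ℕ) : ℝ), zf z t = z k := by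
  have h1 : ∫ t in (k : ℝ)..((k + 1 : ℕ) : ℝ), zf z t = ∫ _t in (k : ℝ)..((k + 1 : ℕ) : ℝ), z k := by
    apply intervalIntegral.integral_congr_ae
    have : ∀ᵐ t : ℝ, t ≠ ((k + 1 : ℕ) : ℝ) := by
      simp [ae_iff, measure_singleton]
    filter_upwards [this] with t ht hmem
    rw [Set.uIoc_of_le (by push_cast; linarith)] at hmem
    unfold zf
    congr 1
    rw [Nat.floor_eq_iff (by linarith [hmem.1, Nat.cast_nonneg (α := ℝ) k])]
    refine ⟨hmem.1.le, ?_⟩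
    have := lt_of_le_of_ne hmem.2 ht
    push_cast at this
    exact this
  rw [h1]
  simp

lemma prim_zf_nat (hz : ∀ n, |z n| ≤ 1) (n : ℕ) : prim (zf z) n = ∑ k ∈ range n, z k := by
  unfold prim
  have h := intervalIntegral.sum_integral_adjacent_intervals (f := zf z) (μ := volume)
    (a := fun k : ℕ => (k : ℝ)) (n := n) (fun k _ => (zf_bdd hz).ii _ _)
  simp only [Nat.cast_zero] at h
  rw [← h]
  exact Finset.sum_congr rfl fun k _ => integral_zf_unit k

lemma prim_zf_small (hz : ∀ n, |z n| ≤ 1)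
    (hc : Tendsto (fun n : ℕ => (∑ k ∈ range n, z k) / n) atTop (𝓝 0)) {ε : ℝ} (hε : 0 < ε) :
    ∃ Y : ℝ, 1 ≤ Y ∧ ∀ y, Y ≤ y → |prim (zf z) y| ≤ ε * y := by
  have h1 : ∀ᶠ n : ℕ in atTop, |(∑ k ∈ range n, z k) / n| < ε / 2 := by
    have := (tendsto_order.1 hc.abs).2 (ε / 2) (by simpa using half_pos hε)
    simpa using this
  obtain ⟨n0, hn0⟩ := eventually_atTop.1 h1
  refine ⟨max (n0 + 1) (max 1 (2 / ε)), le_max_of_le_right (le_max_left _ _), ?_⟩
  intro y hy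
  have hy1 : (n0 : ℝ) + 1 ≤ y := (le_max_left _ _).trans hy
  have hy2 : 1 ≤ y := ((le_max_left _ _).trans (le_max_right _ _)).trans hy
  have hy3 : 2 / ε ≤ y := ((le_max_right _ _).trans (le_max_right _ _)).trans hy
  have hfl1 : (⌊y⌋₊ : ℝ) ≤ y := Nat.floor_le (by linarith)
  have hfl2 : y < ⌊y⌋₊ + 1 := Nat.lt_floor_add_one y
  have hn : n0 ≤ ⌊y⌋₊ := by
    apply Nat.le_floor
    linarith
  have hn1 : 0 < (⌊y⌋₊ : ℝ) := by linarith
  have h2 := hn0 _ hn
  rw [abs_div, abs_of_pos hn1, div_lt_iff₀ hn1, ← prim_zf_nat hz] at h2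
  have h3 := (zf_bdd hz).prim_lip y ⌊y⌋₊
  have h4 : |y - ⌊y⌋₊| ≤ 1 := by rw [abs_le]; constructor <;> linarith
  have h5 : |prim (zf z) y| ≤ |prim (zf z) y - prim (zf z) ⌊y⌋₊| + |prim (zf z) ⌊y⌋₊| := by
    have := abs_add_le (prim (zf z) y - prim (zf z) ⌊y⌋₊) (prim (zf z) ⌊y⌋₊)
    simpa using this
  have h6 : 1 ≤ ε / 2 * y := by
    rw [div_le_iff₀ hε] at hy3
    linarith
  have h7 : ε / 2 * (⌊y⌋₊ : ℝ) ≤ ε / 2 * y := by gcongr
  linarith

/-- off a countable set, `zf` is continuous -/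
lemma zf_continuousAt {t : ℝ} (ht : t ∉ Set.range (fun n : ℕ => (n : ℝ))) (h0 : 0 ≤ t) :
    ContinuousAt (zf z) t := by
  have h1 : (⌊t⌋₊ : ℝ) < t :=
    lt_of_le_of_ne (Nat.floor_le h0) (fun h => ht ⟨⌊t⌋₊, h⟩)
  have h2 : t < ⌊t⌋₊ + 1 := Nat.lt_floor_add_one t
  have h3 : ∀ᶠ s in 𝓝 t, zf z s = zf z t := by
    filter_upwards [Ioo_mem_nhds h1 h2] with s hs
    unfold zf
    congr 1
    rw [Nat.floor_eq_iff (by linarith [hs.1, Nat.cast_nonneg (α := ℝ) ⌊t⌋₊])]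
    exact ⟨hs.1.le, hs.2⟩
  exact ContinuousAt.congr continuousAt_const (h3.mono fun s hs => hs.symm)

lemma power_avg_bound (hz : ∀ n, |z n| ≤ 1) {ε Y β : ℝ} (hε : 0 < ε) (hβ : 1 ≤ β) (hY : 1 ≤ Y)
    (h : ∀ y, Y ≤ y → |prim (zf z) y| ≤ ε * y) {N : ℕ} (hN : Y ≤ N) :
    |∫ x in (N : ℝ)..(2 * N : ℝ), zf z (x ^ β)| ≤ 3 * ε * N := by
  have hN1 : (1 : ℝ) ≤ N := hY.trans hN
  have hle : (N : ℝ) ≤ 2 * N := by linarith
  set S := prim (zf z) with hS
  have hSc : Continuous S := (zf_bdd hz).prim_cont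
  have hpos : ∀ x ∈ Set.Icc (N : ℝ) (2 * N), 0 < x := fun x hx => by linarith [hx.1]
  have hbig : ∀ x ∈ Set.Icc (N : ℝ) (2 * N), Y ≤ x ^ β := by
    intro x hx
    have hx1 : 1 ≤ x := by linarith [hx.1]
    calc Y ≤ x := by linarith [hx.1]
      _ = x ^ (1 : ℝ) := (Real.rpow_one x).symm
      _ ≤ x ^ β := Real.rpow_le_rpow_of_exponent_le hx1 hβ
  have hpc : ContinuousOn (fun x : ℝ => x ^ β) (Set.Icc (N : ℝ) (2 * N)) := by
    intro x hx
    exact (Real.continuousAt_rpow_const x β (Or.inl (hpos x hx).ne')).continuousWithinAt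
  have hqc : ∀ γ : ℝ, ContinuousOn (fun x : ℝ => x ^ γ) (Set.Icc (N : ℝ) (2 * N)) := by
    intro γ x hx
    exact (Real.continuousAt_rpow_const x γ (Or.inl (hpos x hx).ne')).continuousWithinAt
  set G : ℝ → ℝ := fun x => S (x ^ β) * x ^ (1 - β) with hG
  set G2 : ℝ → ℝ := fun x => (β - 1) * (S (x ^ β) * x ^ (-β)) with hG2
  have hG2c : ContinuousOn G2 (Set.Icc (N : ℝ) (2 * N)) :=
    continuousOn_const.mul ((hSc.comp_continuousOn hpc).mul (hqc _))
  have hint2 : IntervalIntegrable G2 volume (N : ℝ) (2 * N) := by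
    apply ContinuousOn.intervalIntegrable
    rwa [Set.uIcc_of_le hle]
  have hint1 : IntervalIntegrable (fun x => zf z (x ^ β)) volume (N : ℝ) (2 * N) := by
    rw [intervalIntegrable_iff_integrableOn_Icc_of_le hle]
    refine IntegrableOn.of_bound (by simp) ?_ 1 (Eventually.of_forall fun x => hz _)
    exact ((zf_bdd hz).meas.comp_aemeasurable
      (hpc.aemeasurable measurableSet_Icc)).aestronglyMeasurable
  have hcount : ((fun x : ℝ => x ^ β) ⁻¹' (Set.range (fun n : ℕ => (n : ℝ)))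
      ∩ Set.Icc (N : ℝ) (2 * N)).Countable := by
    apply Set.MapsTo.countable_of_injOn (t := Set.range (fun n : ℕ => (n : ℝ)))
      (f := fun x : ℝ => x ^ β) (fun x hx => hx.1) _ (Set.countable_range _)
    intro x hx y hy hxy
    have hx0 := (hpos x hx.2).le
    have hy0 := (hpos y hy.2).le
    exact (Real.rpow_left_inj hx0 hy0 (by linarith)).1 hxy
  have hkey : ∫ x in (N : ℝ)..(2 * N : ℝ), (β * zf z (x ^ β) - G2 x)
      = G (2 * N) - G N := by
    apply integral_eq_of_hasDerivAt_off_countable_of_le G _ hle hcount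
    · exact (hSc.comp_continuousOn hpc).mul (hqc _)
    · intro x hx
      have hxI : x ∈ Set.Icc (N : ℝ) (2 * N) := ⟨hx.1.1.le, hx.1.2.le⟩
      have hx0 := hpos x hxI
      have hxs : x ^ β ∉ Set.range (fun n : ℕ => (n : ℝ)) := fun hh => hx.2 ⟨hh, hxI⟩
      have h1 : HasDerivAt (fun x : ℝ => x ^ β) (β * x ^ (β - 1)) x :=
        Real.hasDerivAt_rpow_const (Or.inl hx0.ne')
      have h2 : HasDerivAt (fun x : ℝ => x ^ (1 - β)) ((1 - β) * x ^ (1 - β - 1)) x :=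
        Real.hasDerivAt_rpow_const (Or.inl hx0.ne')
      have h3 : HasDerivAt S (zf z (x ^ β)) (x ^ β) :=
        (zf_bdd hz).hasDerivAt_prim (zf_continuousAt hxs (by positivity))
      have h4 := (h3.comp x h1).mul h2
      refine h4.congr_deriv ?_
      have e1 : x ^ (β - 1) * x ^ (1 - β) = 1 := by
        rw [← Real.rpow_add hx0]; simp
      have e2 : (1 - β - 1) = -β := by ring
      simp only [hG2, Function.comp]
      rw [e2]
      linear_combination (zf z (x ^ β) * β) * e1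
    · exact (hint1.const_mul β).sub hint2
  have hGle : ∀ x ∈ Set.Icc (N : ℝ) (2 * N), |G x| ≤ ε * x := by
    intro x hx
    have hx0 := hpos x hx
    have h1 := h (x ^ β) (hbig x hx)
    simp only [hG]
    rw [abs_mul, abs_of_pos (Real.rpow_pos_of_pos hx0 _)]
    calc |S (x ^ β)| * x ^ (1 - β) ≤ ε * x ^ β * x ^ (1 - β) := by gcongr
      _ = ε * (x ^ β * x ^ (1 - β)) := by ring
      _ = ε * x := by
          rw [← Real.rpow_add hx0]; simp
  have hG2le : ∀ x ∈ Set.Icc (N : ℝ) (2 * N), |G2 x| ≤ (β - 1) * ε := by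
    intro x hx
    have hx0 := hpos x hx
    have h1 := h (x ^ β) (hbig x hx)
    simp only [hG2]
    rw [abs_mul, abs_mul, abs_of_nonneg (by linarith : 0 ≤ β - 1),
      abs_of_pos (Real.rpow_pos_of_pos hx0 (-β))]
    have h2 : |S (x ^ β)| * x ^ (-β) ≤ ε := by
      calc |S (x ^ β)| * x ^ (-β) ≤ ε * x ^ β * x ^ (-β) := by gcongr
        _ = ε * (x ^ β * x ^ (-β)) := by ring
        _ = ε := by rw [← Real.rpow_add hx0]; simp
    exact mul_le_mul_of_nonneg_left h2 (by linarith)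
  rw [intervalIntegral.integral_sub (hint1.const_mul β) hint2,
    intervalIntegral.integral_const_mul] at hkey
  have hI2 : |∫ x in (N : ℝ)..(2 * N : ℝ), G2 x| ≤ (β - 1) * ε * N := by
    have := intervalIntegral.norm_integral_le_of_norm_le_const (a := (N : ℝ)) (b := 2 * N)
      (f := G2) (C := (β - 1) * ε) (by
        intro x hx
        rw [Set.uIoc_of_le hle] at hx
        exact hG2le x ⟨hx.1.le, hx.2⟩)
    rw [Real.norm_eq_abs] at this
    have e : |2 * (N : ℝ) - N| = N := by rw [abs_of_nonneg] <;> linarith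
    rwa [e] at this
  have hGa := hGle N ⟨le_rfl, hle⟩
  have hGb := hGle (2 * N) ⟨hle, le_rfl⟩
  have h8 : β * |∫ x in (N : ℝ)..(2 * N : ℝ), zf z (x ^ β)| ≤ (β + 2) * ε * N := by
    have e1 : β * |∫ x in (N : ℝ)..(2 * N : ℝ), zf z (x ^ β)|
        = |β * ∫ x in (N : ℝ)..(2 * N : ℝ), zf z (x ^ β)| := by
      rw [abs_mul, abs_of_pos (by linarith : 0 < β)]
    have e2 : β * ∫ x in (N : ℝ)..(2 * N : ℝ), zf z (x ^ β)
        = G (2 * N) - G N + ∫ x in (N : ℝ)..(2 * N : ℝ), G2 x := by linarith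
    rw [e1, e2]
    refine (abs_add_le _ _).trans ?_
    have := abs_sub (G (2 * N)) (G N)
    nlinarith
  have h9 : (β + 2) * ε * N ≤ β * (3 * ε * N) := by
    have : 0 ≤ ε * N := by positivity
    nlinarith
  have hβ0 : 0 < β := by linarith
  exact le_of_mul_le_mul_left (h8.trans h9) hβ0

lemma power_avg_tendsto (hz : ∀ n, |z n| ≤ 1)
    (hc : Tendsto (fun n : ℕ => (∑ k ∈ range n, z k) / n) atTop (𝓝 0)) {β : ℝ} (hβ : 1 ≤ β) :
    Tendsto (fun N : ℕ => (∫ x in (N : ℝ)..(2 * N : ℝ), zf z (x ^ β)) / N) atTop (𝓝 0) := by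
  rw [Metric.tendsto_atTop]
  intro ε hε
  obtain ⟨Y, hY, h⟩ := prim_zf_small hz hc (show 0 < ε / 4 by positivity)
  refine ⟨⌈Y⌉₊, fun N hN => ?_⟩
  have hN' : Y ≤ N := (Nat.le_ceil _).trans (by exact_mod_cast hN)
  have h1 := power_avg_bound hz (by positivity) hβ hY h hN'
  have hN0 : (0 : ℝ) < N := by linarith
  rw [Real.dist_eq, sub_zero, abs_div, abs_of_pos hN0, div_lt_iff₀ hN0]
  nlinarith

end Marg
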