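import Mathlib

/-!
# Hausdorff content on the line and Hausdorff dimension
-/

open MeasureTheory Filter Topology
open scoped ENNReal NNReal

namespace Marg

/-- Hausdorff content of dimension `σ` on the real line. -/
noncomputable def hcont (σ : ℝ) (hσ : 0 < σ) : OuterMeasure ℝ :=
  OuterMeasure.ofFunction (fun s => Metric.ediam s ^ σ) (by simp [hσ])

variable {σ : ℝ} {hσ : 0 < σ}

lemma hcont_le (s : Set ℝ) : hcont σ hσ s ≤ Metric.ediam s ^ σ :=
  OuterMeasure.ofFunction_le s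

lemma hcont_Icc_le (a : ℝ) {h : ℝ} :
    hcont σ hσ (Set.Icc a (a + h)) ≤ ENNReal.ofReal h ^ σ := by
  refine (hcont_le _).trans ?_
  rw [Real.ediam_Icc]
  apply le_of_eq
  congr 2
  ring

theorem hausdorffMeasure_eq_zero_of_hcont {E : Set ℝ} (h : hcont σ hσ E = 0) :
    Measure.hausdorffMeasure σ E = 0 := by
  have h1 : ∀ n : ℕ, ∃ t : ℕ → Set ℝ, E ⊆ ⋃ i, t i ∧
      ∑' i, Metric.ediam (t i) ^ σ < ((n : ℝ≥0∞) + 1)⁻¹ := by
    intro n
    have h2 : hcont σ hσ E < ((n : ℝ≥0∞) + 1)⁻¹ := by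
      rw [h, ENNReal.inv_pos]
      exact ENNReal.add_ne_top.2 ⟨ENNReal.natCast_ne_top n, ENNReal.one_ne_top⟩
    unfold hcont at h2
    rw [OuterMeasure.ofFunction_apply] at h2
    obtain ⟨t, ht⟩ := iInf_lt_iff.1 h2
    obtain ⟨ht1, ht2⟩ := iInf_lt_iff.1 ht
    exact ⟨t, ht1, ht2⟩
  choose t ht1 ht2 using h1
  have hz : Tendsto (fun n : ℕ => ((n : ℝ≥0∞) + 1)⁻¹) atTop (𝓝 0) := by
    have := (tendsto_add_atTop_iff_nat 1).2 ENNReal.tendsto_inv_nat_nhds_zero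
    simpa using this
  have hr : Tendsto (fun n : ℕ => (((n : ℝ≥0∞) + 1)⁻¹) ^ (1 / σ)) atTop (𝓝 0) := by
    have h3 : Tendsto (fun x : ℝ≥0∞ => x ^ (1 / σ)) (𝓝 0) (𝓝 (0 ^ (1 / σ))) :=
      (ENNReal.continuous_rpow_const).tendsto 0
    rw [ENNReal.zero_rpow_of_pos (by positivity)] at h3
    exact h3.comp hz
  have hd : ∀ n i, Metric.ediam (t n i) ≤ (((n : ℝ≥0∞) + 1)⁻¹) ^ (1 / σ) := by
    intro n i
    have h4 : Metric.ediam (t n i) ^ σ ≤ ((n : ℝ≥0∞) + 1)⁻¹ :=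
      (ENNReal.le_tsum i).trans (ht2 n).le
    calc Metric.ediam (t n i) = (Metric.ediam (t n i) ^ σ) ^ (1 / σ) := by
          rw [← ENNReal.rpow_mul, mul_one_div_cancel hσ.ne', ENNReal.rpow_one]
      _ ≤ _ := ENNReal.rpow_le_rpow h4 (by positivity)
  have key := Measure.hausdorffMeasure_le_liminf_tsum σ E
    (fun n : ℕ => (((n : ℝ≥0∞) + 1)⁻¹) ^ (1 / σ)) hr t (Eventually.of_forall hd)
    (Eventually.of_forall ht1)
  have hz2 : liminf (fun n : ℕ => ∑' i, Metric.ediam (t n i) ^ σ) atTop = 0 := by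
    have : Tendsto (fun n : ℕ => ∑' i, Metric.ediam (t n i) ^ σ) atTop (𝓝 0) :=
      tendsto_of_tendsto_of_tendsto_of_le_of_le tendsto_const_nhds hz (fun n => zero_le)
        (fun n => (ht2 n).le)
    exact this.liminf_eq
  rw [hz2] at key
  exact le_antisymm key zero_le

theorem dimH_le_of_hcont {σ : ℝ≥0} {hσ : 0 < (σ : ℝ)} {E : Set ℝ} (h : hcont σ hσ E = 0) :
    dimH E ≤ σ := by
  apply dimH_le_of_hausdorffMeasure_ne_top
  rw [hausdorffMeasure_eq_zero_of_hcont h]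
  exact ENNReal.zero_ne_top

end Marg
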