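import Pool.Agent.Marg.Content
import Pool.Agent.Marg.Assemble

/-!
# Hausdorff content of superlevel sets
-/

open MeasureTheory Filter Topology
open scoped ENNReal NNReal

namespace Marg

/-- Content of the superlevel set of a Lipschitz square integrable function. -/
theorem hcont_superlevel {σ : ℝ} {hσ : 0 < σ} {g : ℝ → ℝ} {Lc I ε h a : ℝ} (hL : 0 ≤ Lc)
    (hε : 0 < ε) (hh : 0 < h) (hlip : ∀ x y, |g x - g y| ≤ Lc * |x - y|)
    (hgi : Integrable (fun u => g u ^ 2)) (hI : ∫ u, g u ^ 2 ≤ I) (hLh : Lc * h ≤ ε / 2) :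
    hcont σ hσ {u | 0 ≤ u ∧ u ≤ a ∧ ε < |g u|} ≤ ENNReal.ofReal (4 * I / ε ^ 2 * h ^ (σ - 1)) := by
  classical
  have hgc : Continuous g := by
    have : LipschitzWith ⟨Lc, hL⟩ g := by
      apply LipschitzWith.of_dist_le_mul
      intro x y
      rw [Real.dist_eq, Real.dist_eq]
      exact hlip x y
    exact this.continuous
  set n : ℕ := ⌊a / h⌋₊ + 1 with hn
  set c : ℕ → ℝ := fun k => k * h with hc
  set J : ℕ → Set ℝ := fun k => Set.Icc (c k) (c k + h) with hJ
  set B : Finset ℕ := (Finset.range n).filter (fun k => ∃ u ∈ J k, ε < |g u|) with hB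
  have hcover : {u | 0 ≤ u ∧ u ≤ a ∧ ε < |g u|} ⊆ ⋃ k ∈ B, J k := by
    rintro u ⟨h0, ha, hu⟩
    have hk1 : (⌊u / h⌋₊ : ℝ) ≤ u / h := Nat.floor_le (by positivity)
    have hk2 : u / h < ⌊u / h⌋₊ + 1 := Nat.lt_floor_add_one _
    rw [le_div_iff₀ hh] at hk1
    rw [div_lt_iff₀ hh] at hk2
    have hmem : u ∈ J ⌊u / h⌋₊ := by
      simp only [hJ, hc]
      constructor
      · exact hk1
      · linarith
    rw [Set.mem_iUnion₂]
    refine ⟨⌊u / h⌋₊, ?_, hmem⟩
    rw [hB, Finset.mem_filter, Finset.mem_range]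
    refine ⟨?_, u, hmem, hu⟩
    rw [hn, Nat.lt_succ_iff]
    apply Nat.floor_le_floor
    gcongr
  have hBcount : (B.card : ℝ) * h * (ε / 2) ^ 2 ≤ I := by
    have hii : ∀ x y, IntervalIntegrable (fun u => g u ^ 2) volume x y := fun x y =>
      (hgc.pow 2).intervalIntegrable x y
    have h1 : ∀ k ∈ B, h * (ε / 2) ^ 2 ≤ ∫ u in (c k)..(c (k + 1)), g u ^ 2 := by
      intro k hk
      rw [hB, Finset.mem_filter] at hk
      obtain ⟨_, u0, hu0, hgu0⟩ := hk
      have hck : c (k + 1) = c k + h := by simp only [hc]; push_cast; ring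
      have h2 : ∫ _u in (c k)..(c (k + 1)), (ε / 2) ^ 2 = h * (ε / 2) ^ 2 := by
        rw [intervalIntegral.integral_const, hck]
        simp
      rw [← h2]
      apply intervalIntegral.integral_mono_on (by rw [hck]; linarith) intervalIntegrable_const
        (hii _ _)
      intro u hu
      rw [hck] at hu
      have h3 : |g u0 - g u| ≤ ε / 2 := by
        refine (hlip _ _).trans (le_trans ?_ hLh)
        gcongr
        rw [abs_le]
        simp only [hJ] at hu0
        constructor <;> linarith [hu.1, hu.2, hu0.1, hu0.2]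
      have h4 : ε / 2 ≤ |g u| := by
        have h5 : |g u0| ≤ |g u0 - g u| + |g u| := by
          have := abs_add_le (g u0 - g u) (g u)
          simpa using this
        linarith
      calc (ε / 2) ^ 2 ≤ |g u| ^ 2 := by gcongr
        _ = g u ^ 2 := sq_abs _
    calc (B.card : ℝ) * h * (ε / 2) ^ 2 = ∑ _k ∈ B, h * (ε / 2) ^ 2 := by
          rw [Finset.sum_const, nsmul_eq_mul]; ring
      _ ≤ ∑ k ∈ B, ∫ u in (c k)..(c (k + 1)), g u ^ 2 := Finset.sum_le_sum h1
      _ ≤ ∑ k ∈ Finset.range n, ∫ u in (c k)..(c (k + 1)), g u ^ 2 := by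
          apply Finset.sum_le_sum_of_subset_of_nonneg
          · rw [hB]; exact Finset.filter_subset _ _
          · intro k _ _
            apply intervalIntegral.integral_nonneg
            · simp only [hc]; push_cast; nlinarith
            · intro u _; exact sq_nonneg _
      _ = ∫ u in (c 0)..(c n), g u ^ 2 :=
          intervalIntegral.sum_integral_adjacent_intervals fun k _ => hii _ _
      _ ≤ ∫ u, g u ^ 2 := by
          rw [intervalIntegral.integral_of_le (by simp only [hc]; push_cast; nlinarith [Nat.cast_nonneg (α := ℝ) n])]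
          exact setIntegral_le_integral hgi (Eventually.of_forall fun u => sq_nonneg _)
      _ ≤ I := hI
  have hBh : (B.card : ℝ) * h ^ σ ≤ 4 * I / ε ^ 2 * h ^ (σ - 1) := by
    have e1 : h ^ σ = h * h ^ (σ - 1) := by
      rw [Real.rpow_sub_one hh.ne']; field_simp
    rw [e1, ← mul_assoc]
    gcongr
    rw [le_div_iff₀ (by positivity)]
    have : (B.card : ℝ) * h * (ε / 2) ^ 2 = (B.card : ℝ) * h * ε ^ 2 / 4 := by ring
    rw [this] at hBcount
    linarith
  calc hcont σ hσ {u | 0 ≤ u ∧ u ≤ a ∧ ε < |g u|}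
      ≤ hcont σ hσ (⋃ k ∈ B, J k) := measure_mono hcover
    _ ≤ ∑ k ∈ B, hcont σ hσ (J k) := measure_biUnion_finset_le B J
    _ ≤ ∑ _k ∈ B, ENNReal.ofReal h ^ σ := Finset.sum_le_sum fun k _ => hcont_Icc_le _
    _ = ENNReal.ofReal ((B.card : ℝ) * h ^ σ) := by
        rw [Finset.sum_const, nsmul_eq_mul, ENNReal.ofReal_mul (by positivity),
          ENNReal.ofReal_natCast, ENNReal.ofReal_rpow_of_pos hh]
    _ ≤ _ := ENNReal.ofReal_le_ofReal hBh

/-- Content of the exceptional set of the smoothing. -/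
theorem hcont_badset {σ : ℝ} {hσ : 0 < σ} {z : ℕ → ℝ} (hz : ∀ n, |z n| ≤ 1) {v0 v1 s : ℝ}
    (hs : 0 < s) {K N : ℕ} (hK : Real.exp (Real.exp v1) ≤ K) (t : ℕ → ℝ) :
    hcont σ hσ {u | ∑ i ∈ Finset.range N, rem0 z v0 v1 s (u + t i) ≠ 0}
      ≤ ENNReal.ofReal (N * (K + 3) * s ^ σ) := by
  have hsub : {u | ∑ i ∈ Finset.range N, rem0 z v0 v1 s (u + t i) ≠ 0} ⊆
      ⋃ i ∈ Finset.range N, ((⋃ k ∈ Finset.range (K + 1), Set.Icc (ll k - t i) (ll k - t i + s)) ∪
        (Set.Icc (v0 - t i) (v0 - t i + s) ∪ Set.Icc (v1 - t i) (v1 - t i + s))) := by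
    intro u hu
    by_contra hcon
    apply hu
    apply Finset.sum_eq_zero
    intro i hi
    rw [Set.mem_iUnion₂] at hcon
    push Not at hcon
    have h1 := hcon i hi
    have h2 : u + t i ∉ badset v0 v1 s K := by
      intro hbad
      apply h1
      unfold badset at hbad
      rcases hbad with hb | hb | hb
      · left
        rw [Set.mem_iUnion₂] at hb ⊢
        obtain ⟨k, hk, hk1, hk2⟩ := hb
        exact ⟨k, hk, by linarith, by linarith⟩
      · right; left
        exact ⟨by linarith [hb.1], by linarith [hb.2]⟩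
      · right; right
        exact ⟨by linarith [hb.1], by linarith [hb.2]⟩
    unfold rem0
    rw [sm_eq_of_notMem_badset hz hs hK h2]
    ring
  have hone : ∀ x : ℝ, hcont σ hσ (Set.Icc x (x + s)) ≤ ENNReal.ofReal (s ^ σ) := by
    intro x
    refine (hcont_Icc_le x).trans (le_of_eq ?_)
    rw [ENNReal.ofReal_rpow_of_pos hs]
  refine (measure_mono hsub).trans ((measure_biUnion_finset_le _ _).trans ?_)
  calc ∑ i ∈ Finset.range N, hcont σ hσ
        ((⋃ k ∈ Finset.range (K + 1), Set.Icc (ll k - t i) (ll k - t i + s)) ∪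
        (Set.Icc (v0 - t i) (v0 - t i + s) ∪ Set.Icc (v1 - t i) (v1 - t i + s)))
      ≤ ∑ _i ∈ Finset.range N, ENNReal.ofReal ((K + 3) * s ^ σ) := by
        refine Finset.sum_le_sum fun i _ => ?_
        have hsσ : 0 ≤ s ^ σ := by positivity
        have h1 : hcont σ hσ (⋃ k ∈ Finset.range (K + 1), Set.Icc (ll k - t i) (ll k - t i + s))
            ≤ ENNReal.ofReal ((K + 1) * s ^ σ) := by
          refine (measure_biUnion_finset_le _ _).trans ?_
          refine (Finset.sum_le_sum fun k _ => hone _).trans (le_of_eq ?_)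
          rw [Finset.sum_const, Finset.card_range, nsmul_eq_mul,
            ENNReal.ofReal_mul (by positivity)]
          congr 1
          rw [← ENNReal.ofReal_natCast]
          push_cast
          rfl
        refine (measure_union_le _ _).trans ?_
        refine (add_le_add h1 ((measure_union_le _ _).trans (add_le_add (hone _) (hone _)))).trans ?_
        rw [← ENNReal.ofReal_add hsσ hsσ, ← ENNReal.ofReal_add (by positivity) (by positivity)]
        apply ENNReal.ofReal_le_ofReal
        apply le_of_eq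
        ring
    _ = ENNReal.ofReal (N * (K + 3) * s ^ σ) := by
        rw [Finset.sum_const, Finset.card_range, nsmul_eq_mul, mul_assoc,
          ENNReal.ofReal_mul (p := (N : ℝ)) (by positivity), ENNReal.ofReal_natCast]

end Marg
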