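import Pool.Agent.Marg.Main

/-!
# From bounded sequences to equidistribution in locally compact spaces
-/

open MeasureTheory Filter Topology

namespace Marg

/-- `y 1, y 2, y 3, …` is equidistributed in `X` with respect to `μ`: the averages of every
compactly supported continuous function along it converge to the integral of the function. -/
def Equidistributed {X : Type*} [TopologicalSpace X] [MeasurableSpace X] (μ : Measure X)
    (y : ℕ → X) : Prop :=
  ∀ f : X → ℝ, Continuous f → HasCompactSupport f →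
    Tendsto (fun N : ℕ => (∑ n ∈ Finset.Icc 1 N, f (y n)) / (N : ℝ)) atTop (𝓝 (∫ p, f p ∂μ))

theorem exists_dense_family (X : Type*) [TopologicalSpace X] [LocallyCompactSpace X] [T2Space X]
    [SecondCountableTopology X] :
    ∃ F : ℕ → X → ℝ, (∀ i, Continuous (F i) ∧ HasCompactSupport (F i)) ∧
      ∀ f : X → ℝ, Continuous f → HasCompactSupport f → ∀ ε : ℝ, 0 < ε →
        ∃ i, ∀ x, |f x - F i x| ≤ ε := by
  classical
  let K := CompactExhaustion.choice X
  have hχ : ∀ m : ℕ, ∃ f : C(X, ℝ), Set.EqOn f 1 (K m) ∧ Set.EqOn f 0 (interior (K (m + 1)))ᶜ ∧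
      HasCompactSupport f ∧ ∀ x, f x ∈ Set.Icc (0 : ℝ) 1 := by
    intro m
    refine exists_continuous_one_zero_of_isCompact (K.isCompact m) isOpen_interior.isClosed_compl ?_
    rw [Set.disjoint_compl_right_iff_subset]
    exact K.subset_interior_succ m
  choose χ h1 h0 hcs h01 using hχ
  refine ⟨fun i => fun x => χ (Nat.unpair i).1 x * TopologicalSpace.denseSeq C(X, ℝ) (Nat.unpair i).2 x,
    fun i => ⟨by fun_prop, (hcs _).mul_right⟩, ?_⟩
  intro f hf hfc ε hε
  obtain ⟨m, hm⟩ := K.exists_superset_of_isCompact hfc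
  let f' : C(X, ℝ) := ⟨f, hf⟩
  have hopen : IsOpen {g : C(X, ℝ) | Set.MapsTo (⇑(g - f')) (K (m + 1)) (Metric.ball 0 ε)} := by
    have := ContinuousMap.isOpen_setOf_mapsTo (X := X) (Y := ℝ) (K.isCompact (m + 1))
      (Metric.isOpen_ball (x := (0 : ℝ)) (ε := ε))
    exact this.preimage (continuous_id.sub continuous_const)
  obtain ⟨j, hj⟩ := (TopologicalSpace.denseRange_denseSeq C(X, ℝ)).exists_mem_open hopen
    ⟨f', by intro x _; simp [hε]⟩
  refine ⟨Nat.pair m j, fun x => ?_⟩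
  simp only [Nat.unpair_pair]
  set g := TopologicalSpace.denseSeq C(X, ℝ) j with hg
  have hgj : ∀ y ∈ K (m + 1), |g y - f y| < ε := by
    intro y hy
    have := hj hy
    simpa [Real.dist_eq, f'] using this
  have hmm : K m ⊆ K (m + 1) := K.subset_succ m
  by_cases hx : x ∈ K m
  · rw [h1 m hx]
    have := hgj x (hmm hx)
    rw [abs_sub_comm] at this
    simpa using this.le
  · have hfx : f x = 0 := image_eq_zero_of_notMem_tsupport fun h => hx (hm h)
    by_cases hx1 : x ∈ K (m + 1)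
    · have h2 := hgj x hx1
      rw [hfx] at h2 ⊢
      rw [zero_sub, abs_neg, abs_mul]
      rw [sub_zero] at h2
      have h3 := h01 m x
      rw [abs_of_nonneg h3.1]
      calc χ m x * |g x| ≤ 1 * |g x| := by gcongr; exact h3.2
        _ ≤ ε := by rw [one_mul]; exact h2.le
    · have h4 : χ m x = 0 := h0 m (fun h => hx1 (interior_subset h))
      rw [h4, hfx]
      simp [hε.le]

theorem equidistributed_of_family {X : Type*} [TopologicalSpace X] [MeasurableSpace X]
    [BorelSpace X] {μ : Measure X} [IsProbabilityMeasure μ] {F : ℕ → X → ℝ}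
    (hF : ∀ i, Continuous (F i) ∧ HasCompactSupport (F i))
    (hd : ∀ f : X → ℝ, Continuous f → HasCompactSupport f → ∀ ε : ℝ, 0 < ε →
        ∃ i, ∀ x, |f x - F i x| ≤ ε)
    {y : ℕ → X}
    (h : ∀ i, Tendsto (fun N : ℕ => (∑ n ∈ Finset.Icc 1 N, F i (y n)) / (N : ℝ)) atTop
      (𝓝 (∫ p, F i p ∂μ))) : Equidistributed μ y := by
  intro f hf hfc
  rw [Metric.tendsto_atTop]
  intro ε hε
  obtain ⟨i, hi⟩ := hd f hf hfc (ε / 4) (by positivity)
  obtain ⟨N₀, hN₀⟩ := Metric.tendsto_atTop.1 (h i) (ε / 4) (by positivity)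
  refine ⟨max N₀ 1, fun N hN => ?_⟩
  have hN0 : N₀ ≤ N := (le_max_left _ _).trans hN
  have hN1 : 1 ≤ N := (le_max_right _ _).trans hN
  have h1 := hN₀ N hN0
  rw [Real.dist_eq] at h1 ⊢
  have hNr : (0 : ℝ) < N := by exact_mod_cast hN1
  have h2 : |(∑ n ∈ Finset.Icc 1 N, f (y n)) / (N : ℝ) - (∑ n ∈ Finset.Icc 1 N, F i (y n)) / (N : ℝ)|
      ≤ ε / 4 := by
    rw [← sub_div, ← Finset.sum_sub_distrib, abs_div, abs_of_pos hNr, div_le_iff₀ hNr]
    calc |∑ n ∈ Finset.Icc 1 N, (f (y n) - F i (y n))|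
        ≤ ∑ n ∈ Finset.Icc 1 N, |f (y n) - F i (y n)| := Finset.abs_sum_le_sum_abs _ _
      _ ≤ ∑ _n ∈ Finset.Icc 1 N, ε / 4 := Finset.sum_le_sum fun n _ => hi _
      _ = ε / 4 * N := by
        rw [Finset.sum_const, Nat.card_Icc, nsmul_eq_mul]
        simp only [Nat.add_sub_cancel]
        ring
  have h3 : |∫ p, F i p ∂μ - ∫ p, f p ∂μ| ≤ ε / 4 := by
    have hi1 : Integrable (F i) μ := (hF i).1.integrable_of_hasCompactSupport (hF i).2
    have hi2 : Integrable f μ := hf.integrable_of_hasCompactSupport hfc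
    rw [← integral_sub hi1 hi2]
    have := norm_integral_le_of_norm_le_const (μ := μ) (f := fun p => F i p - f p) (C := ε / 4)
      (Eventually.of_forall fun p => by rw [Real.norm_eq_abs, abs_sub_comm]; exact hi p)
    simpa [Real.norm_eq_abs] using this
  rw [abs_lt] at h1 ⊢
  rw [abs_le] at h2 h3
  constructor <;> linarith [h1.1, h1.2, h2.1, h2.2, h3.1, h3.2]

/-- Cesàro means over `1, …, N` and over `0, …, N - 1` agree in the limit. -/
theorem cesaro_shift {z : ℕ → ℝ} {C : ℝ} (hz : ∀ n, |z n| ≤ C) {L : ℝ} :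
    Tendsto (fun N : ℕ => (∑ n ∈ Finset.Icc 1 N, z n) / (N : ℝ)) atTop (𝓝 L) ↔
    Tendsto (fun N : ℕ => (∑ n ∈ Finset.range N, z n) / (N : ℝ)) atTop (𝓝 L) := by
  have hd : Tendsto (fun N : ℕ => (z N - z 0) / (N : ℝ)) atTop (𝓝 0) := by
    apply squeeze_zero_norm (a := fun N : ℕ => (2 * C) / (N : ℝ))
    · intro N
      rw [Real.norm_eq_abs, abs_div, abs_of_nonneg (Nat.cast_nonneg N : (0 : ℝ) ≤ (N : ℝ))]
      gcongr
      calc |z N - z 0| ≤ |z N| + |z 0| := abs_sub _ _
        _ ≤ 2 * C := by linarith [hz N, hz 0]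
    · exact tendsto_const_nhds.div_atTop tendsto_natCast_atTop_atTop
  have key : ∀ N : ℕ, ∑ n ∈ Finset.Icc 1 N, z n = ∑ n ∈ Finset.range N, z n + (z N - z 0) := by
    intro N
    have h1 : ∑ n ∈ Finset.range (N + 1), z n = ∑ n ∈ Finset.Icc 1 N, z n + z 0 := by
      rw [Finset.sum_range_succ']
      congr 1
      rw [Finset.range_eq_Ico, Finset.sum_Ico_add' (fun n => z n) 0 N 1]
      congr 1
    rw [Finset.sum_range_succ] at h1
    linarith
  constructor
  · intro h
    have := h.sub hd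
    rw [sub_zero] at this
    refine this.congr fun N => ?_
    rw [key N]; ring
  · intro h
    have := h.add hd
    rw [add_zero] at this
    refine this.congr fun N => ?_
    rw [key N]; ring

/-- **Sampling along `⌊n ^ α⌋`.** If `y` is equidistributed in a second countable locally compact
Hausdorff space, then for Lebesgue almost every `α ≥ 1` so is `y ⌊n ^ α⌋`. -/
theorem equidistributed_ae {X : Type*} [TopologicalSpace X] [LocallyCompactSpace X] [T2Space X]
    [SecondCountableTopology X] [MeasurableSpace X] [BorelSpace X] {μ : Measure X}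
    [IsProbabilityMeasure μ] {y : ℕ → X} (hy : Equidistributed μ y) :
    ∀ᵐ α : ℝ, 1 ≤ α → Equidistributed μ (fun n => y ⌊(n : ℝ) ^ α⌋₊) := by
  obtain ⟨F, hF, hd⟩ := exists_dense_family X
  have h1 : ∀ i, ∃ C : ℝ, ∀ x, |F i x| ≤ C := by
    intro i
    obtain ⟨C, hC⟩ := (hF i).1.bounded_above_of_compact_support (hF i).2
    exact ⟨C, fun x => by simpa [Real.norm_eq_abs] using hC x⟩
  choose C hC using h1
  have h2 : ∀ i, ∀ᵐ α : ℝ, 1 ≤ α → Tendsto (fun N : ℕ =>
      (∑ n ∈ Finset.Icc 1 N, F i (y ⌊(n : ℝ) ^ α⌋₊)) / (N : ℝ)) atTop (𝓝 (∫ p, F i p ∂μ)) := by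
    intro i
    have h3 := (cesaro_shift (z := fun n => F i (y n)) (fun n => hC i _)).1
      (hy (F i) (hF i).1 (hF i).2)
    filter_upwards [ae_power (z := fun n => F i (y n)) (fun n => hC i _) h3] with α hα h1α
    exact (cesaro_shift (z := fun n => F i (y ⌊(n : ℝ) ^ α⌋₊)) (fun n => hC i _)).2 (hα h1α)
  rw [← ae_all_iff] at h2
  filter_upwards [h2] with α hα h1α
  exact equidistributed_of_family hF hd fun i => hα i h1α

/-- **Orbits along `⌊n ^ α⌋`.** -/
theorem homogeneous_ae {G : Type*} [Group G] [TopologicalSpace G] [IsTopologicalGroup G]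
    [T2Space G] [LocallyCompactSpace G] (Γ : Subgroup G) [DiscreteTopology Γ]
    [SecondCountableTopology (G ⧸ Γ)] [MeasurableSpace (G ⧸ Γ)] [BorelSpace (G ⧸ Γ)]
    (μ : Measure (G ⧸ Γ)) [IsProbabilityMeasure μ] (u : ℝ → G) (x : G ⧸ Γ)
    (hx : Equidistributed μ fun n : ℕ => u (n : ℝ) • x) :
    ∀ᵐ α : ℝ, 1 < α → Equidistributed μ fun n : ℕ => u ((⌊(n : ℝ) ^ α⌋ : ℤ) : ℝ) • x := by
  have hcl : IsClosed (Γ : Set G) := Subgroup.isClosed_of_discrete
  filter_upwards [equidistributed_ae hx] with α hα h1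
  have h2 := hα h1.le
  refine (congrArg (Equidistributed μ) (funext fun n => ?_)).mp h2
  congr 2
  exact natCast_floor_eq_intCast_floor (by positivity)

end Marg
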