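import Pool.Agent.Marg.Cover
import Pool.Agent.Marg.Equi

/-!
# Hausdorff dimension of the exceptional set of exponents
-/

open Finset Real MeasureTheory Filter Topology
open scoped InnerProductSpace ENNReal NNReal

namespace Marg

variable {z : ℕ → ℝ}

/-- smoothed high frequency part of the average -/
noncomputable def GM (z : ℕ → ℝ) (b M : ℕ) (u : ℝ) : ℝ :=
  (∑ i ∈ range (M ^ De (b + 1)),
    band (fM z b M) (sc (b + 1) M (b + 1)) (sc (b + 1) M 0) (u + ll ((M ^ De (b + 1) + i : ℕ) : ℝ)))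
    / ((M ^ De (b + 1) : ℕ) : ℝ)

/-- rough part of the sum -/
noncomputable def AM (z : ℕ → ℝ) (b M : ℕ) (u : ℝ) : ℝ :=
  ∑ i ∈ range (M ^ De (b + 1)), rem0 z (ll ((M ^ De (b + 1) : ℕ) : ℝ) - 1)
    (log b + ll (2 * ((M ^ De (b + 1) : ℕ) : ℝ))) (sc (b + 1) M (b + 1))
    (u + ll ((M ^ De (b + 1) + i : ℕ) : ℝ))

lemma RM_eq (b M : ℕ) (u : ℝ) :
    RM z b M u = GM z b M u + AM z b M u / ((M ^ De (b + 1) : ℕ) : ℝ) := by
  unfold RM GM AM
  rw [← add_div, ← Finset.sum_add_distrib]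
  congr 1
  refine Finset.sum_congr rfl fun i _ => ?_
  unfold rem0 band fM
  ring

lemma GM_lip (hz : ∀ n, |z n| ≤ 1) {b M : ℕ} (hM : 1 ≤ M) (x y : ℝ) :
    |GM z b M x - GM z b M y| ≤ 4 / sc (b + 1) M (b + 1) * |x - y| := by
  have hBf : Bdd (fM z b M) := ft_bdd hz _ _
  have hs' := sc_pos hM (b + 1) (Q := b + 1)
  have hss : ∀ q : ℕ, sc (b + 1) M q ≤ sc (b + 1) M 0 := by
    intro q
    induction q with
    | zero => exact le_rfl
    | succ q ih => exact (sc_succ_le hM q).trans ih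
  have hN : (0 : ℝ) < ((M ^ De (b + 1) : ℕ) : ℝ) := by
    have : 0 < M ^ De (b + 1) := by positivity
    exact_mod_cast this
  unfold GM
  rw [← sub_div, ← Finset.sum_sub_distrib, abs_div, abs_of_pos hN, div_le_iff₀ hN]
  calc _ ≤ ∑ i ∈ range (M ^ De (b + 1)), _ := Finset.abs_sum_le_sum_abs _ _
    _ ≤ ∑ _i ∈ range (M ^ De (b + 1)), 4 / sc (b + 1) M (b + 1) * |x - y| := by
        refine Finset.sum_le_sum fun i _ => ?_
        have := hBf.band_lip hs' (hss (b + 1)) (x + ll ((M ^ De (b + 1) + i : ℕ) : ℝ))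
          (y + ll ((M ^ De (b + 1) + i : ℕ) : ℝ))
        rwa [add_sub_add_right_eq_sub] at this
    _ = 4 / sc (b + 1) M (b + 1) * |x - y| * ((M ^ De (b + 1) : ℕ) : ℝ) := by
        rw [Finset.sum_const, card_range, nsmul_eq_mul]; ring

theorem l2_bound_G (b : ℕ) (hb : 1 ≤ b) :
    ∃ K : ℝ, 0 ≤ K ∧ ∀ᶠ M : ℕ in atTop, ∀ z : ℕ → ℝ, (∀ n, |z n| ≤ 1) →
      Integrable (fun u => GM z b M u ^ 2) ∧ ∫ u, GM z b M u ^ 2 ≤ K / (M : ℝ) ^ 2 := by
  set Q := b + 1 with hQ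
  set LL : ℝ := log b + 2 with hLL
  obtain ⟨K, hK0, hK⟩ := band_bound famB_ll Q LL
  refine ⟨Q * (Q * K ^ 2), by positivity, ?_⟩
  filter_upwards [hK, eventually_ge_atTop 3] with M hKM hM3 z hz
  have hM1 : 1 ≤ M := by omega
  have hμ3 : (3 : ℝ) ≤ M := by exact_mod_cast hM3
  have hμ : (1 : ℝ) ≤ M := by linarith
  set N : ℕ := M ^ De Q with hN
  have hNr : ((N : ℕ) : ℝ) = (M : ℝ) ^ De Q := by rw [hN]; push_cast; rfl
  have hMN : (M : ℝ) ≤ (N : ℝ) := by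
    rw [hNr]
    exact le_self_pow₀ hμ (by unfold De; omega)
  have hN3 : (3 : ℝ) ≤ N := hμ3.trans hMN
  set v0 : ℝ := ll (N : ℝ) - 1 with hv0
  set v1 : ℝ := log b + ll (2 * (N : ℝ)) with hv1
  have hf : fM z b M = ft z v0 v1 := rfl
  have hlogb : 0 ≤ log (b : ℝ) := Real.log_nonneg (by exact_mod_cast hb)
  have hll1 : ll (N : ℝ) ≤ ll (2 * (N : ℝ)) := ll_mono hN3 (by linarith)
  have hv01 : v0 ≤ v1 := by linarith
  have hvLL : v1 - v0 ≤ LL := by
    have := ll_two_mul hN3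
    linarith
  have hBf : Bdd (ft z v0 v1) := ft_bdd hz v0 v1
  set t : ℕ → ℝ := fun i => ll ((N + i : ℕ) : ℝ) with ht
  have hcptB : ∀ q, Cpt (band (ft z v0 v1) (sc Q M (q + 1)) (sc Q M q)) v0 (v1 + sc Q M q) 2 :=
    fun q => hBf.band_cpt (sc_pos hM1 _) (sc_succ_le hM1 q) (ft_supp v0 v1)
  -- sums
  set B : ℕ → ℝ → ℝ := fun q u => ∑ i ∈ range N,
    band (ft z v0 v1) (sc Q M (q + 1)) (sc Q M q) (u + t i) with hB
  have hdecomp : ∀ u, GM z b M u = (∑ q ∈ range Q, B q u) / N := by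
    intro u
    unfold GM
    rw [hf]
    congr 1
    simp only [hB]
    rw [Finset.sum_comm]
    refine Finset.sum_congr rfl fun i _ => ?_
    unfold band
    rw [Finset.sum_range_sub (fun q => sm (ft z v0 v1) (sc Q M q) (u + t i))]
  have hN0 : (0 : ℝ) < N := by linarith
  have hBint : ∀ q, Integrable (fun u => B q u ^ 2) := fun q =>
    (hcptB q).integrable_sq_sum (range N) t
  have hB2 : ∀ q ∈ range Q, ∫ u, B q u ^ 2 ≤ (N : ℝ) ^ 2 * (K ^ 2 / (M : ℝ) ^ 2) := by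
    intro q hq
    have h1 := (hcptB q).norm_sum_sq (range N) t
    have h2 := hKM (ft z v0 v1) hBf v0 v1 hv01 hvLL (ft_supp v0 v1) q
      (by have := mem_range.1 hq; omega) (hcptB q)
    calc ∫ u, B q u ^ 2 = ‖∑ i ∈ range N, (hcptB q).φ (t i)‖ ^ 2 := h1.symm
      _ ≤ (K * (N : ℝ) / M) ^ 2 := by gcongr
      _ = (N : ℝ) ^ 2 * (K ^ 2 / (M : ℝ) ^ 2) := by ring
  -- pointwise inequality
  have hpt : ∀ u, GM z b M u ^ 2 ≤ (Q / (N : ℝ) ^ 2) * ∑ q ∈ range Q, B q u ^ 2 := by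
    intro u
    rw [hdecomp u, div_pow, div_mul_eq_mul_div]
    gcongr
    have h1 := sq_sum_le_card_mul_sum_sq (s := range Q) (f := fun q => B q u)
    rwa [card_range] at h1
  have hRint : Integrable (fun u => (Q / (N : ℝ) ^ 2) * ∑ q ∈ range Q, B q u ^ 2) := by
    apply Integrable.const_mul
    exact integrable_finsetSum _ fun q _ => hBint q
  have hGmeas : Measurable (GM z b M) := by
    have e : GM z b M = fun u => (∑ q ∈ range Q, B q u) / N := funext hdecomp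
    rw [e]
    apply Measurable.div_const
    exact Finset.measurable_sum _ fun q _ => Finset.measurable_sum _ fun i _ =>
        (hcptB q).meas.comp (measurable_id.add_const _)
  refine ⟨?_, ?_⟩
  · apply hRint.mono' (hGmeas.pow_const 2).aestronglyMeasurable
    refine Eventually.of_forall fun u => ?_
    rw [Real.norm_eq_abs, abs_of_nonneg (sq_nonneg _)]
    exact hpt u
  · calc ∫ u, GM z b M u ^ 2
        ≤ ∫ u, (Q / (N : ℝ) ^ 2) * ∑ q ∈ range Q, B q u ^ 2 := by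
          apply integral_mono_of_nonneg (Eventually.of_forall fun u => sq_nonneg _) hRint
          exact Eventually.of_forall hpt
      _ = (Q / (N : ℝ) ^ 2) * ∑ q ∈ range Q, ∫ u, B q u ^ 2 := by
          rw [integral_const_mul, integral_finsetSum _ fun q _ => hBint q]
      _ ≤ (Q / (N : ℝ) ^ 2) * ∑ _q ∈ range Q, (N : ℝ) ^ 2 * (K ^ 2 / (M : ℝ) ^ 2) := by
          have := Finset.sum_le_sum hB2
          gcongr
      _ = Q * (Q * K ^ 2) / (M : ℝ) ^ 2 := by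
          rw [Finset.sum_const, card_range, nsmul_eq_mul]
          field_simp

/-- the dimension bound -/
noncomputable def sg (b : ℕ) : ℝ := 1 - 1 / (2 * De (b + 1) * (b + 2))

lemma sg_aux (b : ℕ) : (2 : ℝ) ≤ 2 * De (b + 1) * (b + 2) := by
  have h1 : (1 : ℝ) ≤ De (b + 1) := by
    have : 1 ≤ De (b + 1) := by unfold De; omega
    exact_mod_cast this
  have h2 : (0 : ℝ) ≤ b := Nat.cast_nonneg b
  nlinarith

lemma sg_lt_one (b : ℕ) : sg b < 1 := by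
  have := sg_aux b
  unfold sg
  have : (0 : ℝ) < 1 / (2 * De (b + 1) * (b + 2)) := by positivity
  linarith

lemma sg_pos (b : ℕ) : 0 < sg b := by
  have h := sg_aux b
  unfold sg
  have : 1 / (2 * (De (b + 1) : ℝ) * (b + 2)) ≤ 1 / 2 := by
    apply one_div_le_one_div_of_le (by norm_num) h
  linarith

lemma sc_rpow {b M : ℕ} (hM : 1 ≤ M) :
    sc (b + 1) M (b + 1) ^ (sg b - 1) ≤ (M : ℝ) ^ ((1 : ℝ) / 2) := by
  have hμ : (1 : ℝ) ≤ M := by exact_mod_cast hM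
  have hμ0 : (0 : ℝ) < M := by linarith
  have h1 : ((M : ℝ) ^ (De (b + 1) * (b + 2)))⁻¹ ≤ sc (b + 1) M (b + 1) := by
    unfold sc
    rw [← pow_mul, ← one_div]
    gcongr
    exact one_le_pow₀ hμ
  have h2 : sc (b + 1) M (b + 1) ^ (sg b - 1) ≤ (((M : ℝ) ^ (De (b + 1) * (b + 2)))⁻¹) ^ (sg b - 1) :=
    Real.rpow_le_rpow_of_nonpos (by positivity) h1 (by have := sg_lt_one b; linarith)
  refine h2.trans (le_of_eq ?_)
  rw [Real.inv_rpow (by positivity), ← Real.rpow_neg (by positivity), ← Real.rpow_natCast,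
    ← Real.rpow_mul hμ0.le]
  congr 1
  unfold sg
  have h3 : (De (b + 1) : ℝ) ≠ 0 := by
    have : De (b + 1) ≠ 0 := by unfold De; omega
    exact_mod_cast this
  have h4 : (b : ℝ) + 2 ≠ 0 := by positivity
  push_cast
  field_simp
  ring

theorem hcont_RM (b : ℕ) (hb : 1 ≤ b) {ε : ℝ} (hε : 0 < ε) :
    ∃ C : ℝ, 0 ≤ C ∧ ∀ᶠ M : ℕ in atTop, ∀ z : ℕ → ℝ, (∀ n, |z n| ≤ 1) →
      hcont (sg b) (sg_pos b) {u | 0 ≤ u ∧ u ≤ log b ∧ ε < |RM z b M u|}
        ≤ ENNReal.ofReal (C * (M : ℝ) ^ (-(3 / 2) : ℝ)) := by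
  obtain ⟨K, hK0, hK⟩ := l2_bound_G b hb
  refine ⟨4 * K / ε ^ 2 * (ε / 8) ^ (sg b - 1) + 4 * 2 ^ b, by positivity, ?_⟩
  filter_upwards [hK, eventually_ge_atTop 3] with M hKM hM3 z hz
  have hM1 : 1 ≤ M := by omega
  have hμ3 : (3 : ℝ) ≤ M := by exact_mod_cast hM3
  have hμ : (1 : ℝ) ≤ M := by linarith
  have hμ0 : (0 : ℝ) < M := by linarith
  obtain ⟨hGi, hGI⟩ := hKM z hz
  have hs := sc_pos hM1 (b + 1) (Q := b + 1)
  have hscr := sc_rpow (b := b) hM1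
  set s := sc (b + 1) M (b + 1) with hsdef
  have hexp : (M : ℝ) ^ (-(3 / 2) : ℝ) = (M : ℝ) ^ ((1 : ℝ) / 2) / (M : ℝ) ^ 2 := by
    rw [← Real.rpow_natCast, ← Real.rpow_sub hμ0]
    norm_num
  -- part one
  have h1 : hcont (sg b) (sg_pos b) {u | 0 ≤ u ∧ u ≤ log b ∧ ε < |GM z b M u|}
      ≤ ENNReal.ofReal ((4 * K / ε ^ 2 * (ε / 8) ^ (sg b - 1)) * (M : ℝ) ^ (-(3 / 2) : ℝ)) := by
    refine (hcont_superlevel (h := ε * s / 8) (Lc := 4 / s) (by positivity) hε (by positivity)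
      (GM_lip hz hM1) hGi hGI ?_).trans ?_
    · apply le_of_eq
      field_simp
      norm_num
    · apply ENNReal.ofReal_le_ofReal
      have e1 : ε * s / 8 = (ε / 8) * s := by ring
      rw [e1, Real.mul_rpow (by positivity) hs.le, hexp]
      calc 4 * (K / (M : ℝ) ^ 2) / ε ^ 2 * ((ε / 8) ^ (sg b - 1) * s ^ (sg b - 1))
          ≤ 4 * (K / (M : ℝ) ^ 2) / ε ^ 2 * ((ε / 8) ^ (sg b - 1) * (M : ℝ) ^ ((1 : ℝ) / 2)) := by
            gcongr
        _ = _ := by ring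
  -- part two
  set N : ℕ := M ^ De (b + 1) with hN
  have hNr : ((N : ℕ) : ℝ) = (M : ℝ) ^ De (b + 1) := by rw [hN]; push_cast; rfl
  have hMN : (M : ℝ) ≤ (N : ℝ) := by
    rw [hNr]
    exact le_self_pow₀ hμ (by unfold De; omega)
  have hN3 : (3 : ℝ) ≤ N := hμ3.trans hMN
  have hN0 : (0 : ℝ) < N := by linarith
  set v1 : ℝ := log b + ll (2 * (N : ℝ)) with hv1
  have hKexp : exp (exp v1) ≤ (((2 * N) ^ b : ℕ) : ℝ) := by
    have hl : 0 < log (2 * (N : ℝ)) := Real.log_pos (by linarith)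
    have : exp v1 = b * log (2 * (N : ℝ)) := by
      rw [hv1, Real.exp_add, Real.exp_log (by exact_mod_cast hb)]
      unfold ll
      rw [Real.exp_log hl]
    rw [this, Real.exp_nat_mul, Real.exp_log (by linarith)]
    push_cast
    exact le_rfl
  have h2 : hcont (sg b) (sg_pos b) {u | AM z b M u ≠ 0}
      ≤ ENNReal.ofReal ((4 * 2 ^ b) * (M : ℝ) ^ (-(3 / 2) : ℝ)) := by
    refine (hcont_badset hz hs hKexp (fun i => ll ((N + i : ℕ) : ℝ))).trans ?_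
    apply ENNReal.ofReal_le_ofReal
    have e1 : s ^ sg b = s * s ^ (sg b - 1) := by
      rw [Real.rpow_sub_one hs.ne']; field_simp
    have h6 : ((((2 * N) ^ b : ℕ) : ℝ) + 3) ≤ 4 * 2 ^ b * (N : ℝ) ^ b := by
      push_cast
      rw [mul_pow]
      have : (1 : ℝ) ≤ 2 ^ b * (N : ℝ) ^ b := by
        rw [← mul_pow]; exact one_le_pow₀ (by linarith)
      nlinarith
    have h7 : s = (M : ℝ) ^ th (b + 1) (b + 1) / (N : ℝ) ^ (b + 2) := by
      rw [hsdef]; unfold sc; rw [hNr]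
    have h8 : (M : ℝ) ^ th (b + 1) (b + 1) * (M : ℝ) ^ 2 ≤ N := by
      rw [hNr, ← pow_add]
      apply pow_le_pow_right₀ hμ
      unfold De
      omega
    rw [e1, hexp]
    calc (N : ℝ) * ((((2 * N) ^ b : ℕ) : ℝ) + 3) * (s * s ^ (sg b - 1))
        ≤ N * (4 * 2 ^ b * (N : ℝ) ^ b) * (s * (M : ℝ) ^ ((1 : ℝ) / 2)) := by gcongr
      _ = 4 * 2 ^ b * ((M : ℝ) ^ th (b + 1) (b + 1) / N) * (M : ℝ) ^ ((1 : ℝ) / 2) := by
          rw [h7, pow_add]; field_simp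
      _ ≤ 4 * 2 ^ b * (1 / (M : ℝ) ^ 2) * (M : ℝ) ^ ((1 : ℝ) / 2) := by
          gcongr 4 * 2 ^ b * ?_ * _
          rw [div_le_div_iff₀ hN0 (by positivity), one_mul]
          exact h8
      _ = 4 * 2 ^ b * ((M : ℝ) ^ ((1 : ℝ) / 2) / (M : ℝ) ^ 2) := by ring
  have hsub : {u | 0 ≤ u ∧ u ≤ log b ∧ ε < |RM z b M u|}
      ⊆ {u | 0 ≤ u ∧ u ≤ log b ∧ ε < |GM z b M u|} ∪ {u | AM z b M u ≠ 0} := by
    rintro u ⟨h3, h4, h5⟩
    by_cases hA : AM z b M u = 0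
    · left
      rw [RM_eq, hA, zero_div, add_zero] at h5
      exact ⟨h3, h4, h5⟩
    · right; exact hA
  refine (measure_mono hsub).trans ((measure_union_le _ _).trans ((add_le_add h1 h2).trans ?_))
  rw [← ENNReal.ofReal_add (by positivity) (by positivity)]
  apply ENNReal.ofReal_le_ofReal
  apply le_of_eq
  ring

theorem hcont_RM_zero (hz : ∀ n, |z n| ≤ 1) {b : ℕ} (hb : 1 ≤ b) :
    hcont (sg b) (sg_pos b)
      {u | 0 ≤ u ∧ u ≤ log b ∧ ¬ Tendsto (fun M : ℕ => RM z b M u) atTop (𝓝 0)} = 0 := by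
  have key : ∀ ε : ℝ, 0 < ε → hcont (sg b) (sg_pos b)
      {u | ∃ᶠ M : ℕ in atTop, 0 ≤ u ∧ u ≤ log b ∧ ε < |RM z b M u|} = 0 := by
    intro ε hε
    obtain ⟨C, hC0, hC⟩ := hcont_RM b hb hε
    obtain ⟨M0, hM0⟩ := eventually_atTop.1 hC
    have hsum : Summable (fun M : ℕ => C * ((M + M0 : ℕ) : ℝ) ^ (-(3 / 2) : ℝ)) := by
      apply Summable.mul_left
      have h2 : Summable (fun M : ℕ => (M : ℝ) ^ (-(3 / 2) : ℝ)) := by
        rw [Real.summable_nat_rpow]; norm_num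
      exact (summable_nat_add_iff (f := fun M : ℕ => (M : ℝ) ^ (-(3 / 2) : ℝ)) M0).2 h2
    have h3 : ∑' M : ℕ, hcont (sg b) (sg_pos b)
        {u | 0 ≤ u ∧ u ≤ log b ∧ ε < |RM z b (M + M0) u|} ≠ ⊤ := by
      refine ne_top_of_le_ne_top ?_ (ENNReal.tsum_le_tsum fun M => hM0 (M + M0) (by omega) z hz)
      rw [← ENNReal.ofReal_tsum_of_nonneg (fun M => by positivity) hsum]
      exact ENNReal.ofReal_ne_top
    have h4 := measure_limsup_atTop_eq_zero h3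
    refine measure_mono_null ?_ h4
    intro u hu
    rw [mem_limsup_iff_frequently_mem]
    have hu' : ∃ᶠ M : ℕ in atTop, 0 ≤ u ∧ u ≤ log b ∧ ε < |RM z b M u| := hu
    rw [frequently_atTop] at hu' ⊢
    intro a
    obtain ⟨M, hM, hM2⟩ := hu' (a + M0)
    refine ⟨M - M0, by omega, ?_⟩
    have : M - M0 + M0 = M := by omega
    simp only [Set.mem_setOf_eq, this]
    exact hM2
  have hsub : {u | 0 ≤ u ∧ u ≤ log b ∧ ¬ Tendsto (fun M : ℕ => RM z b M u) atTop (𝓝 0)}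
      ⊆ ⋃ k : ℕ, {u | ∃ᶠ M : ℕ in atTop, 0 ≤ u ∧ u ≤ log b ∧ 1 / ((k : ℝ) + 1) < |RM z b M u|} := by
    rintro u ⟨h1, h2, h3⟩
    rw [Set.mem_iUnion]
    by_contra hcon
    push Not at hcon
    apply h3
    rw [Metric.tendsto_atTop]
    intro ε hε
    obtain ⟨k, hk⟩ := exists_nat_one_div_lt hε
    have h4 : ¬ ∃ᶠ M : ℕ in atTop, 0 ≤ u ∧ u ≤ log b ∧ 1 / ((k : ℝ) + 1) < |RM z b M u| := hcon k
    rw [not_frequently, eventually_atTop] at h4
    obtain ⟨M0, hM0⟩ := h4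
    refine ⟨M0, fun M hM => ?_⟩
    have h5 := hM0 M hM
    rw [Real.dist_eq, sub_zero]
    by_contra h6
    push Not at h6
    exact h5 ⟨h1, h2, hk.trans_le h6⟩
  refine measure_mono_null hsub ?_
  rw [measure_iUnion_null_iff]
  intro k
  exact key _ (by positivity)

/-- convergence of the high frequency part implies convergence of the averages -/
theorem conv_of_RM (hz : ∀ n, |z n| ≤ 1)
    (hc : Tendsto (fun n : ℕ => (∑ k ∈ range n, z k) / (n : ℝ)) atTop (𝓝 0))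
    {b : ℕ} (hb1 : 1 ≤ b) {u : ℝ} (hu0 : 0 ≤ u) (hub : u ≤ log b)
    (hu : Tendsto (fun M : ℕ => RM z b M u) atTop (𝓝 0)) :
    Tendsto (fun n : ℕ => (∑ k ∈ range n, z ⌊(k : ℝ) ^ exp u⌋₊) / (n : ℝ)) atTop (𝓝 0) := by
  have hβ : 1 ≤ exp u := Real.one_le_exp hu0
  have hDe : 1 ≤ De (b + 1) := by unfold De; omega
  have hI : Tendsto (fun M : ℕ => (∫ x in ((M ^ De (b + 1) : ℕ) : ℝ)..(2 * ((M ^ De (b + 1) : ℕ) : ℝ)),
      zf z (x ^ exp u)) / ((M ^ De (b + 1) : ℕ) : ℝ)) atTop (𝓝 0) :=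
    (power_avg_tendsto hz hc hβ).comp (tendsto_pow_atTop (by omega))
  have hE : Tendsto (fun M : ℕ => TM z b M u - RM z b M u
      - (∫ x in ((M ^ De (b + 1) : ℕ) : ℝ)..(2 * ((M ^ De (b + 1) : ℕ) : ℝ)), zf z (x ^ exp u))
        / ((M ^ De (b + 1) : ℕ) : ℝ)) atTop (𝓝 0) := by
    apply squeeze_zero_norm' (a := fun M : ℕ => 6 / (M : ℝ))
    · filter_upwards [pointwise hz hb1 hu0 hub] with M hM
      rw [Real.norm_eq_abs]; exact hM
    · exact tendsto_const_nhds.div_atTop tendsto_natCast_atTop_atTop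
  have hT : Tendsto (fun M : ℕ => TM z b M u) atTop (𝓝 0) := by
    have := (hE.add hI).add hu
    simp only [add_zero] at this
    refine this.congr fun M => ?_
    ring
  apply block_to_full (w := fun k => z ⌊(k : ℝ) ^ exp u⌋₊) (fun n => hz _) hDe
  refine hT.congr' ?_
  filter_upwards [eventually_ge_atTop 3] with M hM
  unfold TM
  congr 1
  refine Finset.sum_congr rfl fun i _ => ?_
  have h3 : (3 : ℝ) ≤ ((M ^ De (b + 1) + i : ℕ) : ℝ) := by
    have : M ≤ M ^ De (b + 1) := Nat.le_self_pow (by omega) M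
    have : 3 ≤ M ^ De (b + 1) + i := by omega
    exact_mod_cast this
  unfold ZZ zf
  rw [ll_exp h3]

/-- the dimension bound as a nonnegative real -/
noncomputable def sgN (b : ℕ) : ℝ≥0 := ⟨sg b, (sg_pos b).le⟩

lemma sgN_lt_one (b : ℕ) : sgN b < 1 := by
  rw [← NNReal.coe_lt_coe]
  exact sg_lt_one b

/-- **Dimension bound for bounded sequences.** -/
theorem dim_power {z : ℕ → ℝ} {C : ℝ} (hz : ∀ n, |z n| ≤ C) {L : ℝ}
    (hc : Tendsto (fun n : ℕ => (∑ k ∈ range n, z k) / (n : ℝ)) atTop (𝓝 L)) {b : ℕ} (hb : 1 ≤ b) :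
    dimH {α : ℝ | 1 ≤ α ∧ α ≤ b ∧
      ¬ Tendsto (fun n : ℕ => (∑ k ∈ range n, z ⌊(k : ℝ) ^ α⌋₊) / (n : ℝ)) atTop (𝓝 L)}
      ≤ sgN b := by
  set B : ℝ := C + |L| + 1 with hB
  have hC : 0 ≤ C := (abs_nonneg _).trans (hz 0)
  have hB0 : 0 < B := by positivity
  set y : ℕ → ℝ := fun n => (z n - L) / B with hy
  have hyb : ∀ n, |y n| ≤ 1 := by
    intro n
    simp only [hy]
    rw [abs_div, abs_of_pos hB0, div_le_one hB0]
    refine (abs_sub _ _).trans ?_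
    linarith [hz n]
  have key : ∀ w : ℕ → ℕ, ∀ n : ℕ, 0 < n → (∑ k ∈ range n, y (w k)) / (n : ℝ)
      = ((∑ k ∈ range n, z (w k)) / (n : ℝ) - L) / B := by
    intro w n hn
    have hn' : (n : ℝ) ≠ 0 := by positivity
    simp only [hy]
    rw [← Finset.sum_div, Finset.sum_sub_distrib, Finset.sum_const, card_range, nsmul_eq_mul]
    field_simp
  have hyc : Tendsto (fun n : ℕ => (∑ k ∈ range n, y k) / (n : ℝ)) atTop (𝓝 0) := by
    have h1 : Tendsto (fun n : ℕ => ((∑ k ∈ range n, z k) / (n : ℝ) - L) / B) atTop (𝓝 0) := by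
      have := (hc.sub_const L).div_const B
      simpa using this
    refine h1.congr' ?_
    filter_upwards [eventually_gt_atTop 0] with n hn
    exact (key id n hn).symm
  set S : Set ℝ := {u | 0 ≤ u ∧ u ≤ log b ∧ ¬ Tendsto (fun M : ℕ => RM y b M u) atTop (𝓝 0)} with hS
  have hdS : dimH S ≤ sgN b :=
    dimH_le_of_hcont (σ := sgN b) (hσ := sg_pos b) (hcont_RM_zero hyb hb)
  have himg : dimH (exp '' S) ≤ dimH S := by
    apply ContDiffOn.dimH_image_le (s := Set.univ) (Real.contDiff_exp.contDiffOn) convex_univ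
      (Set.subset_univ _)
  refine (dimH_mono ?_).trans (himg.trans hdS)
  rintro α ⟨h1, h2, h3⟩
  have hα0 : 0 < α := by linarith
  refine ⟨log α, ⟨Real.log_nonneg h1, Real.log_le_log hα0 h2, ?_⟩, Real.exp_log hα0⟩
  intro hT
  apply h3
  have h4 := conv_of_RM hyb hyc hb (Real.log_nonneg h1) (Real.log_le_log hα0 h2) hT
  rw [Real.exp_log hα0] at h4
  have h5 : Tendsto (fun n : ℕ => B * ((∑ k ∈ range n, y ⌊(k : ℝ) ^ α⌋₊) / (n : ℝ)) + L)
      atTop (𝓝 L) := by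
    have := (h4.const_mul B).add_const L
    simpa using this
  refine h5.congr' ?_
  filter_upwards [eventually_gt_atTop 0] with n hn
  rw [key (fun k => ⌊(k : ℝ) ^ α⌋₊) n hn]
  field_simp
  ring

/-- **Dimension bound for equidistributed sequences.** -/
theorem equidistributed_dim {X : Type*} [TopologicalSpace X] [LocallyCompactSpace X] [T2Space X]
    [SecondCountableTopology X] [MeasurableSpace X] [BorelSpace X] {μ : Measure X}
    [IsProbabilityMeasure μ] {y : ℕ → X} (hy : Equidistributed μ y) {b : ℕ} (hb : 1 ≤ b) :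
    dimH {α : ℝ | 1 ≤ α ∧ α ≤ b ∧ ¬ Equidistributed μ (fun n => y ⌊(n : ℝ) ^ α⌋₊)} ≤ sgN b := by
  obtain ⟨F, hF, hd⟩ := exists_dense_family X
  have h1 : ∀ i, ∃ C : ℝ, ∀ x, |F i x| ≤ C := by
    intro i
    obtain ⟨C, hC⟩ := (hF i).1.bounded_above_of_compact_support (hF i).2
    exact ⟨C, fun x => by simpa [Real.norm_eq_abs] using hC x⟩
  choose C hC using h1
  have hsub : {α : ℝ | 1 ≤ α ∧ α ≤ b ∧ ¬ Equidistributed μ (fun n => y ⌊(n : ℝ) ^ α⌋₊)}
      ⊆ ⋃ i : ℕ, {α : ℝ | 1 ≤ α ∧ α ≤ b ∧ ¬ Tendsto (fun N : ℕ =>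
      (∑ n ∈ Finset.range N, F i (y ⌊(n : ℝ) ^ α⌋₊)) / (N : ℝ)) atTop (𝓝 (∫ p, F i p ∂μ))} := by
    rintro α ⟨h2, h3, h4⟩
    rw [Set.mem_iUnion]
    by_contra hcon
    push Not at hcon
    apply h4
    refine equidistributed_of_family hF hd fun i => ?_
    rw [cesaro_shift (z := fun n => F i (y ⌊(n : ℝ) ^ α⌋₊)) (fun n => hC i _)]
    by_contra h5
    exact hcon i ⟨h2, h3, h5⟩
  refine (dimH_mono hsub).trans ?_
  rw [dimH_iUnion]
  apply iSup_le
  intro i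
  have h3 := (cesaro_shift (z := fun n => F i (y n)) (fun n => hC i _)).1
    (hy (F i) (hF i).1 (hF i).2)
  exact dim_power (z := fun n => F i (y n)) (fun n => hC i _) h3 hb

/-- **Dimension bound for orbits in homogeneous spaces.** -/
theorem homogeneous_dim (A : ℝ) : ∃ σ : ℝ≥0, σ < 1 ∧
    ∀ {G : Type*} [Group G] [TopologicalSpace G] [IsTopologicalGroup G] [T2Space G]
      [LocallyCompactSpace G] (Γ : Subgroup G) [DiscreteTopology Γ]
      [SecondCountableTopology (G ⧸ Γ)] [MeasurableSpace (G ⧸ Γ)] [BorelSpace (G ⧸ Γ)]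
      (μ : Measure (G ⧸ Γ)) [IsProbabilityMeasure μ] (u : ℝ → G) (x : G ⧸ Γ),
      (Equidistributed μ fun n : ℕ => u (n : ℝ) • x) →
      dimH {α : ℝ | 1 < α ∧ α ≤ A ∧
        ¬ Equidistributed μ fun n : ℕ => u ((⌊(n : ℝ) ^ α⌋ : ℤ) : ℝ) • x} ≤ σ := by
  set b : ℕ := max 1 ⌈A⌉₊ with hb
  refine ⟨sgN b, sgN_lt_one b, ?_⟩
  intro G _ _ _ _ _ Γ _ _ _ _ μ _ u x hx
  have hcl : IsClosed (Γ : Set G) := Subgroup.isClosed_of_discrete
  refine (dimH_mono ?_).trans (equidistributed_dim hx (le_max_left 1 ⌈A⌉₊))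
  rintro α ⟨h1, h2, h3⟩
  refine ⟨h1.le, h2.trans ((Nat.le_ceil A).trans (by exact_mod_cast le_max_right _ _)), ?_⟩
  intro h4
  apply h3
  refine (congrArg (Equidistributed μ) (funext fun n => ?_)).mp h4
  congr 2
  exact natCast_floor_eq_intCast_floor (by positivity)

end Marg
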