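import Pool.Agent.Marg.Hilbert

/-!
# Families of iterated derivatives and iterated differences
-/

open Finset Real
open scoped InnerProductSpace

namespace Marg

/-- `D 0, D 1, ...` are the successive derivatives (up to alternating sign) of the derivative
`D 0` of `ℓ`, all nonnegative on `[x0, ∞)`. -/
structure Fam (ℓ : ℝ → ℝ) (D : ℕ → ℝ → ℝ) (x0 : ℝ) : Prop where
  deriv0 : ∀ x, x0 ≤ x → HasDerivAt ℓ (D 0 x) x
  deriv : ∀ j x, x0 ≤ x → HasDerivAt (D j) (-(D (j + 1) x)) x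
  pos : ∀ j x, x0 ≤ x → 0 < D j x

lemma antitone_of_deriv {f f' : ℝ → ℝ} {x0 : ℝ} (h : ∀ x, x0 ≤ x → HasDerivAt f (-(f' x)) x)
    (h0 : ∀ x, x0 ≤ x → 0 ≤ f' x) : AntitoneOn f (Set.Ici x0) := by
  apply antitoneOn_of_deriv_nonpos (convex_Ici x0)
  · intro x hx; exact (h x hx).continuousAt.continuousWithinAt
  · intro x hx
    have hx' : x0 ≤ x := interior_subset hx
    exact (h x hx').differentiableAt.differentiableWithinAt
  · intro x hx
    have hx' : x0 ≤ x := interior_subset hx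
    rw [(h x hx').deriv]
    linarith [h0 x hx']

lemma Fam.anti {ℓ : ℝ → ℝ} {D : ℕ → ℝ → ℝ} {x0 : ℝ} (F : Fam ℓ D x0) (j : ℕ) :
    AntitoneOn (D j) (Set.Ici x0) :=
  antitone_of_deriv (F.deriv j) (fun x hx => (F.pos (j + 1) x hx).le)

/-- A family with quantitative bounds. -/
structure FamB (ℓ : ℝ → ℝ) (D : ℕ → ℝ → ℝ) (x0 : ℝ) (C : ℕ → ℝ) : Prop extends Fam ℓ D x0 where
  one_le : 1 ≤ x0
  upper : ∀ j x, x0 ≤ x → D j x ≤ C j / x ^ (j + 1)
  lower : ∀ j x, x0 ≤ x → 1 / (x ^ (j + 1) * log x) ≤ D j x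

/-- `g` behaves like a `q`-fold difference of `ℓ` with product of steps `P` and sum of steps `σ`. -/
def Good (D : ℕ → ℝ → ℝ) (x0 : ℝ) (q : ℕ) (P σ : ℝ) (g : ℝ → ℝ) (E : ℕ → ℝ → ℝ) : Prop :=
  (∀ x, x0 ≤ x → HasDerivAt g ((-1) ^ q * E 0 x) x) ∧
  (∀ j x, x0 ≤ x → HasDerivAt (E j) (-(E (j + 1) x)) x) ∧
  (∀ j x, x0 ≤ x → P * D (q + j) (x + σ) ≤ E j x ∧ E j x ≤ P * D (q + j) x)

lemma good_zero {ℓ : ℝ → ℝ} {D : ℕ → ℝ → ℝ} {x0 : ℝ} (F : Fam ℓ D x0) :
    Good D x0 0 1 0 ℓ D := by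
  refine ⟨fun x hx => by simpa using F.deriv0 x hx, F.deriv, fun j x hx => by simp⟩

lemma good_succ {ℓ : ℝ → ℝ} {D : ℕ → ℝ → ℝ} {x0 : ℝ} (F : Fam ℓ D x0) {q : ℕ} {P σ : ℝ}
    {g : ℝ → ℝ} {E : ℕ → ℝ → ℝ} (hP : 0 ≤ P) (hσ : 0 ≤ σ) (hg : Good D x0 q P σ g E)
    {h : ℝ} (hh : 0 < h) :
    Good D x0 (q + 1) (P * h) (σ + h) (fun x => g (x + h) - g x)
      (fun j x => E j x - E j (x + h)) := by
  obtain ⟨h1, h2, h3⟩ := hg
  have hshift : ∀ {f : ℝ → ℝ} {f' x : ℝ}, HasDerivAt f f' (x + h) →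
      HasDerivAt (fun y => f (y + h)) f' x := by
    intro f f' x hf
    exact hf.comp_add_const x h
  refine ⟨?_, ?_, ?_⟩
  · intro x hx
    have := (hshift (h1 (x + h) (by linarith))).sub (h1 x hx)
    refine this.congr_deriv ?_
    simp only [pow_succ]
    ring
  · intro j x hx
    have := (h2 j x hx).sub (hshift (h2 j (x + h) (by linarith)))
    refine this.congr_deriv ?_
    ring
  · intro j x hx
    -- mean value theorem
    obtain ⟨ξ, hξ, hval⟩ : ∃ ξ ∈ Set.Ioo x (x + h),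
        -(E (j + 1) ξ) = (E j (x + h) - E j x) / (x + h - x) := by
      apply exists_hasDerivAt_eq_slope (E j) (fun y => -(E (j + 1) y)) (by linarith)
      · intro y hy
        exact (h2 j y (by linarith [hy.1])).continuousAt.continuousWithinAt
      · intro y hy
        exact h2 j y (by linarith [hy.1])
    have hval' : E j x - E j (x + h) = h * E (j + 1) ξ := by
      have : x + h - x = h := by ring
      rw [this] at hval
      field_simp at hval
      linarith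
    have hξ0 : x0 ≤ ξ := by linarith [hξ.1]
    obtain ⟨h4, h5⟩ := h3 (j + 1) ξ hξ0
    have e : q + (j + 1) = q + 1 + j := by ring
    rw [e] at h4 h5
    have a1 : D (q + 1 + j) ξ ≤ D (q + 1 + j) x :=
      F.anti _ (Set.mem_Ici.2 hx) (Set.mem_Ici.2 hξ0) hξ.1.le
    have a2 : D (q + 1 + j) (x + (σ + h)) ≤ D (q + 1 + j) (ξ + σ) :=
      F.anti _ (Set.mem_Ici.2 (by linarith)) (Set.mem_Ici.2 (by linarith)) (by linarith [hξ.2])
    constructor
    · show _ ≤ E j x - E j (x + h)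
      rw [hval']
      calc P * h * D (q + 1 + j) (x + (σ + h)) ≤ P * h * D (q + 1 + j) (ξ + σ) := by gcongr
        _ = h * (P * D (q + 1 + j) (ξ + σ)) := by ring
        _ ≤ h * E (j + 1) ξ := by gcongr
    · show E j x - E j (x + h) ≤ _
      rw [hval']
      calc h * E (j + 1) ξ ≤ h * (P * D (q + 1 + j) ξ) := by gcongr
        _ ≤ h * (P * D (q + 1 + j) x) := by gcongr
        _ = P * h * D (q + 1 + j) x := by ring

variable {H : Type*} [NormedAddCommGroup H] [InnerProductSpace ℝ H]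

/-- Iterated van der Corput. -/
theorem iter {ℓ : ℝ → ℝ} {D : ℕ → ℝ → ℝ} {x0 : ℝ} (F : Fam ℓ D x0)
    (φ : ℝ → H) (hφ : ∀ s t, ⟪φ s, φ t⟫_ℝ = ⟪φ 0, φ (t - s)⟫_ℝ)
    {Λ : ℝ} (hΛ : ‖φ 0‖ ≤ Λ) {N m R q : ℕ} (hR : 0 < R) (hm : 0 < m)
    (W : ℕ → ℝ) (hW0 : ∀ k, 0 ≤ W k)
    (hfin : ∀ g E P σ (A : ℕ), Good D x0 q P σ g E → (m : ℝ) ^ q ≤ P → P ≤ (m * R : ℝ) ^ q →
      0 ≤ σ → σ ≤ q * (m * R) → N ≤ A → A ≤ N + q * (m * R) →
      ‖∑ i ∈ range N, φ (g ((A + i : ℕ) : ℝ))‖ ≤ W 0)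
    (hW : ∀ k < q, 2 * (m * R) * Λ + √((N : ℝ) ^ 2 * Λ ^ 2 / R + N * Λ * W k) ≤ W (k + 1)) :
    ∀ k p, p + k = q → ∀ g E P σ (A : ℕ), Good D x0 p P σ g E → (m : ℝ) ^ p ≤ P →
      P ≤ (m * R : ℝ) ^ p → 0 ≤ σ → σ ≤ p * (m * R) → N ≤ A → A ≤ N + p * (m * R) →
      ‖∑ i ∈ range N, φ (g ((A + i : ℕ) : ℝ))‖ ≤ W k := by
  intro k
  induction k with
  | zero =>
    intro p hp
    have : p = q := by omega
    subst this
    exact hfin
  | succ k ih =>
    intro p hp g E P σ A hg hP1 hP2 hσ0 hσ hA1 hA2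
    have hΛ0 : 0 ≤ Λ := (norm_nonneg _).trans hΛ
    refine (vdc φ hφ hΛ (fun i => g ((A + i : ℕ) : ℝ)) N m R hR (hW0 k) ?_).trans
      (hW k (by omega))
    intro r hr j hj1 hj2
    have hP0 : 0 ≤ P := le_trans (by positivity) hP1
    have hh : (0 : ℝ) < (m * j : ℕ) := by
      have : 0 < m * j := Nat.mul_pos hm (by omega)
      exact_mod_cast this
    have key := ih (p + 1) (by omega) (fun x => g (x + (m * j : ℕ)) - g x) _ (P * (m * j : ℕ))
      (σ + (m * j : ℕ)) (A + m * r) (good_succ F hP0 hσ0 hg hh) ?_ ?_ ?_ ?_ ?_ ?_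
    · refine le_trans (le_of_eq ?_) key
      congr 1
      refine Finset.sum_congr rfl fun i _ => ?_
      congr 1
      have e1 : ((A + (i + m * r + m * j) : ℕ) : ℝ) = ((A + m * r + i : ℕ) : ℝ) + (m * j : ℕ) := by
        push_cast; ring
      have e2 : ((A + (i + m * r) : ℕ) : ℝ) = ((A + m * r + i : ℕ) : ℝ) := by
        push_cast; ring
      simp only [e1, e2]
    · rw [pow_succ]
      have : (m : ℝ) ≤ (m * j : ℕ) := by
        have : m ≤ m * j := Nat.le_mul_of_pos_right m (by omega)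
        exact_mod_cast this
      exact mul_le_mul hP1 this (by positivity) hP0
    · rw [pow_succ]
      have : ((m * j : ℕ) : ℝ) ≤ (m * R : ℝ) := by
        push_cast
        have : (j : ℝ) ≤ R := by exact_mod_cast hj2.le
        gcongr
      exact mul_le_mul hP2 this (by positivity) (by positivity)
    · positivity
    · have : ((m * j : ℕ) : ℝ) ≤ (m * R : ℝ) := by
        push_cast
        have : (j : ℝ) ≤ R := by exact_mod_cast hj2.le
        gcongr
      push_cast at this ⊢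
      linarith
    · omega
    · have : m * r ≤ m * R := Nat.mul_le_mul_left m hr.le
      have : (p + 1) * (m * R) = p * (m * R) + m * R := by ring
      omega

end Marg
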