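import Mathlib

/-!
# Van der Corput inequality for a stationary family of vectors in a Hilbert space
-/

open Finset Real
open scoped InnerProductSpace

namespace Marg

variable {H : Type*} [NormedAddCommGroup H] [InnerProductSpace ℝ H]

lemma sum_shift_diff (x : ℕ → H) (L h : ℕ) :
    ∑ i ∈ range L, x i - ∑ i ∈ range L, x (i + h)
      = ∑ i ∈ range h, x i - ∑ i ∈ range h, x (L + i) := by
  have h1 := Finset.sum_range_add (fun i => x i) L h
  have h2 := Finset.sum_range_add (fun i => x i) h L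
  rw [add_comm L h] at h1
  have h3 : ∑ i ∈ range L, x (i + h) = ∑ i ∈ range L, x (h + i) :=
    Finset.sum_congr rfl fun i _ => by rw [add_comm]
  rw [h3]
  have := h1.symm.trans h2
  rw [sub_eq_sub_iff_add_eq_add]
  exact this

lemma norm_sum_le_card {ι : Type*} (s : Finset ι) (x : ι → H) {Λ : ℝ} (h : ∀ i ∈ s, ‖x i‖ ≤ Λ) :
    ‖∑ i ∈ s, x i‖ ≤ s.card * Λ := by
  refine (norm_sum_le _ _).trans ?_
  refine (Finset.sum_le_sum h).trans ?_
  simp

lemma norm_sum_sq_le {ι : Type*} (s : Finset ι) (x : ι → H) :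
    ‖∑ i ∈ s, x i‖ ^ 2 ≤ s.card * ∑ i ∈ s, ‖x i‖ ^ 2 := by
  have h1 : ‖∑ i ∈ s, x i‖ ≤ ∑ i ∈ s, ‖x i‖ := norm_sum_le _ _
  have h2 : ‖∑ i ∈ s, x i‖ ^ 2 ≤ (∑ i ∈ s, ‖x i‖) ^ 2 := by
    gcongr
  refine h2.trans ?_
  exact sq_sum_le_card_mul_sum_sq

/-- Van der Corput inequality with step `m` and `R` shifts. -/
theorem vdc (φ : ℝ → H) (hφ : ∀ s t, ⟪φ s, φ t⟫_ℝ = ⟪φ 0, φ (t - s)⟫_ℝ)
    {Λ : ℝ} (hΛ : ‖φ 0‖ ≤ Λ) (g : ℕ → ℝ) (L m R : ℕ) (hR : 0 < R) {W : ℝ} (hW0 : 0 ≤ W)
    (hW : ∀ r < R, ∀ j, 1 ≤ j → j < R →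
      ‖∑ i ∈ range L, φ (g (i + m * r + m * j) - g (i + m * r))‖ ≤ W) :
    ‖∑ i ∈ range L, φ (g i)‖ ≤ 2 * (m * R) * Λ + √((L : ℝ) ^ 2 * Λ ^ 2 / R + L * Λ * W) := by
  have hΛ0 : 0 ≤ Λ := (norm_nonneg _).trans hΛ
  have hnorm : ∀ t, ‖φ t‖ ≤ Λ := by
    intro t
    have h1 : ‖φ t‖ ^ 2 = ‖φ 0‖ ^ 2 := by
      rw [← real_inner_self_eq_norm_sq, ← real_inner_self_eq_norm_sq, hφ t t, sub_self]
    have h2 : ‖φ t‖ = ‖φ 0‖ := by
      have := congrArg Real.sqrt h1
      rwa [Real.sqrt_sq (norm_nonneg _), Real.sqrt_sq (norm_nonneg _)] at this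
    rw [h2]; exact hΛ
  set x : ℕ → H := fun i => φ (g i) with hx
  set S : H := ∑ i ∈ range L, x i with hS
  have hdiff : ∀ r ∈ range R, ‖S - ∑ i ∈ range L, x (i + m * r)‖ ≤ 2 * (m * R) * Λ := by
    intro r hr
    rw [hS, sum_shift_diff]
    have hr' : (r : ℝ) ≤ R := by exact_mod_cast (mem_range.1 hr).le
    calc ‖∑ i ∈ range (m * r), x i - ∑ i ∈ range (m * r), x (L + i)‖
        ≤ ‖∑ i ∈ range (m * r), x i‖ + ‖∑ i ∈ range (m * r), x (L + i)‖ := norm_sub_le _ _
      _ ≤ (range (m * r)).card * Λ + (range (m * r)).card * Λ :=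
          add_le_add (norm_sum_le_card _ _ fun i _ => hnorm _)
            (norm_sum_le_card _ _ fun i _ => hnorm _)
      _ = 2 * (m * r) * Λ := by simp; ring
      _ ≤ 2 * (m * R) * Λ := by gcongr
  -- decompose
  have hRS : (R : ℝ) • S = ∑ r ∈ range R, ∑ i ∈ range L, x (i + m * r)
      + ∑ r ∈ range R, (S - ∑ i ∈ range L, x (i + m * r)) := by
    rw [← Finset.sum_add_distrib]
    simp [← Nat.cast_smul_eq_nsmul ℝ]
  have hmain : ‖∑ r ∈ range R, ∑ i ∈ range L, x (i + m * r)‖ ^ 2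
      ≤ L * (R * (L * Λ ^ 2) + R ^ 2 * (Λ * W)) := by
    rw [Finset.sum_comm]
    refine (norm_sum_sq_le _ _).trans ?_
    rw [card_range]
    gcongr
    have e1 : ∀ i, ‖∑ r ∈ range R, x (i + m * r)‖ ^ 2
        = ∑ r ∈ range R, ∑ r' ∈ range R, ⟪x (i + m * r), x (i + m * r')⟫_ℝ := by
      intro i
      rw [← real_inner_self_eq_norm_sq, sum_inner]
      refine Finset.sum_congr rfl fun r _ => ?_
      rw [inner_sum]
    simp_rw [e1]
    rw [Finset.sum_comm]
    have e2 : ∀ r ∈ range R, ∑ i ∈ range L, ∑ r' ∈ range R, ⟪x (i + m * r), x (i + m * r')⟫_ℝ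
        ≤ L * Λ ^ 2 + R * (Λ * W) := by
      intro r hr
      rw [Finset.sum_comm]
      have e3 : ∀ r' ∈ range R, ∑ i ∈ range L, ⟪x (i + m * r), x (i + m * r')⟫_ℝ
          ≤ (if r' = r then L * Λ ^ 2 else 0) + Λ * W := by
        intro r' hr'
        rw [mem_range] at hr hr'
        rcases lt_trichotomy r r' with h | h | h
        · rw [if_neg (by omega)]
          have hh : ∀ i ∈ range L, ⟪x (i + m * r), x (i + m * r')⟫_ℝ
              = ⟪φ 0, φ (g (i + m * r + m * (r' - r)) - g (i + m * r))⟫_ℝ := by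
            intro i _
            have hidx : i + m * r + m * (r' - r) = i + m * r' := by
              obtain ⟨d, rfl⟩ := Nat.exists_eq_add_of_lt h
              have : r + d + 1 - r = d + 1 := by omega
              rw [this]; ring
            simp only [hx]
            rw [hφ, hidx]
          rw [Finset.sum_congr rfl hh, ← inner_sum, zero_add]
          refine (real_inner_le_norm _ _).trans ?_
          gcongr
          exact hW r hr (r' - r) (by omega) (by omega)
        · subst h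
          rw [if_pos rfl]
          have : ∑ i ∈ range L, ⟪x (i + m * r), x (i + m * r)⟫_ℝ ≤ ∑ i ∈ range L, Λ ^ 2 := by
            refine Finset.sum_le_sum fun i _ => ?_
            rw [real_inner_self_eq_norm_sq]
            gcongr
            exact hnorm _
          simp only [sum_const, card_range, nsmul_eq_mul] at this
          have : 0 ≤ Λ * W := by positivity
          linarith
        · rw [if_neg (by omega)]
          have hh : ∀ i ∈ range L, ⟪x (i + m * r), x (i + m * r')⟫_ℝ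
              = ⟪φ 0, φ (g (i + m * r' + m * (r - r')) - g (i + m * r'))⟫_ℝ := by
            intro i _
            have hidx : i + m * r' + m * (r - r') = i + m * r := by
              obtain ⟨d, rfl⟩ := Nat.exists_eq_add_of_lt h
              have : r' + d + 1 - r' = d + 1 := by omega
              rw [this]; ring
            simp only [hx]
            rw [real_inner_comm, hφ, hidx]
          rw [Finset.sum_congr rfl hh, ← inner_sum, zero_add]
          refine (real_inner_le_norm _ _).trans ?_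
          gcongr
          exact hW r' hr' (r - r') (by omega) (by omega)
      refine (Finset.sum_le_sum e3).trans ?_
      rw [Finset.sum_add_distrib, Finset.sum_ite_eq' (range R) r, if_pos hr]
      simp
    refine (Finset.sum_le_sum e2).trans ?_
    simp
    apply le_of_eq
    ring
  have hRpos : (0 : ℝ) < R := by exact_mod_cast hR
  have h4 : ‖∑ r ∈ range R, ∑ i ∈ range L, x (i + m * r)‖
      ≤ R * √((L : ℝ) ^ 2 * Λ ^ 2 / R + L * Λ * W) := by
    have h5 : ‖∑ r ∈ range R, ∑ i ∈ range L, x (i + m * r)‖ ^ 2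
        ≤ (R * √((L : ℝ) ^ 2 * Λ ^ 2 / R + L * Λ * W)) ^ 2 := by
      rw [mul_pow, Real.sq_sqrt (by positivity)]
      refine hmain.trans (le_of_eq ?_)
      field_simp
    exact abs_le_of_sq_le_sq' h5 (by positivity) |>.2
  have h6 : (R : ℝ) * ‖S‖ ≤ R * √((L : ℝ) ^ 2 * Λ ^ 2 / R + L * Λ * W) + R * (2 * (m * R) * Λ) := by
    have : (R : ℝ) * ‖S‖ = ‖(R : ℝ) • S‖ := by
      rw [norm_smul, Real.norm_of_nonneg hRpos.le]
    rw [this, hRS]
    refine (norm_add_le _ _).trans ?_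
    refine add_le_add h4 ?_
    have := norm_sum_le_card (range R) (fun r => S - ∑ i ∈ range L, x (i + m * r)) hdiff
    simpa using this
  have h7 : ‖S‖ ≤ √((L : ℝ) ^ 2 * Λ ^ 2 / R + L * Λ * W) + 2 * (m * R) * Λ := by
    have : (R : ℝ) * ‖S‖ ≤ R * (√((L : ℝ) ^ 2 * Λ ^ 2 / R + L * Λ * W) + 2 * (m * R) * Λ) := by
      rw [mul_add]; exact h6
    exact le_of_mul_le_mul_left this hRpos
  linarith

end Marg
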