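import Pool.Agent.Marg.Smooth

/-!
# Translates in `L²(ℝ)`
-/

open Finset Real MeasureTheory
open scoped InnerProductSpace

namespace Marg

/-- measurable, bounded by `C`, vanishing outside `[c, d]` -/
structure Cpt (ψ : ℝ → ℝ) (c d C : ℝ) : Prop where
  meas : Measurable ψ
  bound : ∀ v, |ψ v| ≤ C
  supp : ∀ v, v ∉ Set.Icc c d → ψ v = 0

variable {ψ : ℝ → ℝ} {c d C : ℝ}

lemma Cpt.memLp (h : Cpt ψ c d C) (t : ℝ) : MemLp (fun u => ψ (u + t)) 2 volume := by
  have h1 : MemLp ψ 2 volume := by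
    have h2 : MemLp ψ 2 (volume.restrict (Set.Icc c d)) := by
      have : IsFiniteMeasure (volume.restrict (Set.Icc c d)) := by
        constructor; simp
      exact MemLp.of_bound h.meas.aestronglyMeasurable C (Filter.Eventually.of_forall h.bound)
    have h3 : Set.indicator (Set.Icc c d) ψ = ψ := by
      ext v
      by_cases hv : v ∈ Set.Icc c d
      · simp [hv]
      · simp only [Set.indicator_of_notMem hv, h.supp v hv]
    rw [← h3]
    exact (memLp_indicator_iff_restrict measurableSet_Icc).2 h2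
  exact h1.comp_measurePreserving (measurePreserving_add_right volume t)

/-- translate as an element of `L²` -/
noncomputable def Cpt.φ (h : Cpt ψ c d C) (t : ℝ) : Lp ℝ 2 (volume : Measure ℝ) :=
  (h.memLp t).toLp _

lemma Cpt.inner_eq (h : Cpt ψ c d C) (s t : ℝ) :
    ⟪h.φ s, h.φ t⟫_ℝ = ∫ u, ψ (u + s) * ψ (u + t) := by
  rw [L2.inner_def]
  apply integral_congr_ae
  filter_upwards [(h.memLp s).coeFn_toLp, (h.memLp t).coeFn_toLp] with u h1 h2
  unfold Cpt.φ
  rw [h1, h2]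
  simp [mul_comm]

lemma Cpt.inner_shift (h : Cpt ψ c d C) (s t : ℝ) :
    ⟪h.φ s, h.φ t⟫_ℝ = ⟪h.φ 0, h.φ (t - s)⟫_ℝ := by
  rw [h.inner_eq, h.inner_eq]
  have := integral_add_right_eq_self (μ := (volume : Measure ℝ))
    (fun u => ψ (u + 0) * ψ (u + (t - s))) s
  rw [← this]
  congr 1
  ext u
  congr 2 <;> ring

lemma Cpt.integrable_mul (h : Cpt ψ c d C) (s t : ℝ) :
    Integrable (fun u => ψ (u + s) * ψ (u + t)) volume :=
  (h.memLp s).integrable_mul (h.memLp t)

lemma Cpt.norm_sum_sq (h : Cpt ψ c d C) {ι : Type*} (S : Finset ι) (t : ι → ℝ) :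
    ‖∑ i ∈ S, h.φ (t i)‖ ^ 2 = ∫ u, (∑ i ∈ S, ψ (u + t i)) ^ 2 := by
  rw [← real_inner_self_eq_norm_sq, sum_inner]
  have e : ∀ u, (∑ i ∈ S, ψ (u + t i)) ^ 2 = ∑ i ∈ S, ∑ j ∈ S, ψ (u + t i) * ψ (u + t j) := by
    intro u
    rw [sq, Finset.sum_mul_sum]
  simp_rw [e, inner_sum, h.inner_eq]
  rw [integral_finsetSum _ fun i _ => integrable_finsetSum _ fun j _ => h.integrable_mul _ _]
  refine Finset.sum_congr rfl fun i _ => ?_
  rw [integral_finsetSum _ fun j _ => h.integrable_mul _ _]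

lemma Cpt.norm_zero_sq (h : Cpt ψ c d C) : ‖h.φ 0‖ ^ 2 = ∫ u, ψ u ^ 2 := by
  have := h.norm_sum_sq (Finset.range 1) (fun _ => 0)
  simpa using this

/-- bound of the `L²` norm by the supremum norm and the support -/
lemma Cpt.norm_sum_le (h : Cpt ψ c d C) {ι : Type*} (S : Finset ι) (t : ι → ℝ) {B t0 : ℝ}
    (hB : ∀ u, |∑ i ∈ S, ψ (u + t i)| ≤ B) (ht : ∀ i ∈ S, |t i - t0| ≤ 1) (hcd : c ≤ d) :
    ‖∑ i ∈ S, h.φ (t i)‖ ^ 2 ≤ B ^ 2 * (d - c + 2) := by
  rw [h.norm_sum_sq]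
  have hsupp : ∀ u, u ∉ Set.Icc (c - t0 - 1) (d - t0 + 1) → (∑ i ∈ S, ψ (u + t i)) ^ 2 = 0 := by
    intro u hu
    have : ∑ i ∈ S, ψ (u + t i) = 0 := by
      apply Finset.sum_eq_zero
      intro i hi
      apply h.supp
      intro hmem
      apply hu
      have := abs_le.1 (ht i hi)
      constructor
      · linarith [hmem.1, hmem.2, this.1, this.2]
      · linarith [hmem.1, hmem.2, this.1, this.2]
    rw [this]; norm_num
  rw [← setIntegral_eq_integral_of_forall_compl_eq_zero hsupp]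
  have h1 : ‖∫ u in Set.Icc (c - t0 - 1) (d - t0 + 1), (∑ i ∈ S, ψ (u + t i)) ^ 2‖
      ≤ B ^ 2 * volume.real (Set.Icc (c - t0 - 1) (d - t0 + 1)) := by
    apply norm_setIntegral_le_of_norm_le_const
    · simp
    · intro u _
      rw [Real.norm_eq_abs, abs_pow]
      gcongr
      exact hB u
  rw [Real.volume_real_Icc_of_le (by linarith)] at h1
  refine (le_norm_self _).trans (h1.trans (le_of_eq ?_))
  ring

end Marg
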