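import Pool.Agent.Marg.Params

/-!
# The family of derivatives of `log log`
-/

open Real Polynomial

namespace Marg

/-- polynomials with natural coefficients describing the derivatives of `1 / (x log x)` -/
noncomputable def pp : ℕ → ℕ[X]
  | 0 => X
  | j + 1 => ((j + 1 : ℕ) : ℕ[X]) * pp j + X ^ 2 * derivative (pp j)

lemma aeval_nonneg (p : ℕ[X]) {w : ℝ} (hw : 0 ≤ w) : 0 ≤ aeval w p := by
  rw [aeval_eq_sum_range]
  exact Finset.sum_nonneg fun i _ => by positivity

lemma aeval_mono (p : ℕ[X]) {w w' : ℝ} (hw : 0 ≤ w) (h : w ≤ w') : aeval w p ≤ aeval w' p := by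
  rw [aeval_eq_sum_range, aeval_eq_sum_range]
  refine Finset.sum_le_sum fun i _ => ?_
  simp only [nsmul_eq_mul]
  gcongr

lemma le_aeval_pp (j : ℕ) {w : ℝ} (hw : 0 ≤ w) : w ≤ aeval w (pp j) := by
  induction j with
  | zero => simp [pp]
  | succ j ih =>
    simp only [pp, map_add, map_mul, map_natCast, map_pow, aeval_X]
    have h1 := aeval_nonneg (derivative (pp j)) hw
    have h2 : (1 : ℝ) ≤ ((j + 1 : ℕ) : ℝ) := by push_cast; linarith [Nat.cast_nonneg (α := ℝ) j]
    nlinarith [mul_nonneg (sq_nonneg w) h1, aeval_nonneg (pp j) hw]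

/-- `log log` -/
noncomputable def ll (x : ℝ) : ℝ := log (log x)

/-- derivatives of `log log` -/
noncomputable def DD (j : ℕ) (x : ℝ) : ℝ := aeval (1 / log x) (pp j) / x ^ (j + 1)

lemma log_ge_one {x : ℝ} (hx : 3 ≤ x) : 1 ≤ log x := by
  rw [Real.le_log_iff_exp_le (by linarith)]
  linarith [Real.exp_one_lt_d9]

lemma hasDerivAt_DD (j : ℕ) {x : ℝ} (hx : 3 ≤ x) : HasDerivAt (DD j) (-(DD (j + 1) x)) x := by
  have hx0 : x ≠ 0 := by linarith
  have hl := log_ge_one hx
  have hl0 : log x ≠ 0 := by linarith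
  have h1 : HasDerivAt (fun y => 1 / log y) (-(1 / x) / (log x) ^ 2) x := by
    have := (hasDerivAt_const x (1 : ℝ)).div (Real.hasDerivAt_log hx0) hl0
    refine this.congr_deriv ?_
    simp
  have h2 : HasDerivAt (fun y => aeval (1 / log y) (pp j))
      (aeval (1 / log x) (derivative (pp j)) * (-(1 / x) / (log x) ^ 2)) x := by
    have := (Polynomial.hasDerivAt_aeval (pp j) (1 / log x)).comp x h1
    exact this
  have h3 : HasDerivAt (fun y : ℝ => y ^ (j + 1)) (((j + 1 : ℕ) : ℝ) * x ^ j) x := by
    simpa using hasDerivAt_pow (j + 1) x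
  have h4 := h2.div h3 (pow_ne_zero _ hx0)
  refine h4.congr_deriv ?_
  unfold DD
  simp only [pp, map_add, map_mul, map_natCast, map_pow, aeval_X]
  field_simp
  ring

lemma famB_ll : FamB ll DD 3 (fun j => aeval (1 : ℝ) (pp j)) := by
  refine { deriv0 := ?_, deriv := fun j x hx => hasDerivAt_DD j hx, pos := ?_, one_le := by norm_num,
           upper := ?_, lower := ?_ }
  · intro x hx
    have hx0 : x ≠ 0 := by linarith
    have hl := log_ge_one hx
    have h := (Real.hasDerivAt_log (show log x ≠ 0 by linarith)).comp x (Real.hasDerivAt_log hx0)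
    refine h.congr_deriv ?_
    simp [DD, pp, div_eq_mul_inv]
  · intro j x hx
    have hl := log_ge_one hx
    have h1 : 0 < 1 / log x := by positivity
    have h2 := le_aeval_pp j h1.le
    have : 0 < x := by linarith
    unfold DD
    have h3 : 0 < aeval (1 / log x) (pp j) := lt_of_lt_of_le h1 h2
    positivity
  · intro j x hx
    have hl := log_ge_one hx
    have : 0 < x := by linarith
    unfold DD
    gcongr
    apply aeval_mono
    · positivity
    · rw [div_le_one (by linarith)]; exact hl
  · intro j x hx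
    have hl := log_ge_one hx
    have hx' : 0 < x := by linarith
    have h1 : 0 < 1 / log x := by positivity
    have h2 := le_aeval_pp j h1.le
    unfold DD
    calc 1 / (x ^ (j + 1) * log x) = (1 / log x) / x ^ (j + 1) := by field_simp
      _ ≤ aeval (1 / log x) (pp j) / x ^ (j + 1) := by gcongr

end Marg
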