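import Mathlib

/-!
# From block averages along `N = M ^ d` to Cesàro averages
-/

open Finset Real Filter Topology

namespace Marg

lemma exists_pow_bracket {d : ℕ} (hd : 1 ≤ d) (n : ℕ) : ∃ M : ℕ, M ^ d ≤ n ∧ n < (M + 1) ^ d := by
  refine ⟨Nat.findGreatest (fun M => M ^ d ≤ n) n, ?_, ?_⟩
  · exact Nat.findGreatest_spec (P := fun M => M ^ d ≤ n) (m := 0) (Nat.zero_le _)
      (by rw [zero_pow (by omega)]; exact Nat.zero_le _)
  · by_contra hcon
    push Not at hcon
    have hle : Nat.findGreatest (fun M => M ^ d ≤ n) n + 1 ≤ n :=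
      (Nat.le_self_pow (by omega) _).trans hcon
    exact Nat.findGreatest_is_greatest (P := fun M => M ^ d ≤ n) (Nat.lt_succ_self _) hle hcon

lemma abs_sum_sub_le {w : ℕ → ℝ} (hw : ∀ n, |w n| ≤ 1) {m n : ℕ} (h : m ≤ n) :
    |∑ i ∈ range n, w i - ∑ i ∈ range m, w i| ≤ n - m := by
  rw [← Finset.sum_range_add_sum_Ico _ h, add_sub_cancel_left]
  refine (Finset.abs_sum_le_sum_abs _ _).trans ?_
  refine (Finset.sum_le_sum fun i _ => hw i).trans ?_
  rw [Finset.sum_const, Nat.card_Ico, nsmul_eq_mul, mul_one, Nat.cast_sub h]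

theorem block_to_full {w : ℕ → ℝ} (hw : ∀ n, |w n| ≤ 1) {d : ℕ} (hd : 1 ≤ d)
    (h : Tendsto (fun M : ℕ => (∑ i ∈ range (M ^ d), w (M ^ d + i)) / ((M ^ d : ℕ) : ℝ))
      atTop (𝓝 0)) :
    Tendsto (fun n : ℕ => (∑ i ∈ range n, w i) / (n : ℝ)) atTop (𝓝 0) := by
  set S : ℕ → ℝ := fun n => ∑ i ∈ range n, w i with hS
  have hS0 : ∀ n, |S n| ≤ n := by
    intro n
    have := abs_sum_sub_le hw (Nat.zero_le n)
    simpa [hS] using this
  have hSd : ∀ {m n : ℕ}, m ≤ n → |S n - S m| ≤ n - m := fun h => abs_sum_sub_le hw h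
  have hB : ∀ n, ∑ i ∈ range n, w (n + i) = S (2 * n) - S n := by
    intro n
    simp only [hS, two_mul]
    rw [Finset.sum_range_add]
    ring
  simp_rw [hB] at h
  rw [Metric.tendsto_atTop]
  intro δ hδ
  set ε := δ / 10 with hε
  have hε0 : 0 < ε := by positivity
  have h1 : ∀ᶠ M : ℕ in atTop, |(S (2 * M ^ d) - S (M ^ d)) / ((M ^ d : ℕ) : ℝ)| < ε := by
    have := (tendsto_order.1 h.abs).2 ε (by simpa using hε0)
    simpa using this
  have h2 : ∀ᶠ M : ℕ in atTop, (((M : ℝ) + 1) / M) ^ d < 1 + ε := by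
    have h3 : Tendsto (fun M : ℕ => (((M : ℝ) + 1) / M) ^ d) atTop (𝓝 (1 ^ d)) := by
      apply Tendsto.pow
      have h4 : Tendsto (fun M : ℕ => 1 + 1 / (M : ℝ)) atTop (𝓝 (1 + 0)) :=
        tendsto_const_nhds.add tendsto_one_div_atTop_nhds_zero_nat
      rw [add_zero] at h4
      refine h4.congr' ?_
      filter_upwards [eventually_ge_atTop 1] with M hM
      have : (M : ℝ) ≠ 0 := by positivity
      field_simp
    rw [one_pow] at h3
    exact (tendsto_order.1 h3).2 _ (by linarith)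
  obtain ⟨M0, hM0⟩ := eventually_atTop.1 (h1.and (h2.and (eventually_ge_atTop 1)))
  set n0 : ℕ := max (M0 ^ d) (⌈1 / (4 * ε)⌉₊) with hn0
  have hBn : ∀ n, n0 ≤ n → |S (2 * n) - S n| ≤ 4 * ε * n := by
    intro n hn
    obtain ⟨M, hMa, hMb⟩ := exists_pow_bracket hd n
    have hMM0 : M0 ≤ M := by
      by_contra hcon
      push Not at hcon
      have : (M + 1) ^ d ≤ M0 ^ d := Nat.pow_le_pow_left hcon d
      have : M0 ^ d ≤ n := (le_max_left _ _).trans hn
      omega
    obtain ⟨a1, a2, a3⟩ := hM0 M hMM0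
    have hMpos : (0 : ℝ) < M := by exact_mod_cast a3
    have hMd : (0 : ℝ) < (M ^ d : ℕ) := by push_cast; positivity
    rw [abs_div, abs_of_pos hMd, div_lt_iff₀ hMd] at a1
    rw [div_pow, div_lt_iff₀ (by positivity)] at a2
    have hnM : (n : ℝ) - (M ^ d : ℕ) ≤ ε * (M ^ d : ℕ) := by
      have : (n : ℝ) ≤ ((M + 1 : ℕ) : ℝ) ^ d := by exact_mod_cast hMb.le
      push_cast at this ⊢
      nlinarith
    have hMn : ((M ^ d : ℕ) : ℝ) ≤ n := by exact_mod_cast hMa
    have b1 := hSd hMa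
    have b2 := hSd (Nat.mul_le_mul_left 2 hMa)
    have e : S (2 * n) - S n = (S (2 * M ^ d) - S (M ^ d)) + (S (2 * n) - S (2 * M ^ d))
        - (S n - S (M ^ d)) := by ring
    rw [e]
    have c1 := abs_sub ((S (2 * M ^ d) - S (M ^ d)) + (S (2 * n) - S (2 * M ^ d)))
      (S n - S (M ^ d))
    have c2 := abs_add_le (S (2 * M ^ d) - S (M ^ d)) (S (2 * n) - S (2 * M ^ d))
    push_cast at b1 b2 a1 hnM hMn ⊢
    nlinarith
  set C : ℝ := 2 * n0 + 1 with hC
  have hind : ∀ n, |S n| ≤ C + 8 * ε * n := by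
    intro n
    induction n using Nat.strong_induction_on with
    | _ n ih =>
      by_cases hn : n ≤ 2 * n0 + 1
      · have h5 := hS0 n
        have h6 : (n : ℝ) ≤ 2 * n0 + 1 := by exact_mod_cast hn
        have : 0 ≤ 8 * ε * n := by positivity
        linarith
      · push Not at hn
        obtain ⟨k, hk⟩ : ∃ k, k = n / 2 := ⟨_, rfl⟩
        have hk1 : n0 ≤ k := by omega
        have hk2 : 2 * k ≤ n := by omega
        have hk3 : n ≤ 2 * k + 1 := by omega
        have hk4 : k < n := by omega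
        have i1 := ih k hk4
        have i2 := hBn k hk1
        have i3 := hSd hk2
        have i4 : (n : ℝ) - ((2 * k : ℕ) : ℝ) ≤ 1 := by
          have : (n : ℝ) ≤ ((2 * k + 1 : ℕ) : ℝ) := by exact_mod_cast hk3
          push_cast at this ⊢
          linarith
        have i5 : 1 ≤ 4 * ε * k := by
          have : 1 / (4 * ε) ≤ k :=
            (Nat.le_ceil _).trans (by exact_mod_cast (le_max_right _ _).trans hk1)
          rw [div_le_iff₀ (by positivity)] at this
          linarith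
        have i6 : ((2 * k : ℕ) : ℝ) ≤ n := by exact_mod_cast hk2
        have e : S n = S k + (S (2 * k) - S k) + (S n - S (2 * k)) := by ring
        rw [e]
        have c1 := abs_add_le (S k + (S (2 * k) - S k)) (S n - S (2 * k))
        have c2 := abs_add_le (S k) (S (2 * k) - S k)
        push_cast at i6
        nlinarith
  refine ⟨⌈C / ε⌉₊ + 1, fun n hn => ?_⟩
  have hnpos : (0 : ℝ) < n := by
    have : 1 ≤ n := by omega
    exact_mod_cast this
  rw [Real.dist_eq, sub_zero, abs_div, abs_of_pos hnpos, div_lt_iff₀ hnpos]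
  have h7 : C / ε ≤ n := (Nat.le_ceil _).trans (by
    have : ⌈C / ε⌉₊ ≤ n := by omega
    exact_mod_cast this)
  rw [div_le_iff₀ hε0] at h7
  have h8 := hind n
  have h9 : 0 < ε * n := by positivity
  have : δ = 10 * ε := by rw [hε]; ring
  rw [this]
  show |S n| < _
  nlinarith

end Marg
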