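import Pool.Agent.Marg.Ae
import Pool.Agent.Marg.Seq

/-!
# Sampling a bounded sequence along `⌊n ^ α⌋` for almost every `α`
-/

open Finset Real MeasureTheory Filter Topology

namespace Marg

theorem ae_exp {P : ℝ → Prop} (h : ∀ᵐ u : ℝ, P u) : ∀ᵐ α : ℝ, 0 < α → P (log α) := by
  rw [ae_iff] at h ⊢
  have h1 : volume (exp '' {u | ¬ P u}) = 0 :=
    addHaar_image_eq_zero_of_differentiableOn_of_addHaar_eq_zero volume
      (Real.differentiable_exp.differentiableOn) h
  refine measure_mono_null ?_ h1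
  intro α hα
  simp only [Set.mem_setOf_eq, Classical.not_imp] at hα
  exact ⟨log α, hα.2, Real.exp_log hα.1⟩

theorem ae_power_zero {z : ℕ → ℝ} (hz : ∀ n, |z n| ≤ 1)
    (hc : Tendsto (fun n : ℕ => (∑ k ∈ range n, z k) / (n : ℝ)) atTop (𝓝 0)) :
    ∀ᵐ u : ℝ, 0 ≤ u →
      Tendsto (fun n : ℕ => (∑ k ∈ range n, z ⌊(k : ℝ) ^ exp u⌋₊) / (n : ℝ)) atTop (𝓝 0) := by
  have h1 : ∀ᵐ u : ℝ, ∀ b : ℕ, 1 ≤ b → Tendsto (fun M : ℕ => RM z b M u) atTop (𝓝 0) := by
    rw [ae_all_iff]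
    intro b
    by_cases hb : 1 ≤ b
    · filter_upwards [ae_RM hz hb] with u hu _
      exact hu
    · exact Eventually.of_forall fun u h => absurd h hb
  filter_upwards [h1] with u hu hu0
  obtain ⟨b, hb⟩ : ∃ b : ℕ, exp u ≤ b := exists_nat_ge _
  have hb1 : 1 ≤ b := by
    have : (1 : ℝ) ≤ b := (Real.one_le_exp hu0).trans hb
    exact_mod_cast this
  have hub : u ≤ log b := by
    rw [Real.le_log_iff_exp_le (by positivity)]
    exact hb
  have hβ : 1 ≤ exp u := Real.one_le_exp hu0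
  have hDe : 1 ≤ De (b + 1) := by unfold De; omega
  -- the integral part
  have hI : Tendsto (fun M : ℕ => (∫ x in ((M ^ De (b + 1) : ℕ) : ℝ)..(2 * ((M ^ De (b + 1) : ℕ) : ℝ)),
      zf z (x ^ exp u)) / ((M ^ De (b + 1) : ℕ) : ℝ)) atTop (𝓝 0) :=
    (power_avg_tendsto hz hc hβ).comp (tendsto_pow_atTop (by omega))
  have hE : Tendsto (fun M : ℕ => TM z b M u - RM z b M u
      - (∫ x in ((M ^ De (b + 1) : ℕ) : ℝ)..(2 * ((M ^ De (b + 1) : ℕ) : ℝ)), zf z (x ^ exp u))
        / ((M ^ De (b + 1) : ℕ) : ℝ)) atTop (𝓝 0) := by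
    apply squeeze_zero_norm' (a := fun M : ℕ => 6 / (M : ℝ))
    · filter_upwards [pointwise hz hb1 hu0 hub] with M hM
      rw [Real.norm_eq_abs]; exact hM
    · exact tendsto_const_nhds.div_atTop tendsto_natCast_atTop_atTop
  have hT : Tendsto (fun M : ℕ => TM z b M u) atTop (𝓝 0) := by
    have := (hE.add hI).add (hu b hb1)
    simp only [add_zero] at this
    refine this.congr fun M => ?_
    ring
  apply block_to_full (w := fun k => z ⌊(k : ℝ) ^ exp u⌋₊) (fun n => hz _) hDe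
  refine hT.congr' ?_
  filter_upwards [eventually_ge_atTop 3] with M hM
  unfold TM
  congr 1
  refine Finset.sum_congr rfl fun i _ => ?_
  have h3 : (3 : ℝ) ≤ ((M ^ De (b + 1) + i : ℕ) : ℝ) := by
    have : M ≤ M ^ De (b + 1) := Nat.le_self_pow (by omega) M
    have : 3 ≤ M ^ De (b + 1) + i := by omega
    exact_mod_cast this
  unfold ZZ zf
  rw [ll_exp h3]

/-- **Main theorem on sequences.** If a bounded real sequence `z` has Cesàro mean `L`, then for
Lebesgue almost every `α ≥ 1` the sequence `z ⌊n ^ α⌋` has Cesàro mean `L`. -/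
theorem ae_power {z : ℕ → ℝ} {C : ℝ} (hz : ∀ n, |z n| ≤ C) {L : ℝ}
    (hc : Tendsto (fun n : ℕ => (∑ k ∈ range n, z k) / (n : ℝ)) atTop (𝓝 L)) :
    ∀ᵐ α : ℝ, 1 ≤ α →
      Tendsto (fun n : ℕ => (∑ k ∈ range n, z ⌊(k : ℝ) ^ α⌋₊) / (n : ℝ)) atTop (𝓝 L) := by
  set B : ℝ := C + |L| + 1 with hB
  have hC : 0 ≤ C := (abs_nonneg _).trans (hz 0)
  have hB0 : 0 < B := by positivity
  set y : ℕ → ℝ := fun n => (z n - L) / B with hy
  have hyb : ∀ n, |y n| ≤ 1 := by
    intro n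
    simp only [hy]
    rw [abs_div, abs_of_pos hB0, div_le_one hB0]
    refine (abs_sub _ _).trans ?_
    linarith [hz n]
  have key : ∀ w : ℕ → ℕ, ∀ n : ℕ, 0 < n → (∑ k ∈ range n, y (w k)) / (n : ℝ)
      = ((∑ k ∈ range n, z (w k)) / (n : ℝ) - L) / B := by
    intro w n hn
    have hn' : (n : ℝ) ≠ 0 := by positivity
    simp only [hy]
    rw [← Finset.sum_div, Finset.sum_sub_distrib, Finset.sum_const, card_range, nsmul_eq_mul]
    field_simp
  have hyc : Tendsto (fun n : ℕ => (∑ k ∈ range n, y k) / (n : ℝ)) atTop (𝓝 0) := by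
    have h1 : Tendsto (fun n : ℕ => ((∑ k ∈ range n, z k) / (n : ℝ) - L) / B) atTop (𝓝 0) := by
      have := (hc.sub_const L).div_const B
      simpa using this
    refine h1.congr' ?_
    filter_upwards [eventually_gt_atTop 0] with n hn
    exact (key id n hn).symm
  have h2 := ae_exp (ae_power_zero hyb hyc)
  filter_upwards [h2] with α hα hα1
  have h3 := hα (by linarith) (Real.log_nonneg hα1)
  rw [Real.exp_log (by linarith)] at h3
  have h4 : Tendsto (fun n : ℕ => B * ((∑ k ∈ range n, y ⌊(k : ℝ) ^ α⌋₊) / (n : ℝ)) + L)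
      atTop (𝓝 L) := by
    have := (h3.const_mul B).add_const L
    simpa using this
  refine h4.congr' ?_
  filter_upwards [eventually_gt_atTop 0] with n hn
  rw [key (fun k => ⌊(k : ℝ) ^ α⌋₊) n hn]
  field_simp
  ring

end Marg
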