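import Pool.Agent.Marg.Band

/-!
# Choice of parameters and the `L²` bound for a frequency band
-/

open Finset Real MeasureTheory Filter
open scoped InnerProductSpace

namespace Marg

/-- `ρ` -/
def rh (Q : ℕ) : ℕ := 2 ^ Q
/-- `λ` -/
def la (Q : ℕ) : ℕ := rh Q * (Q + 1) + 1
/-- `θ` -/
def th (Q q : ℕ) : ℕ := (la Q + rh Q) * q + rh Q
/-- exponent of `N` -/
def De (Q : ℕ) : ℕ := th Q Q + la Q + 2 * rh Q + 10

/-- scales -/
noncomputable def sc (Q M q : ℕ) : ℝ := (M : ℝ) ^ th Q q / ((M : ℝ) ^ De Q) ^ (q + 1)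

lemma th_mono (Q : ℕ) {q r : ℕ} (h : q ≤ r) : th Q q ≤ th Q r := by
  unfold th
  exact Nat.add_le_add_right (Nat.mul_le_mul_left _ h) _

lemma th_le_De (Q : ℕ) {q : ℕ} (h : q ≤ Q) : th Q q + la Q + 2 * rh Q + 10 ≤ De Q := by
  have := th_mono Q h
  unfold De
  omega

lemma rh_pos (Q : ℕ) : 0 < rh Q := by unfold rh; positivity

variable {Q M : ℕ}

lemma sc_pos (hM : 1 ≤ M) (q : ℕ) : 0 < sc Q M q := by
  have : (0 : ℝ) < M := by exact_mod_cast hM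
  unfold sc; positivity

lemma sc_succ_le (hM : 1 ≤ M) (q : ℕ) : sc Q M (q + 1) ≤ sc Q M q := by
  have hμ : (1 : ℝ) ≤ M := by exact_mod_cast hM
  unfold sc
  rw [div_le_div_iff₀ (by positivity) (by positivity), ← pow_mul, ← pow_mul, ← pow_add, ← pow_add]
  apply pow_le_pow_right₀ hμ
  have h1 : th Q (q + 1) = th Q q + (la Q + rh Q) := by unfold th; ring
  have h2 : la Q + rh Q ≤ De Q := by unfold De; omega
  have h3 : De Q * (q + 1 + 1) = De Q * (q + 1) + De Q := by ring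
  rw [h1, h3]
  omega

lemma sc_le_one (hM : 1 ≤ M) {q : ℕ} (hq : q ≤ Q) : sc Q M q ≤ 1 := by
  have hμ : (1 : ℝ) ≤ M := by exact_mod_cast hM
  unfold sc
  rw [div_le_one (by positivity), ← pow_mul]
  apply pow_le_pow_right₀ hμ
  have h1 := th_le_De Q hq
  have : De Q ≤ De Q * (q + 1) := Nat.le_mul_of_pos_right _ (by omega)
  omega

/-- the sequence of constants in the iteration -/
noncomputable def Ks (Λ K0 : ℝ) : ℕ → ℝ
  | 0 => K0
  | k + 1 => 2 * Λ + √(Λ ^ 2 + Λ * Ks Λ K0 k)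

lemma Ks_nonneg {Λ K0 : ℝ} (hΛ : 0 ≤ Λ) (hK : 0 ≤ K0) (k : ℕ) : 0 ≤ Ks Λ K0 k := by
  cases k with
  | zero => exact hK
  | succ k => unfold Ks; positivity

lemma step_ineq {Λ K0 : ℝ} (hΛ : 0 ≤ Λ) (hK : 0 ≤ K0) (hM : 1 ≤ M) {k : ℕ} (hk : k < Q) :
    2 * (((M ^ la Q : ℕ) : ℝ) * ((M ^ rh Q : ℕ) : ℝ)) * Λ
      + √((((M ^ De Q : ℕ) : ℝ)) ^ 2 * Λ ^ 2 / ((M ^ rh Q : ℕ) : ℝ)
        + ((M ^ De Q : ℕ) : ℝ) * Λ * (Ks Λ K0 k * ((M ^ De Q : ℕ) : ℝ) / (M : ℝ) ^ 2 ^ (Q - k)))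
      ≤ Ks Λ K0 (k + 1) * ((M ^ De Q : ℕ) : ℝ) / (M : ℝ) ^ 2 ^ (Q - (k + 1)) := by
  have hμ : (1 : ℝ) ≤ M := by exact_mod_cast hM
  have hμ0 : (0 : ℝ) < M := by linarith
  push_cast
  set μ : ℝ := (M : ℝ) with hμdef
  set N : ℝ := μ ^ De Q with hN
  have hN0 : 0 < N := by positivity
  have hKk := Ks_nonneg hΛ hK k
  obtain ⟨d, hd⟩ : ∃ d, Q - k = d + 1 := ⟨Q - k - 1, by omega⟩
  have hd' : Q - (k + 1) = d := by omega
  have hdQ : d ≤ Q := by omega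
  rw [hd, hd']
  set e : ℕ := 2 ^ d with he
  have he2 : 2 ^ (d + 1) = 2 * e := by rw [he]; ring
  rw [he2]
  have hρ : 2 * e ≤ rh Q := by
    unfold rh; rw [← he2]; exact Nat.pow_le_pow_right (by norm_num) (by omega)
  have h1 : μ ^ la Q * μ ^ rh Q ≤ N / μ ^ e := by
    rw [le_div_iff₀ (by positivity), hN, ← pow_add, ← pow_add]
    apply pow_le_pow_right₀ hμ
    have := rh_pos Q
    unfold De
    omega
  have h2 : √(N ^ 2 * Λ ^ 2 / μ ^ rh Q + N * Λ * (Ks Λ K0 k * N / μ ^ (2 * e)))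
      ≤ √(Λ ^ 2 + Λ * Ks Λ K0 k) * N / μ ^ e := by
    apply Real.sqrt_le_iff.2
    refine ⟨by positivity, ?_⟩
    rw [div_pow, mul_pow, Real.sq_sqrt (by positivity), ← pow_mul μ e 2, mul_comm e 2]
    have h3 : N ^ 2 * Λ ^ 2 / μ ^ rh Q ≤ N ^ 2 * Λ ^ 2 / μ ^ (2 * e) := by
      gcongr
    calc N ^ 2 * Λ ^ 2 / μ ^ rh Q + N * Λ * (Ks Λ K0 k * N / μ ^ (2 * e))
        ≤ N ^ 2 * Λ ^ 2 / μ ^ (2 * e) + N * Λ * (Ks Λ K0 k * N / μ ^ (2 * e)) := by gcongr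
      _ = (Λ ^ 2 + Λ * Ks Λ K0 k) * N ^ 2 / μ ^ (2 * e) := by ring
  calc 2 * (μ ^ la Q * μ ^ rh Q) * Λ + √(N ^ 2 * Λ ^ 2 / μ ^ rh Q
        + N * Λ * (Ks Λ K0 k * N / μ ^ (2 * e)))
      ≤ 2 * (N / μ ^ e) * Λ + √(Λ ^ 2 + Λ * Ks Λ K0 k) * N / μ ^ e := by gcongr
    _ = Ks Λ K0 (k + 1) * N / μ ^ e := by
        simp only [Ks]; ring

/-- Level zero bound. -/
lemma level_zero {ℓ : ℝ → ℝ} {D : ℕ → ℝ → ℝ} {x0 : ℝ} {C : ℕ → ℝ} (F : FamB ℓ D x0 C)
    {f : ℝ → ℝ} (hf : Bdd f) {v0 v1 LL : ℝ} (hv : v0 ≤ v1) (hLL : v1 - v0 ≤ LL)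
    {q : ℕ} (hq : q + 1 ≤ Q)
    (hM1 : 1 ≤ M) (hMx : x0 ≤ (M : ℝ)) (hMC : C (q + 1) ≤ (M : ℝ))
    (hMQ : 2 * (Q : ℝ) ≤ (M : ℝ)) (hlog : log (4 * (M : ℝ) ^ De Q) ≤ (M : ℝ))
    {s' s : ℝ} (hs' : s' = sc Q M (q + 1)) (hs : s = sc Q M q)
    (hcpt : Cpt (band f s' s) v0 (v1 + s) 2)
    {g : ℝ → ℝ} {E : ℕ → ℝ → ℝ} {P σ : ℝ} {A : ℕ} (hg : Good D x0 (q + 1) P σ g E)
    (hP1 : ((M ^ la Q : ℕ) : ℝ) ^ (q + 1) ≤ P)
    (hP2 : P ≤ (((M ^ la Q : ℕ) : ℝ) * ((M ^ rh Q : ℕ) : ℝ)) ^ (q + 1)) (hσ : 0 ≤ σ)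
    (hσ2 : σ ≤ ((q + 1 : ℕ) : ℝ) * (((M ^ la Q : ℕ) : ℝ) * ((M ^ rh Q : ℕ) : ℝ)))
    (hA1 : M ^ De Q ≤ A) (hA2 : A ≤ M ^ De Q + (q + 1) * (M ^ la Q * M ^ rh Q)) :
    ‖∑ i ∈ range (M ^ De Q), hcpt.φ (g ((A + i : ℕ) : ℝ))‖
      ≤ (4 * C (q + 1) + 4 ^ (q + 3)) * √(LL + 3) * ((M ^ De Q : ℕ) : ℝ)
        / (M : ℝ) ^ 2 ^ Q := by
  have hμ : (1 : ℝ) ≤ M := by exact_mod_cast hM1
  have hμ0 : (0 : ℝ) < M := by linarith
  push_cast at hP1 hP2 hσ2
  rw [show ((M ^ De Q : ℕ) : ℝ) = (M : ℝ) ^ De Q by push_cast; rfl]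
  have hA1' : ((M : ℝ) ^ De Q) ≤ A := by exact_mod_cast hA1
  have hA2' : (A : ℝ) ≤ (M : ℝ) ^ De Q + (q + 1) * ((M : ℝ) ^ la Q * (M : ℝ) ^ rh Q) := by
    exact_mod_cast hA2
  set μ : ℝ := (M : ℝ) with hμdef
  set N : ℝ := μ ^ De Q with hN
  have hN0 : 0 < N := by positivity
  have hN1 : 1 ≤ N := one_le_pow₀ hμ
  have hμN : μ ≤ N := by
    rw [hN]
    calc μ = μ ^ 1 := (pow_one _).symm
      _ ≤ μ ^ De Q := pow_le_pow_right₀ hμ (by unfold De; omega)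
  have hx0N : x0 ≤ N := hMx.trans hμN
  have hx0A : x0 ≤ A := hx0N.trans hA1'
  have hP0 : 0 < P := lt_of_lt_of_le (by positivity) hP1
  have hs'0 : 0 < s' := by rw [hs']; exact sc_pos hM1 _
  have hss : s' ≤ s := by rw [hs', hs]; exact sc_succ_le hM1 q
  have hs1 : s ≤ 1 := by rw [hs]; exact sc_le_one hM1 (by omega)
  have hlaQ : la Q + rh Q + 1 ≤ De Q := by
    have := rh_pos Q
    unfold De; omega
  have hmR : μ ^ la Q * μ ^ rh Q * μ ≤ N := by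
    rw [hN, ← pow_add, ← pow_succ]
    exact pow_le_pow_right₀ hμ hlaQ
  have hq2 : 2 * ((q : ℝ) + 1) ≤ μ := by
    refine le_trans ?_ hMQ
    have : ((q + 1 : ℕ) : ℝ) ≤ Q := by exact_mod_cast hq
    push_cast at this
    linarith
  have hshift : ((q : ℝ) + 1) * (μ ^ la Q * μ ^ rh Q) ≤ N := by
    calc ((q : ℝ) + 1) * (μ ^ la Q * μ ^ rh Q) ≤ μ * (μ ^ la Q * μ ^ rh Q) := by
          gcongr; linarith
      _ = μ ^ la Q * μ ^ rh Q * μ := by ring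
      _ ≤ N := hmR
  have hCn : 0 ≤ C (q + 1) := by
    have h1 := F.upper (q + 1) x0 le_rfl
    have h2 := (F.pos (q + 1) x0 le_rfl).le
    have h3 : (0 : ℝ) < x0 ^ (q + 1 + 1) := by have := F.one_le; positivity
    have := h2.trans h1
    by_contra hcon
    push Not at hcon
    have := div_neg_of_neg_of_pos hcon h3
    linarith
  -- the sup bound
  have hsup : ∀ u, |∑ i ∈ range (M ^ De Q), band f s' s (u + g ((A + i : ℕ) : ℝ))|
      ≤ (4 * C (q + 1) + 4 ^ (q + 3)) * N / μ ^ 2 ^ Q := by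
    intro u
    have hb := band_final F.toFam hf hs'0 hss hP0 hσ hg (A := A) (L := M ^ De Q) hx0A u
    refine hb.trans ?_
    have hρ : (2 : ℕ) ^ Q = rh Q := rfl
    rw [hρ]
    have hNc : ((M ^ De Q : ℕ) : ℝ) = N := by push_cast; rfl
    rw [hNc]
    -- first term
    have t1 : N * (4 / s' * (P * D (q + 1) A)) ≤ 4 * C (q + 1) * N / μ ^ rh Q := by
      have hD : D (q + 1) A ≤ C (q + 1) / N ^ (q + 2) := by
        refine (F.upper (q + 1) A hx0A).trans ?_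
        gcongr
      have hPle : P ≤ μ ^ ((la Q + rh Q) * (q + 1)) := by
        rw [pow_mul, pow_add μ]; exact hP2
      have hs'e : s' = μ ^ th Q (q + 1) / N ^ (q + 2) := hs'
      have hthe : th Q (q + 1) = (la Q + rh Q) * (q + 1) + rh Q := rfl
      calc N * (4 / s' * (P * D (q + 1) A))
          ≤ N * (4 / s' * (μ ^ ((la Q + rh Q) * (q + 1)) * (C (q + 1) / N ^ (q + 2)))) := by
            have := (F.pos (q + 1) A hx0A).le
            gcongr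
        _ = 4 * C (q + 1) * N / μ ^ rh Q := by
            rw [hs'e, hthe, pow_add]
            field_simp
    -- second term
    have t2 : 4 * s / (P * D (q + 1) (A + N + σ)) ≤ 4 ^ (q + 3) * N / μ ^ rh Q := by
      have hX : A + N + σ ≤ 4 * N := by
        have h5 : σ ≤ N := by
          refine hσ2.trans ?_
          exact hshift
        have h6 : (A : ℝ) ≤ 2 * N := by linarith
        linarith
      have hX0 : x0 ≤ A + N + σ := by linarith
      have hX1 : 1 ≤ A + N + σ := by linarith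
      have hlogX : log (A + N + σ) ≤ μ := by
        refine le_trans (Real.log_le_log (by linarith) hX) ?_
        exact hlog
      have hlogpos : 0 < log (A + N + σ) := by
        apply Real.log_pos
        linarith
      have hD : 1 / ((4 * N) ^ (q + 2) * μ) ≤ D (q + 1) (A + N + σ) := by
        refine le_trans ?_ (F.lower (q + 1) _ hX0)
        apply one_div_le_one_div_of_le (by positivity)
        gcongr
      have hPD : μ ^ (la Q * (q + 1)) / ((4 * N) ^ (q + 2) * μ) ≤ P * D (q + 1) (A + N + σ) := by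
        rw [div_eq_mul_one_div, pow_mul]
        exact mul_le_mul hP1 hD (by positivity) hP0.le
      have hse : s = μ ^ th Q q / N ^ (q + 1) := hs
      calc 4 * s / (P * D (q + 1) (A + N + σ))
          ≤ 4 * s / (μ ^ (la Q * (q + 1)) / ((4 * N) ^ (q + 2) * μ)) := by
            have : 0 < s := hs'0.trans_le hss
            gcongr
        _ = 4 ^ (q + 3) * N * (μ ^ th Q q * μ / μ ^ (la Q * (q + 1))) := by
            rw [hse]
            field_simp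
            rw [mul_pow]
            ring
        _ ≤ 4 ^ (q + 3) * N * (1 / μ ^ rh Q) := by
            apply mul_le_mul_of_nonneg_left _ (by positivity)
            rw [div_le_div_iff₀ (by positivity) (by positivity), one_mul, ← pow_succ, ← pow_add]
            apply pow_le_pow_right₀ hμ
            have e1 : th Q q = la Q * q + rh Q * q + rh Q := by unfold th; ring
            have e2 : la Q * (q + 1) = la Q * q + la Q := by ring
            have e3 : la Q = rh Q * (Q + 1) + 1 := rfl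
            have e4 : rh Q * (q + 1 + 1) ≤ rh Q * (Q + 1) := Nat.mul_le_mul_left _ (by omega)
            have e5 : rh Q * (q + 1 + 1) = rh Q * q + rh Q + rh Q := by ring
            rw [e1, e2]
            omega
        _ = 4 ^ (q + 3) * N / μ ^ rh Q := by ring
    calc N * (4 / s' * (P * D (q + 1) A)) + 4 * s / (P * D (q + 1) (A + N + σ))
        ≤ 4 * C (q + 1) * N / μ ^ rh Q + 4 ^ (q + 3) * N / μ ^ rh Q := add_le_add t1 t2
      _ = (4 * C (q + 1) + 4 ^ (q + 3)) * N / μ ^ rh Q := by ring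
  -- support
  have hosc : ∀ i ∈ range (M ^ De Q), |g ((A + i : ℕ) : ℝ) - g A| ≤ 1 := by
    intro i hi
    have hi' : (i : ℝ) ≤ N := by
      have : i ≤ M ^ De Q := (mem_range.1 hi).le
      have : (i : ℝ) ≤ ((M ^ De Q : ℕ) : ℝ) := by exact_mod_cast this
      simpa using this
    have h1 := good_lip F.toFam hP0 hσ hg hx0A (x := A) (y := ((A + i : ℕ) : ℝ)) le_rfl
      (by push_cast; linarith [Nat.cast_nonneg (α := ℝ) i])
    refine h1.trans ?_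
    have e : |((A + i : ℕ) : ℝ) - (A : ℝ)| = i := by
      push_cast
      rw [add_sub_cancel_left, abs_of_nonneg (Nat.cast_nonneg i)]
    rw [e]
    have hD : D (q + 1) A ≤ C (q + 1) / N ^ (q + 2) := by
      refine (F.upper (q + 1) A hx0A).trans ?_
      gcongr
    have hq1 : (μ ^ la Q * μ ^ rh Q * μ) ^ (q + 1) ≤ N ^ (q + 1) := by gcongr
    rw [mul_pow] at hq1
    have hμq : μ ≤ μ ^ (q + 1) := le_self_pow₀ hμ (by omega)
    calc P * D (q + 1) A * i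
        ≤ (μ ^ la Q * μ ^ rh Q) ^ (q + 1) * (C (q + 1) / N ^ (q + 2)) * N := by
          have := (F.pos (q + 1) A hx0A).le
          gcongr
      _ = (μ ^ la Q * μ ^ rh Q) ^ (q + 1) * C (q + 1) / N ^ (q + 1) := by
          rw [show N ^ (q + 2) = N ^ (q + 1) * N by ring]
          field_simp
      _ ≤ (μ ^ la Q * μ ^ rh Q) ^ (q + 1) * μ ^ (q + 1) / N ^ (q + 1) := by
          gcongr
          exact hMC.trans hμq
      _ ≤ 1 := by
          rw [div_le_one (by positivity)]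
          exact hq1
  have hfin := hcpt.norm_sum_le (range (M ^ De Q)) (fun i => g ((A + i : ℕ) : ℝ)) hsup hosc
    (by linarith)
  have hfin2 : ‖∑ i ∈ range (M ^ De Q), hcpt.φ (g ((A + i : ℕ) : ℝ))‖ ^ 2
      ≤ (((4 * C (q + 1) + 4 ^ (q + 3)) * N / μ ^ 2 ^ Q) * √(LL + 3)) ^ 2 := by
    refine hfin.trans ?_
    rw [mul_pow _ (√(LL + 3)), Real.sq_sqrt (by linarith)]
    exact mul_le_mul_of_nonneg_left (by linarith) (by positivity)
  have := abs_le_of_sq_le_sq' hfin2 (by positivity)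
  refine this.2.trans (le_of_eq ?_)
  ring

lemma eventually_log (d : ℕ) : ∀ᶠ M : ℕ in atTop, log (4 * (M : ℝ) ^ d) ≤ M := by
  have h1 : ∀ᶠ x : ℝ in atTop, ‖log x‖ ≤ (1 / (2 * ((d : ℝ) + 1))) * ‖id x‖ :=
    Real.isLittleO_log_id_atTop.def (by positivity)
  have h2 : ∀ᶠ M : ℕ in atTop, ‖log (M : ℝ)‖ ≤ (1 / (2 * ((d : ℝ) + 1))) * ‖id (M : ℝ)‖ :=
    tendsto_natCast_atTop_atTop.eventually h1
  filter_upwards [h2, eventually_ge_atTop 1, eventually_ge_atTop (⌈2 * log 4⌉₊)] with M h3 h4 h5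
  have hM : (1 : ℝ) ≤ M := by exact_mod_cast h4
  rw [Real.log_mul (by norm_num) (by positivity), Real.log_pow]
  have h6 : 2 * log 4 ≤ (M : ℝ) := (Nat.le_ceil _).trans (by exact_mod_cast h5)
  rw [Real.norm_eq_abs, Real.norm_eq_abs, id, abs_of_nonneg (by linarith : (0 : ℝ) ≤ M)] at h3
  have h7 := (le_abs_self _).trans h3
  have h8 : (d : ℝ) * log M ≤ M / 2 := by
    calc (d : ℝ) * log M ≤ (d : ℝ) * (1 / (2 * ((d : ℝ) + 1)) * M) := by gcongr
      _ = (d / ((d : ℝ) + 1)) * (M / 2) := by field_simp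
      _ ≤ 1 * (M / 2) := by
          gcongr
          rw [div_le_one (by positivity)]
          linarith
      _ = M / 2 := by ring
  linarith

theorem band_bound {ℓ : ℝ → ℝ} {D : ℕ → ℝ → ℝ} {x0 : ℝ} {C : ℕ → ℝ} (F : FamB ℓ D x0 C)
    (Q : ℕ) (LL : ℝ) :
    ∃ K : ℝ, 0 ≤ K ∧ ∀ᶠ M : ℕ in atTop, ∀ f : ℝ → ℝ, Bdd f → ∀ v0 v1 : ℝ, v0 ≤ v1 →
      v1 - v0 ≤ LL → (∀ v, v ∉ Set.Icc v0 v1 → f v = 0) → ∀ q, q + 1 ≤ Q →
      ∀ hcpt : Cpt (band f (sc Q M (q + 1)) (sc Q M q)) v0 (v1 + sc Q M q) 2,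
      ‖∑ i ∈ range (M ^ De Q), hcpt.φ (ℓ ((M ^ De Q + i : ℕ) : ℝ))‖
        ≤ K * ((M ^ De Q : ℕ) : ℝ) / M := by
  set Λ : ℝ := 2 * √(LL + 3) with hΛdef
  have hΛ : 0 ≤ Λ := by positivity
  set K0 : ℕ → ℝ := fun q => (4 * |C (q + 1)| + 4 ^ (q + 3)) * √(LL + 3) with hK0
  have hK0n : ∀ q, 0 ≤ K0 q := fun q => by simp only [hK0]; positivity
  refine ⟨∑ q ∈ range Q, Ks Λ (K0 q) (q + 1), Finset.sum_nonneg fun q _ =>
    Ks_nonneg hΛ (hK0n q) _, ?_⟩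
  have hC : ∀ᶠ M : ℕ in atTop, ∀ q ∈ range Q, C (q + 1) ≤ M := by
    rw [Filter.eventually_all_finset]
    intro q _
    filter_upwards [eventually_ge_atTop (⌈C (q + 1)⌉₊)] with M hM
    exact (Nat.le_ceil _).trans (by exact_mod_cast hM)
  filter_upwards [hC, eventually_log (De Q), eventually_ge_atTop 1, eventually_ge_atTop (2 * Q),
    eventually_ge_atTop ⌈x0⌉₊] with M h1 h2 h3 h4 h5
  intro f hf v0 v1 hv hLL hsupp q hq hcpt
  have hμ : (1 : ℝ) ≤ M := by exact_mod_cast h3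
  have hx : x0 ≤ (M : ℝ) := (Nat.le_ceil _).trans (by exact_mod_cast h5)
  have hs1 : sc Q M q ≤ 1 := sc_le_one h3 (by omega)
  have hs0 : 0 < sc Q M q := sc_pos h3 _
  have hφ0 : ‖hcpt.φ 0‖ ≤ Λ := by
    have := hcpt.norm_sum_le (range 1) (fun _ => (0 : ℝ)) (t0 := 0) (B := 2) (by
      intro u; simpa using hcpt.bound u) (by simp) (by linarith)
    simp only [range_one, sum_singleton] at this
    have h6 : ‖hcpt.φ 0‖ ^ 2 ≤ Λ ^ 2 := by
      refine this.trans ?_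
      rw [hΛdef, mul_pow, Real.sq_sqrt (by linarith)]
      exact mul_le_mul_of_nonneg_left (by linarith) (by positivity)
    exact (abs_le_of_sq_le_sq' h6 hΛ).2
  have hM0 : 0 < M := h3
  have key := iter F.toFam hcpt.φ hcpt.inner_shift hφ0 (N := M ^ De Q) (m := M ^ la Q)
    (R := M ^ rh Q) (q := q + 1) (by positivity) (by positivity)
    (fun k => Ks Λ (K0 q) k * ((M ^ De Q : ℕ) : ℝ) / (M : ℝ) ^ 2 ^ (Q - k))
    (fun k => by have := Ks_nonneg hΛ (hK0n q) k; positivity) ?_ ?_ (q + 1) 0 (by omega)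
    ℓ D 1 0 (M ^ De Q) (good_zero F.toFam) (by simp) (by simp) le_rfl (by simp) le_rfl (by simp)
  · refine key.trans ?_
    have hKn := Ks_nonneg hΛ (hK0n q) (q + 1)
    have h7 : Ks Λ (K0 q) (q + 1) ≤ ∑ q ∈ range Q, Ks Λ (K0 q) (q + 1) :=
      Finset.single_le_sum (f := fun q => Ks Λ (K0 q) (q + 1))
        (fun q _ => Ks_nonneg hΛ (hK0n q) _) (mem_range.2 (by omega))
    have h8 : (M : ℝ) ≤ (M : ℝ) ^ 2 ^ (Q - (q + 1)) := le_self_pow₀ hμ (by positivity)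
    have hS : 0 ≤ ∑ q ∈ range Q, Ks Λ (K0 q) (q + 1) := hKn.trans h7
    gcongr
  · intro g E P σ A hg hP1 hP2 hσ hσ2 hA1 hA2
    refine (level_zero F hf hv hLL hq h3 hx (h1 q (mem_range.2 (by omega)))
      (by exact_mod_cast h4) h2 rfl rfl hcpt hg hP1 hP2 hσ hσ2 hA1 hA2).trans ?_
    simp only [Ks, hK0, Nat.sub_zero]
    gcongr
    exact le_abs_self _
  · intro k hk
    exact step_ineq hΛ (hK0n q) h3 (by omega)

end Marg
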