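import Pool.Agent.Marg.ByParts

/-!
# Box smoothing
-/

open Finset Real MeasureTheory

namespace Marg

/-- primitive of `f` -/
noncomputable def prim (f : ℝ → ℝ) (v : ℝ) : ℝ := ∫ t in (0 : ℝ)..v, f t

/-- box average of `f` on `[v - s, v]` -/
noncomputable def sm (f : ℝ → ℝ) (s v : ℝ) : ℝ := (prim f v - prim f (v - s)) / s

/-- primitive of the box average -/
noncomputable def psm (f : ℝ → ℝ) (s v : ℝ) : ℝ := (prim (prim f) v - prim (prim f) (v - s)) / s

/-- measurable functions bounded by one -/
structure Bdd (f : ℝ → ℝ) : Prop where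
  meas : Measurable f
  bound : ∀ v, |f v| ≤ 1

variable {f : ℝ → ℝ}

lemma Bdd.ii (hf : Bdd f) (a b : ℝ) : IntervalIntegrable f volume a b := by
  rw [intervalIntegrable_iff]
  refine IntegrableOn.of_bound ?_ hf.meas.aestronglyMeasurable 1 ?_
  · exact measure_Ioc_lt_top
  · exact Filter.Eventually.of_forall fun x => hf.bound x

lemma Bdd.prim_sub (hf : Bdd f) (x y : ℝ) : prim f x - prim f y = ∫ t in y..x, f t := by
  unfold prim
  rw [intervalIntegral.integral_interval_sub_left (hf.ii _ _) (hf.ii _ _)]

lemma Bdd.prim_lip (hf : Bdd f) (x y : ℝ) : |prim f x - prim f y| ≤ |x - y| := by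
  rw [hf.prim_sub]
  have := intervalIntegral.norm_integral_le_of_norm_le_const (a := y) (b := x) (f := f) (C := 1)
    (fun t _ => hf.bound t)
  simpa using this

lemma Bdd.prim_cont (hf : Bdd f) : Continuous (prim f) := by
  have : LipschitzWith 1 (prim f) := by
    apply LipschitzWith.of_dist_le_mul
    intro x y
    simpa [Real.dist_eq] using hf.prim_lip x y
  exact this.continuous

lemma Bdd.hasDerivAt_prim (hf : Bdd f) {v : ℝ} (hc : ContinuousAt f v) :
    HasDerivAt (prim f) (f v) v := by
  apply intervalIntegral.integral_hasDerivAt_right (hf.ii _ _) _ hc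
  exact hf.meas.stronglyMeasurable.stronglyMeasurableAtFilter

lemma Bdd.hasDerivAt_pprim (hf : Bdd f) (v : ℝ) :
    HasDerivAt (prim (prim f)) (prim f v) v := by
  apply intervalIntegral.integral_hasDerivAt_right (hf.prim_cont.intervalIntegrable _ _) _
    hf.prim_cont.continuousAt
  exact hf.prim_cont.stronglyMeasurable.stronglyMeasurableAtFilter

lemma Bdd.hasDerivAt_psm (hf : Bdd f) (s v : ℝ) : HasDerivAt (psm f s) (sm f s v) v := by
  unfold psm sm
  have h1 : HasDerivAt (fun v => prim (prim f) (v - s)) (prim f (v - s)) v :=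
    (hf.hasDerivAt_pprim (v - s)).comp_sub_const v s
  exact ((hf.hasDerivAt_pprim v).sub h1).div_const s

lemma Bdd.sm_cont (hf : Bdd f) (s : ℝ) : Continuous (sm f s) := by
  unfold sm
  exact (hf.prim_cont.sub (hf.prim_cont.comp (continuous_id.sub continuous_const))).div_const s

lemma Bdd.psm_cont (hf : Bdd f) (s : ℝ) : Continuous (psm f s) :=
  continuous_iff_continuousAt.2 fun v => (hf.hasDerivAt_psm s v).continuousAt

lemma Bdd.sm_lip (hf : Bdd f) {s : ℝ} (hs : 0 < s) (x y : ℝ) :
    |sm f s x - sm f s y| ≤ 2 / s * |x - y| := by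
  unfold sm
  rw [← sub_div, abs_div, abs_of_pos hs, div_mul_eq_mul_div]
  gcongr
  have e : prim f x - prim f (x - s) - (prim f y - prim f (y - s))
      = (prim f x - prim f y) - (prim f (x - s) - prim f (y - s)) := by ring
  rw [e]
  refine (abs_sub _ _).trans ?_
  have h1 := hf.prim_lip x y
  have h2 := hf.prim_lip (x - s) (y - s)
  have e2 : x - s - (y - s) = x - y := by ring
  rw [e2] at h2
  linarith

lemma Bdd.sm_bound (hf : Bdd f) {s : ℝ} (hs : 0 < s) (x : ℝ) : |sm f s x| ≤ 1 := by
  unfold sm
  rw [abs_div, abs_of_pos hs, div_le_one hs]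
  have h := hf.prim_lip x (x - s)
  have e : x - (x - s) = s := by ring
  rw [e, abs_of_pos hs] at h
  exact h

lemma Bdd.sm_bdd (hf : Bdd f) {s : ℝ} (hs : 0 < s) : Bdd (sm f s) :=
  ⟨(hf.sm_cont s).measurable, hf.sm_bound hs⟩

lemma Bdd.psm_sub (hf : Bdd f) {s : ℝ} (hs : 0 < s) (v : ℝ) : |psm f s v - prim f v| ≤ s := by
  have h1 : psm f s v - prim f v = (∫ t in (v - s)..v, (prim f t - prim f v)) / s := by
    have hi : IntervalIntegrable (prim f) volume (v - s) v := hf.prim_cont.intervalIntegrable _ _
    rw [intervalIntegral.integral_sub hi intervalIntegrable_const]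
    unfold psm
    have : prim (prim f) v - prim (prim f) (v - s) = ∫ t in (v - s)..v, prim f t := by
      unfold prim
      rw [intervalIntegral.integral_interval_sub_left]
      · exact hf.prim_cont.intervalIntegrable _ _
      · exact hf.prim_cont.intervalIntegrable _ _
    rw [this]
    simp
    field_simp
  rw [h1, abs_div, abs_of_pos hs, div_le_iff₀ hs]
  have h2 := intervalIntegral.norm_integral_le_of_norm_le_const (a := v - s) (b := v)
    (f := fun t => prim f t - prim f v) (C := s) (by
      intro t ht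
      rw [Set.uIoc_of_le (by linarith)] at ht
      rw [Real.norm_eq_abs]
      refine (hf.prim_lip t v).trans ?_
      rw [abs_le]
      constructor <;> linarith [ht.1, ht.2])
  rw [Real.norm_eq_abs] at h2
  refine h2.trans (le_of_eq ?_)
  have e : v - (v - s) = s := by ring
  rw [e, abs_of_pos hs]

/-- the box average at a point to the left of which `f` is constant -/
lemma Bdd.sm_eq (hf : Bdd f) {s : ℝ} (hs : 0 < s) {v : ℝ} (h : ∀ t ∈ Set.Icc (v - s) v, f t = f v) :
    sm f s v = f v := by
  unfold sm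
  rw [hf.prim_sub]
  have : ∫ t in (v - s)..v, f t = ∫ _t in (v - s)..v, f v := by
    apply intervalIntegral.integral_congr
    intro t ht
    rw [Set.uIcc_of_le (by linarith)] at ht
    exact h t ht
  rw [this]
  simp
  field_simp

lemma Bdd.sm_zero (hf : Bdd f) {s : ℝ} (hs : 0 < s) {v : ℝ} (h : ∀ t ∈ Set.Icc (v - s) v, f t = 0) :
    sm f s v = 0 := by
  have h0 : f v = 0 := h v ⟨by linarith, le_rfl⟩
  rw [hf.sm_eq hs (fun t ht => by rw [h t ht, h0]), h0]

end Marg
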