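import Pool.Agent.Marg.LogLog
import Pool.Agent.Marg.Coarse

/-!
# The truncated step function `v ↦ z ⌊exp (exp v)⌋`
-/

open Finset Real MeasureTheory Filter Topology
open scoped InnerProductSpace

namespace Marg

variable {z : ℕ → ℝ}

/-- the function `v ↦ z ⌊exp (exp v)⌋` -/
noncomputable def ZZ (z : ℕ → ℝ) (v : ℝ) : ℝ := zf z (exp (exp v))

/-- its truncation to `[v0, v1]` -/
noncomputable def ft (z : ℕ → ℝ) (v0 v1 : ℝ) : ℝ → ℝ := Set.indicator (Set.Icc v0 v1) (ZZ z)

lemma ZZ_meas (hz : ∀ n, |z n| ≤ 1) : Measurable (ZZ z) :=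
  (zf_bdd hz).meas.comp (Real.measurable_exp.comp Real.measurable_exp)

lemma ft_bdd (hz : ∀ n, |z n| ≤ 1) (v0 v1 : ℝ) : Bdd (ft z v0 v1) := by
  refine ⟨(ZZ_meas hz).indicator measurableSet_Icc, fun v => ?_⟩
  unfold ft
  by_cases hv : v ∈ Set.Icc v0 v1
  · rw [Set.indicator_of_mem hv]; exact hz _
  · rw [Set.indicator_of_notMem hv]; simp

lemma ft_supp (v0 v1 : ℝ) : ∀ v, v ∉ Set.Icc v0 v1 → ft z v0 v1 v = 0 :=
  fun v hv => Set.indicator_of_notMem hv _

lemma ft_eq {v0 v1 v : ℝ} (hv : v ∈ Set.Icc v0 v1) : ft z v0 v1 v = ZZ z v :=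
  Set.indicator_of_mem hv _

/-- the exceptional set of the smoothing -/
def badset (v0 v1 s : ℝ) (K : ℕ) : Set ℝ :=
  (⋃ k ∈ Finset.range (K + 1), Set.Icc (ll k) (ll k + s)) ∪ (Set.Icc v0 (v0 + s) ∪ Set.Icc v1 (v1 + s))

lemma badset_meas (v0 v1 s : ℝ) (K : ℕ) : MeasurableSet (badset v0 v1 s K) := by
  unfold badset
  refine MeasurableSet.union ?_ (measurableSet_Icc.union measurableSet_Icc)
  exact Finset.measurableSet_biUnion _ fun k _ => measurableSet_Icc

lemma badset_volume (v0 v1 : ℝ) {s : ℝ} (hs : 0 ≤ s) (K : ℕ) :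
    volume (badset v0 v1 s K) ≤ ENNReal.ofReal ((K + 3) * s) := by
  unfold badset
  refine (measure_union_le _ _).trans ?_
  have h1 : volume (⋃ k ∈ Finset.range (K + 1), Set.Icc (ll k) (ll k + s))
      ≤ ∑ _k ∈ Finset.range (K + 1), ENNReal.ofReal s := by
    refine (measure_biUnion_finset_le _ _).trans ?_
    refine Finset.sum_le_sum fun k _ => ?_
    rw [Real.volume_Icc]
    apply le_of_eq; congr 1; ring
  have h2 : volume (Set.Icc v0 (v0 + s) ∪ Set.Icc v1 (v1 + s))
      ≤ ENNReal.ofReal s + ENNReal.ofReal s := by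
    refine (measure_union_le _ _).trans ?_
    rw [Real.volume_Icc, Real.volume_Icc]
    apply le_of_eq; congr 2 <;> ring
  refine (add_le_add h1 h2).trans ?_
  rw [Finset.sum_const, card_range, nsmul_eq_mul, ← ENNReal.ofReal_add hs hs,
    ← ENNReal.ofReal_natCast, ← ENNReal.ofReal_mul (by positivity),
    ← ENNReal.ofReal_add (by positivity) (by positivity)]
  apply le_of_eq
  congr 1
  push_cast; ring

/-- Outside the exceptional set the smoothing does not change the function. -/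
lemma sm_eq_of_notMem_badset (hz : ∀ n, |z n| ≤ 1) {v0 v1 s : ℝ} (hs : 0 < s)
    {K : ℕ} (hK : exp (exp v1) ≤ K) {v : ℝ} (hv : v ∉ badset v0 v1 s K) :
    sm (ft z v0 v1) s v = ft z v0 v1 v := by
  unfold badset at hv
  rw [Set.mem_union, Set.mem_union, not_or, not_or] at hv
  obtain ⟨ha, hb, hc⟩ := hv
  apply (ft_bdd hz v0 v1).sm_eq hs
  intro t ht
  by_cases h1 : v < v0
  · rw [ft_supp v0 v1 v (fun h => absurd h.1 (not_le.2 h1)),
      ft_supp v0 v1 t (fun h => absurd (h.1.trans ht.2) (not_le.2 h1))]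
  push Not at h1
  have h2 : v0 + s < v := by
    by_contra hcon
    push Not at hcon
    exact hb ⟨h1, hcon⟩
  by_cases h3 : v < v1
  · -- middle case
    have hvm : v ∈ Set.Icc v0 v1 := ⟨h1, h3.le⟩
    have htm : t ∈ Set.Icc v0 v1 := ⟨by linarith [ht.1], ht.2.trans h3.le⟩
    rw [ft_eq hvm, ft_eq htm]
    unfold ZZ zf
    congr 1
    have hle : ⌊exp (exp t)⌋₊ ≤ ⌊exp (exp v)⌋₊ := by
      apply Nat.floor_le_floor
      exact Real.exp_le_exp.2 (Real.exp_le_exp.2 ht.2)
    rcases hle.lt_or_eq with hlt | heq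
    · exfalso
      apply ha
      have hpos : (0 : ℝ) ≤ exp (exp t) := (exp_pos _).le
      have hk1 : exp (exp t) < (⌊exp (exp v)⌋₊ : ℝ) := by
        rw [← Nat.floor_lt hpos]; exact hlt
      have hk2 : (⌊exp (exp v)⌋₊ : ℝ) ≤ exp (exp v) := Nat.floor_le (exp_pos _).le
      set k := ⌊exp (exp v)⌋₊ with hk
      have hk0 : (1 : ℝ) < k := by
        refine lt_of_le_of_lt ?_ hk1
        exact Real.one_le_exp (exp_pos _).le
      have hlogk : 0 < log k := Real.log_pos hk0
      have e1 : t < ll k := by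
        unfold ll
        rw [Real.lt_log_iff_exp_lt hlogk, Real.lt_log_iff_exp_lt (by linarith)]
        exact hk1
      have e2 : ll k ≤ v := by
        unfold ll
        rw [Real.log_le_iff_le_exp hlogk, Real.log_le_iff_le_exp (by linarith)]
        exact hk2
      rw [Set.mem_iUnion₂]
      refine ⟨k, ?_, ?_⟩
      · rw [Finset.mem_range, Nat.lt_succ_iff]
        have : (k : ℝ) ≤ K := by
          refine hk2.trans (le_trans ?_ hK)
          exact Real.exp_le_exp.2 (Real.exp_le_exp.2 h3.le)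
        exact_mod_cast this
      · exact ⟨e2, by linarith [ht.1]⟩
    · exact heq
  · push Not at h3
    have h4 : v1 + s < v := by
      by_contra hcon
      push Not at hcon
      exact hc ⟨h3, hcon⟩
    rw [ft_supp v0 v1 v (fun h => by linarith [h.2]),
      ft_supp v0 v1 t (fun h => by linarith [h.2, ht.1])]

/-- difference between the function and its smoothing -/
noncomputable def rem0 (z : ℕ → ℝ) (v0 v1 s v : ℝ) : ℝ := ft z v0 v1 v - sm (ft z v0 v1) s v

lemma rem0_cpt (hz : ∀ n, |z n| ≤ 1) {v0 v1 s : ℝ} (hs : 0 < s) :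
    Cpt (rem0 z v0 v1 s) v0 (v1 + s) 2 := by
  have hf := ft_bdd hz v0 v1
  refine ⟨hf.meas.sub (hf.sm_cont s).measurable, fun v => ?_, fun v hv => ?_⟩
  · unfold rem0
    refine (abs_sub _ _).trans ?_
    linarith [hf.bound v, hf.sm_bound hs v]
  · have hv' : v < v0 ∨ v1 + s < v := by
      by_contra hcon
      push Not at hcon
      exact hv ⟨hcon.1, hcon.2⟩
    have hzr : ∀ t ∈ Set.Icc (v - s) v, ft z v0 v1 t = 0 := by
      intro t ht
      apply ft_supp
      intro hmem
      rcases hv' with h | h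
      · linarith [ht.2, hmem.1]
      · linarith [ht.1, hmem.2]
    unfold rem0
    rw [hf.sm_zero hs hzr, hzr v ⟨by linarith, le_rfl⟩]
    ring

lemma rem0_norm (hz : ∀ n, |z n| ≤ 1) {v0 v1 s : ℝ} (hs : 0 < s) {K : ℕ}
    (hK : exp (exp v1) ≤ K) :
    ‖(rem0_cpt hz (v0 := v0) (v1 := v1) hs).φ 0‖ ^ 2 ≤ 4 * ((K + 3) * s) := by
  rw [Cpt.norm_zero_sq]
  have hz0 : ∀ v, v ∉ badset v0 v1 s K → rem0 z v0 v1 s v ^ 2 = 0 := by
    intro v hv
    unfold rem0
    rw [sm_eq_of_notMem_badset hz hs hK hv]; ring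
  rw [← setIntegral_eq_integral_of_forall_compl_eq_zero hz0]
  have hvol := badset_volume v0 v1 hs.le K
  have h1 : ‖∫ v in badset v0 v1 s K, rem0 z v0 v1 s v ^ 2‖
      ≤ 4 * volume.real (badset v0 v1 s K) := by
    apply norm_setIntegral_le_of_norm_le_const
    · exact lt_of_le_of_lt hvol ENNReal.ofReal_lt_top
    · intro v _
      rw [Real.norm_eq_abs, abs_pow]
      have := (rem0_cpt hz (v0 := v0) (v1 := v1) hs).bound v
      nlinarith [abs_nonneg (rem0 z v0 v1 s v)]
  refine (le_norm_self _).trans (h1.trans ?_)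
  gcongr
  exact ENNReal.toReal_le_of_le_ofReal (by positivity) hvol

end Marg
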